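import Pool.Agent.Lib.MP_684ec1_an.CH.Spec

/-!
# MP_684ec1, module APX: smooth support functions

The support function `h = (1/β) log ∑ exp (β a_ζ)`, `a_ζ θ = Re (ζ e^(-iθ))`, is smooth and
`h + h'' = (h - ∑ w_ζ a_ζ) + β Var_w (a') ≥ 0`, `w_ζ` the weights `exp (β a_ζ) / ∑ exp (β a_ζ)`.
-/

set_option autoImplicit false

namespace Pool.Agent.Lib.MP684ec1.CH

open Complex Polynomial MeasureTheory intervalIntegral Set
open Pool.Agent.Lib.MP684ec1.HP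

namespace APXM

noncomputable section

/-- `Re (ζ e^(-iθ))` -/
def a (ζ : ℂ) (θ : ℝ) : ℝ := ζ.re * Real.cos θ + ζ.im * Real.sin θ

/-- its derivative -/
def b (ζ : ℂ) (θ : ℝ) : ℝ := ζ.im * Real.cos θ - ζ.re * Real.sin θ

/-- the exponential -/
def E (β : ℝ) (ζ : ℂ) (θ : ℝ) : ℝ := Real.exp (β * a ζ θ)

/-- the sum of the exponentials -/
def Z (s : Finset ℂ) (β θ : ℝ) : ℝ := ∑ ζ ∈ s, E β ζ θ

/-- the sum of `b E` -/
def N (s : Finset ℂ) (β θ : ℝ) : ℝ := ∑ ζ ∈ s, b ζ θ * E β ζ θ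

/-- the derivative of `N` -/
def P (s : Finset ℂ) (β θ : ℝ) : ℝ := ∑ ζ ∈ s, (-a ζ θ * E β ζ θ + b ζ θ * (β * b ζ θ * E β ζ θ))

lemma a_eq (ζ : ℂ) (θ : ℝ) : (ζ * (starRingEnd ℂ) (ee θ)).re = a ζ θ := by
  unfold a ee
  rw [Complex.mul_re, Complex.conj_re, Complex.conj_im, Complex.exp_ofReal_mul_I_re,
    Complex.exp_ofReal_mul_I_im]
  ring

lemma da (ζ : ℂ) (θ : ℝ) : HasDerivAt (a ζ) (b ζ θ) θ := by
  have h1 := ((Real.hasDerivAt_cos θ).const_mul ζ.re).add ((Real.hasDerivAt_sin θ).const_mul ζ.im)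
  have h2 : ζ.re * -Real.sin θ + ζ.im * Real.cos θ = b ζ θ := by
    unfold b
    ring
  rw [h2] at h1
  exact h1

lemma db (ζ : ℂ) (θ : ℝ) : HasDerivAt (b ζ) (-a ζ θ) θ := by
  have h1 := ((Real.hasDerivAt_cos θ).const_mul ζ.im).sub ((Real.hasDerivAt_sin θ).const_mul ζ.re)
  have h2 : ζ.im * -Real.sin θ - ζ.re * Real.cos θ = -a ζ θ := by
    unfold a
    ring
  rw [h2] at h1
  exact h1

lemma dE (β : ℝ) (ζ : ℂ) (θ : ℝ) : HasDerivAt (E β ζ) (β * b ζ θ * E β ζ θ) θ := by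
  have h1 := ((da ζ θ).const_mul β).exp
  rw [mul_comm] at h1
  exact h1

lemma dZ (s : Finset ℂ) (β θ : ℝ) : HasDerivAt (Z s β) (β * N s β θ) θ := by
  have h1 : HasDerivAt (fun t => ∑ ζ ∈ s, E β ζ t) (∑ ζ ∈ s, β * b ζ θ * E β ζ θ) θ :=
    HasDerivAt.fun_sum fun ζ _ => dE β ζ θ
  have h2 : ∑ ζ ∈ s, β * b ζ θ * E β ζ θ = β * N s β θ := by
    unfold N
    rw [Finset.mul_sum]
    exact Finset.sum_congr rfl fun ζ _ => mul_assoc _ _ _
  rw [h2] at h1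
  exact h1

lemma dN (s : Finset ℂ) (β θ : ℝ) : HasDerivAt (N s β) (P s β θ) θ :=
  HasDerivAt.fun_sum fun ζ _ => (db ζ θ).mul (dE β ζ θ)

lemma E_pos (β : ℝ) (ζ : ℂ) (θ : ℝ) : 0 < E β ζ θ := Real.exp_pos _

lemma Z_pos {s : Finset ℂ} (hs : s.Nonempty) (β θ : ℝ) : 0 < Z s β θ :=
  Finset.sum_pos (fun ζ _ => E_pos β ζ θ) hs

lemma a_per (ζ : ℂ) (θ : ℝ) : a ζ (θ + 2 * Real.pi) = a ζ θ := by
  unfold a
  rw [Real.cos_add_two_pi, Real.sin_add_two_pi]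

lemma b_per (ζ : ℂ) (θ : ℝ) : b ζ (θ + 2 * Real.pi) = b ζ θ := by
  unfold b
  rw [Real.cos_add_two_pi, Real.sin_add_two_pi]

lemma cont_a (ζ : ℂ) : Continuous (a ζ) :=
  continuous_iff_continuousAt.mpr fun θ => (da ζ θ).continuousAt

lemma cont_b (ζ : ℂ) : Continuous (b ζ) :=
  continuous_iff_continuousAt.mpr fun θ => (db ζ θ).continuousAt

lemma cont_E (β : ℝ) (ζ : ℂ) : Continuous (E β ζ) :=
  continuous_iff_continuousAt.mpr fun θ => (dE β ζ θ).continuousAt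

lemma cont_Z (s : Finset ℂ) (β : ℝ) : Continuous (Z s β) :=
  continuous_iff_continuousAt.mpr fun θ => (dZ s β θ).continuousAt

lemma cont_N (s : Finset ℂ) (β : ℝ) : Continuous (N s β) :=
  continuous_iff_continuousAt.mpr fun θ => (dN s β θ).continuousAt

lemma cont_P (s : Finset ℂ) (β : ℝ) : Continuous (P s β) := by
  unfold P
  refine continuous_finset_sum _ fun ζ _ => ?_
  exact ((cont_a ζ).neg.mul (cont_E β ζ)).add
    ((cont_b ζ).mul ((continuous_const.mul (cont_b ζ)).mul (cont_E β ζ)))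

lemma le_HH (s : Finset ℂ) (hs : s.Nonempty) (θ : ℝ) {ζ : ℂ} (hζ : ζ ∈ s) :
    a ζ θ ≤ HH s hs θ := by
  rw [← a_eq]
  exact Finset.le_sup' (fun ζ => (ζ * (starRingEnd ℂ) (ee θ)).re) hζ

lemma HH_eq (s : Finset ℂ) (hs : s.Nonempty) (θ : ℝ) : ∃ ζ ∈ s, HH s hs θ = a ζ θ := by
  obtain ⟨ζ, hζ, h⟩ := Finset.exists_mem_eq_sup' hs (fun ζ => (ζ * (starRingEnd ℂ) (ee θ)).re)
  exact ⟨ζ, hζ, h.trans (a_eq ζ θ)⟩

lemma HH_le {s : Finset ℂ} (hs : s.Nonempty) {β : ℝ} (hβ : 0 < β) (θ : ℝ) :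
    HH s hs θ ≤ Real.log (Z s β θ) / β := by
  obtain ⟨ζ, hζ, h⟩ := HH_eq s hs θ
  rw [h, le_div_iff₀ hβ, mul_comm]
  have h1 : E β ζ θ ≤ Z s β θ :=
    Finset.single_le_sum (f := fun ζ => E β ζ θ) (fun ζ _ => (E_pos β ζ θ).le) hζ
  have h2 := Real.log_le_log (E_pos β ζ θ) h1
  unfold E at h2
  rwa [Real.log_exp] at h2

lemma le_HH_add {s : Finset ℂ} (hs : s.Nonempty) {β : ℝ} (hβ : 0 < β) (θ : ℝ) :
    Real.log (Z s β θ) / β ≤ HH s hs θ + Real.log s.card / β := by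
  have hc : (0 : ℝ) < s.card := by exact_mod_cast hs.card_pos
  have h1 : Z s β θ ≤ s.card * Real.exp (β * HH s hs θ) := by
    unfold Z
    calc ∑ ζ ∈ s, E β ζ θ ≤ ∑ _ζ ∈ s, Real.exp (β * HH s hs θ) :=
          Finset.sum_le_sum fun ζ hζ =>
            Real.exp_le_exp.mpr (mul_le_mul_of_nonneg_left (le_HH s hs θ hζ) hβ.le)
      _ = s.card * Real.exp (β * HH s hs θ) := by rw [Finset.sum_const, nsmul_eq_mul]
  have h2 := Real.log_le_log (Z_pos hs β θ) h1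
  rw [Real.log_mul hc.ne' (Real.exp_pos _).ne', Real.log_exp] at h2
  rw [div_le_iff₀ hβ, add_mul, div_mul_cancel₀ _ hβ.ne']
  linarith

lemma cs (s : Finset ℂ) (β θ : ℝ) :
    N s β θ ^ 2 ≤ Z s β θ * ∑ ζ ∈ s, b ζ θ ^ 2 * E β ζ θ := by
  unfold N Z
  refine Finset.sum_sq_le_sum_mul_sum_of_sq_eq_mul s (fun ζ _ => (E_pos β ζ θ).le)
    (fun ζ _ => mul_nonneg (sq_nonneg _) (E_pos β ζ θ).le) (fun ζ _ => ?_)
  ring

lemma P_eq (s : Finset ℂ) (β θ : ℝ) :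
    P s β θ = -(∑ ζ ∈ s, a ζ θ * E β ζ θ) + β * ∑ ζ ∈ s, b ζ θ ^ 2 * E β ζ θ := by
  unfold P
  rw [Finset.sum_add_distrib, ← Finset.sum_neg_distrib, Finset.mul_sum]
  congr 1
  · exact Finset.sum_congr rfl fun ζ _ => by ring
  · exact Finset.sum_congr rfl fun ζ _ => by ring

end

end APXM

open APXM in
theorem specAPX : SpecAPX := by
  intro s hs ε hε
  set β : ℝ := (Real.log s.card + 1) / ε with hβdef
  have hc1 : (1 : ℝ) ≤ s.card := by exact_mod_cast hs.card_pos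
  have hlog : 0 ≤ Real.log s.card := Real.log_nonneg hc1
  have hβ : 0 < β := div_pos (by linarith) hε
  have hlogβ : Real.log s.card / β ≤ ε := by
    rw [div_le_iff₀ hβ, hβdef, mul_div_cancel₀ _ hε.ne']
    linarith
  refine ⟨fun θ => Real.log (Z s β θ) / β, fun θ => N s β θ / Z s β θ,
    fun θ => (P s β θ * Z s β θ - N s β θ * (β * N s β θ)) / Z s β θ ^ 2, ?_, ?_⟩
  · refine ⟨?_, ?_, ?_, ?_, ?_, ?_⟩
    · intro θ
      have h1 := ((dZ s β θ).log (Z_pos hs β θ).ne').div_const β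
      have h2 : β * N s β θ / Z s β θ / β = N s β θ / Z s β θ := by
        rw [div_div, mul_comm (Z s β θ) β, mul_div_mul_left _ _ hβ.ne']
      rw [h2] at h1
      exact h1
    · intro θ
      exact (dN s β θ).div (dZ s β θ) (Z_pos hs β θ).ne'
    · exact (((cont_P s β).mul (cont_Z s β)).sub
        ((cont_N s β).mul (continuous_const.mul (cont_N s β)))).div ((cont_Z s β).pow 2)
        fun θ => pow_ne_zero 2 (Z_pos hs β θ).ne'
    · intro θ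
      simp only [Z, E, a_per]
    · intro θ
      simp only [Z, N, E, a_per, b_per]
    · intro θ
      have hZ := Z_pos hs β θ
      have h1 := HH_le hs hβ θ
      have h2 : ∑ ζ ∈ s, a ζ θ * E β ζ θ ≤ HH s hs θ * Z s β θ := by
        unfold Z
        rw [Finset.mul_sum]
        exact Finset.sum_le_sum fun ζ hζ =>
          mul_le_mul_of_nonneg_right (le_HH s hs θ hζ) (E_pos β ζ θ).le
      have h3 := cs s β θ
      have h4 : -HH s hs θ ≤ (P s β θ * Z s β θ - N s β θ * (β * N s β θ)) / Z s β θ ^ 2 := by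
        rw [le_div_iff₀ (by positivity), P_eq]
        have h5 : β * N s β θ ^ 2 ≤ β * (Z s β θ * ∑ ζ ∈ s, b ζ θ ^ 2 * E β ζ θ) :=
          mul_le_mul_of_nonneg_left h3 hβ.le
        have h6 : (∑ ζ ∈ s, a ζ θ * E β ζ θ) * Z s β θ ≤ HH s hs θ * Z s β θ * Z s β θ :=
          mul_le_mul_of_nonneg_right h2 hZ.le
        nlinarith
      have h7 : HH s hs θ ≤ Real.log (Z s β θ) / β := h1
      show 0 ≤ Real.log (Z s β θ) / β +
        (P s β θ * Z s β θ - N s β θ * (β * N s β θ)) / Z s β θ ^ 2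
      linarith
  · intro θ
    refine ⟨HH_le hs hβ θ, ?_⟩
    have h1 := le_HH_add hs hβ θ
    show Real.log (Z s β θ) / β ≤ HH s hs θ + ε
    linarith

end Pool.Agent.Lib.MP684ec1.CH
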