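import Pool.Agent.Lib.MP_684ec1_an.CH.Spec

/-! MP_684ec1_an, module BOX: the bound on the box `[ε, 2]` (helper74). -/

set_option autoImplicit false

namespace Pool.Agent.Lib.MP684ec1.CH

open Complex Polynomial MeasureTheory intervalIntegral Set
open Pool.Agent.Lib.MP684ec1.HP

namespace BOXM

/-- the half-plane `r > 0` -/
def U : Set (ℝ × ℝ) := {q : ℝ × ℝ | 0 < q.2}

theorem isOpen_U : IsOpen U := isOpen_lt continuous_const continuous_snd

theorem cont_int {F : ℝ → ℝ → ℝ} (hF : ContinuousOn (fun q : ℝ × ℝ => F q.1 q.2) U) {a b : ℝ}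
    (ha : 0 < a) (hab : a ≤ b) : Continuous (fun θ => ∫ r in a..b, F θ r) := by
  have h0 : Continuous (fun q : ℝ × ℝ => ((q.1, max q.2 a) : ℝ × ℝ)) := by fun_prop
  have h1 : Continuous (fun q : ℝ × ℝ => F q.1 (max q.2 a)) :=
    hF.comp_continuous h0 (fun q => lt_of_lt_of_le ha (le_max_right _ _))
  have h2 : Continuous (fun θ => ∫ r in a..b, F θ (max r a)) :=
    intervalIntegral.continuous_parametric_intervalIntegral_of_continuous'
      (f := fun θ r => F θ (max r a)) h1 a b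
  have h3 : (fun θ => ∫ r in a..b, F θ r) = (fun θ => ∫ r in a..b, F θ (max r a)) := by
    funext θ
    refine intervalIntegral.integral_congr (fun r hr => ?_)
    rw [uIcc_of_le hab] at hr
    rw [max_eq_left hr.1]
  rw [h3]
  exact h2

theorem cont_left {F : ℝ → ℝ → ℝ} (hF : ContinuousOn (fun q : ℝ × ℝ => F q.1 q.2) U) {c : ℝ}
    (hc : 0 < c) : Continuous (fun θ => F θ c) := by
  have h0 : Continuous (fun θ : ℝ => ((θ, c) : ℝ × ℝ)) := by fun_prop
  exact hF.comp_continuous h0 (fun θ => hc)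

theorem int_right {F : ℝ → ℝ → ℝ} (hF : ContinuousOn (fun q : ℝ × ℝ => F q.1 q.2) U) (θ : ℝ)
    {a b : ℝ} (ha : 0 < a) (hab : a ≤ b) : IntervalIntegrable (F θ) volume a b := by
  have h0 : Continuous (fun r : ℝ => ((θ, r) : ℝ × ℝ)) := by fun_prop
  have h1 : ContinuousOn (F θ) (uIcc a b) := by
    rw [uIcc_of_le hab]
    exact hF.comp h0.continuousOn (fun r hr => lt_of_lt_of_le ha hr.1)
  exact h1.intervalIntegrable

theorem deriv_right {F : ℝ → ℝ → ℝ} (hF : ContDiffOn ℝ 1 (fun q : ℝ × ℝ => F q.1 q.2) U) :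
    ContinuousOn (fun q : ℝ × ℝ => deriv (fun t => F q.1 t) q.2) U := by
  have h1 : ContinuousOn (fderiv ℝ (fun q : ℝ × ℝ => F q.1 q.2)) U :=
    hF.continuousOn_fderiv_of_isOpen isOpen_U le_rfl
  have h2 : ContinuousOn (fun q : ℝ × ℝ =>
      fderiv ℝ (fun q : ℝ × ℝ => F q.1 q.2) q ((0 : ℝ), (1 : ℝ))) U :=
    h1.clm_apply continuousOn_const
  refine h2.congr (fun q hq => ?_)
  have h3 : HasFDerivAt (fun q : ℝ × ℝ => F q.1 q.2)
      (fderiv ℝ (fun q : ℝ × ℝ => F q.1 q.2) (q.1, q.2)) (q.1, q.2) :=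
    ((hF.differentiableOn (by norm_num)).differentiableAt (isOpen_U.mem_nhds hq)).hasFDerivAt
  have h4 : HasDerivAt (fun t : ℝ => ((q.1, t) : ℝ × ℝ)) ((0 : ℝ), (1 : ℝ)) q.2 :=
    (hasDerivAt_const q.2 q.1).prodMk (hasDerivAt_id q.2)
  exact (h3.comp_hasDerivAt q.2 h4).deriv

theorem deriv_left {F : ℝ → ℝ → ℝ} (hF : ContDiffOn ℝ 1 (fun q : ℝ × ℝ => F q.1 q.2) U) :
    ContinuousOn (fun q : ℝ × ℝ => deriv (fun t => F t q.2) q.1) U := by
  have h1 : ContinuousOn (fderiv ℝ (fun q : ℝ × ℝ => F q.1 q.2)) U :=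
    hF.continuousOn_fderiv_of_isOpen isOpen_U le_rfl
  have h2 : ContinuousOn (fun q : ℝ × ℝ =>
      fderiv ℝ (fun q : ℝ × ℝ => F q.1 q.2) q ((1 : ℝ), (0 : ℝ))) U :=
    h1.clm_apply continuousOn_const
  refine h2.congr (fun q hq => ?_)
  have h3 : HasFDerivAt (fun q : ℝ × ℝ => F q.1 q.2)
      (fderiv ℝ (fun q : ℝ × ℝ => F q.1 q.2) (q.1, q.2)) (q.1, q.2) :=
    ((hF.differentiableOn (by norm_num)).differentiableAt (isOpen_U.mem_nhds hq)).hasFDerivAt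
  have h4 : HasDerivAt (fun t : ℝ => ((t, q.2) : ℝ × ℝ)) ((1 : ℝ), (0 : ℝ)) q.1 :=
    (hasDerivAt_id q.1).prodMk (hasDerivAt_const q.1 q.2)
  exact (h3.comp_hasDerivAt q.1 h4).deriv

variable {p : ℂ[X]} {h h1 h2 : ℝ → ℝ}

theorem norm_ee (θ : ℝ) : ‖ee θ‖ = 1 := Complex.norm_exp_ofReal_mul_I θ

theorem eval_ne (hL : SpecLGO) (hS : Sup h h1 h2) (hI : Ins p h) (θ r : ℝ) (hr : 0 < r) :
    p.eval (ZZ h h1 θ r) ≠ 0 := by
  have h3 := (hL p h h1 h2 hS hI θ r hr).1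
  have h4 : p.leadingCoeff ≠ 0 := by
    intro h5
    have h6 := hI.1
    rw [Polynomial.leadingCoeff_eq_zero.1 h5] at h6
    simp at h6
  intro h5
  rw [h5, norm_zero] at h3
  have h6 : 0 < ‖p.leadingCoeff‖ * r ^ p.natDegree :=
    mul_pos (norm_pos_iff.2 h4) (pow_pos hr _)
  linarith

theorem wt_nonneg (z : ℂ) : 0 ≤ wt p z := by
  unfold wt
  positivity

theorem sq_eq (θ r : ℝ) : RR p h h1 θ r ^ 2 = PP p h h1 θ r ^ 2 + QQ p h h1 θ r ^ 2 := by
  have h3 : RR p h h1 θ r = ‖lg p (ZZ h h1 θ r) * ee θ‖ := by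
    unfold RR
    rw [norm_mul, norm_ee, mul_one]
  rw [h3, ← Complex.normSq_eq_norm_sq, Complex.normSq_apply]
  unfold PP QQ
  ring

theorem P_le_R (θ r : ℝ) : PP p h h1 θ r ≤ RR p h h1 θ r := by
  have h3 : 0 ≤ RR p h h1 θ r := norm_nonneg _
  have h4 := sq_eq (p := p) (h := h) (h1 := h1) θ r
  exact abs_le_of_sq_le_sq' (by nlinarith [sq_nonneg (QQ p h h1 θ r)]) h3 |>.2

theorem Q_le_R (θ r : ℝ) : |QQ p h h1 θ r| ≤ RR p h h1 θ r := by
  have h3 : 0 ≤ RR p h h1 θ r := norm_nonneg _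
  have h4 := sq_eq (p := p) (h := h) (h1 := h1) θ r
  exact abs_le_of_sq_le_sq (by nlinarith [sq_nonneg (PP p h h1 θ r)]) h3

theorem sph_eq {z : ℂ} (hz : p.eval z ≠ 0) : sph p z = wt p z * ‖lg p z‖ := by
  unfold sph wt lg
  rw [norm_div]
  have h3 : ‖p.eval z‖ ≠ 0 := norm_ne_zero_iff.2 hz
  have h4 : (1 + ‖p.eval z‖ ^ 2) ≠ 0 := by positivity
  field_simp

theorem AA_nonneg (θ r : ℝ) : 0 ≤ AA p h h1 θ r := by
  unfold AA
  have h3 : 0 ≤ RR p h h1 θ r := norm_nonneg _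
  have h4 := wt_nonneg (p := p) (ZZ h h1 θ r)
  positivity

theorem cont_ZZ (hS : Sup h h1 h2) : Continuous (fun q : ℝ × ℝ => ZZ h h1 q.1 q.2) := by
  have c0 : Continuous h := continuous_iff_continuousAt.2 fun θ => (hS.d1 θ).continuousAt
  have c1 : Continuous h1 := continuous_iff_continuousAt.2 fun θ => (hS.d2 θ).continuousAt
  unfold ZZ gam ee
  fun_prop

theorem cont_sph (hS : Sup h h1 h2) : Continuous (fun q : ℝ × ℝ => sph p (ZZ h h1 q.1 q.2)) := by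
  have c0 := cont_ZZ hS
  have c1 : Continuous (fun q : ℝ × ℝ => p.derivative.eval (ZZ h h1 q.1 q.2)) :=
    p.derivative.continuous.comp c0
  have c2 : Continuous (fun q : ℝ × ℝ => p.eval (ZZ h h1 q.1 q.2)) := p.continuous.comp c0
  unfold sph
  exact c1.norm.div (continuous_const.add (c2.norm.pow 2)) (fun q => by positivity)

theorem cont_wt (hS : Sup h h1 h2) : Continuous (fun q : ℝ × ℝ => wt p (ZZ h h1 q.1 q.2)) := by
  have c0 := cont_ZZ hS
  have c2 : Continuous (fun q : ℝ × ℝ => p.eval (ZZ h h1 q.1 q.2)) := p.continuous.comp c0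
  unfold wt
  exact c2.norm.div (continuous_const.add (c2.norm.pow 2)) (fun q => by positivity)

theorem cont_PP (hL : SpecLGO) (hS : Sup h h1 h2) (hI : Ins p h) :
    ContinuousOn (fun q : ℝ × ℝ => PP p h h1 q.1 q.2) U := by
  have c0 := cont_ZZ hS
  have c1 : Continuous (fun q : ℝ × ℝ => p.derivative.eval (ZZ h h1 q.1 q.2)) :=
    p.derivative.continuous.comp c0
  have c2 : Continuous (fun q : ℝ × ℝ => p.eval (ZZ h h1 q.1 q.2)) := p.continuous.comp c0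
  have c3 : ContinuousOn (fun q : ℝ × ℝ => lg p (ZZ h h1 q.1 q.2)) U := by
    unfold lg
    exact c1.continuousOn.div c2.continuousOn (fun q hq => eval_ne hL hS hI q.1 q.2 hq)
  have c4 : Continuous (fun q : ℝ × ℝ => ee q.1) := by
    unfold ee
    fun_prop
  unfold PP
  exact Complex.continuous_re.comp_continuousOn (c3.mul c4.continuousOn)

/-- `w P` -/
noncomputable def wP (p : ℂ[X]) (h h1 : ℝ → ℝ) (θ r : ℝ) : ℝ :=
  wt p (ZZ h h1 θ r) * PP p h h1 θ r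

theorem cont_wP (hL : SpecLGO) (hS : Sup h h1 h2) (hI : Ins p h) :
    ContinuousOn (fun q : ℝ × ℝ => wP p h h1 q.1 q.2) U :=
  (cont_wt hS).continuousOn.mul (cont_PP hL hS hI)

/-- the integrand of STK -/
noncomputable def gg (p : ℂ[X]) (h h1 h2 χ : ℝ → ℝ) (α β θ r : ℝ) : ℝ :=
  χ θ * (α * (h θ + h2 θ + r) * AA p h h1 θ r + (α * r + β) *
      (AA p h h1 θ r + (h θ + h2 θ + r) * deriv (fun t => AA p h h1 θ t) r -
        deriv (fun t => BB p h h1 t r) θ))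

theorem cont_gg (hM : SpecSMT) (hS : Sup h h1 h2) (hI : Ins p h) {χ : ℝ → ℝ} (hχ : Continuous χ)
    (α β : ℝ) : ContinuousOn (fun q : ℝ × ℝ => gg p h h1 h2 χ α β q.1 q.2) U := by
  obtain ⟨hA, hB⟩ := hM p h h1 h2 hS hI
  have cA : ContinuousOn (fun q : ℝ × ℝ => AA p h h1 q.1 q.2) U := hA.continuousOn
  have cA' := deriv_right (F := fun θ r => AA p h h1 θ r) hA
  have cB' := deriv_left (F := fun θ r => BB p h h1 θ r) hB
  have c0 : Continuous h := continuous_iff_continuousAt.2 fun θ => (hS.d1 θ).continuousAt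
  have c2 : Continuous h2 := hS.cont
  have cs : ContinuousOn (fun q : ℝ × ℝ => h q.1 + h2 q.1 + q.2) U := by
    apply Continuous.continuousOn
    fun_prop
  have cc : ContinuousOn (fun q : ℝ × ℝ => χ q.1) U := by
    apply Continuous.continuousOn
    fun_prop
  have cl : ContinuousOn (fun q : ℝ × ℝ => α * q.2 + β) U := by
    apply Continuous.continuousOn
    fun_prop
  unfold gg
  exact cc.mul (((continuousOn_const.mul cs).mul cA).add
    (cl.mul ((cA.add (cs.mul cA')).sub cB')))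

/-- the pointwise inequality at `r ≤ 2` with the weight `r` -/
theorem pt1 (hL : SpecLGO) (hP : SpecPWI) (hS : Sup h h1 h2) (hI : Ins p h) {χ : ℝ → ℝ}
    (hχ : ∀ θ, 0 ≤ χ θ) (θ r : ℝ) (hr : 0 < r) (hr2 : r ≤ 2) :
    χ θ * (h θ + h2 θ + r) * sph p (ZZ h h1 θ r) ≤
      gg p h h1 h2 χ 1 0 θ r + 2 * χ θ * (h θ + h2 θ + 2) * wP p h h1 θ r := by
  obtain ⟨Ar, Bt, h3, h4, h5⟩ := hP p h h1 h2 hS hI θ r hr
  have hP0 := (hL p h h1 h2 hS hI θ r hr).2.1
  have hR0 : 0 < RR p h h1 θ r := lt_of_lt_of_le hP0 (P_le_R θ r)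
  have hsq := sq_eq (p := p) (h := h) (h1 := h1) θ r
  have hPR := P_le_R (p := p) (h := h) (h1 := h1) θ r
  have hw := wt_nonneg (p := p) (ZZ h h1 θ r)
  have hρ := hS.nn θ
  have hsph : sph p (ZZ h h1 θ r) = wt p (ZZ h h1 θ r) * RR p h h1 θ r :=
    sph_eq (eval_ne hL hS hI θ r hr)
  have hc := hχ θ
  unfold gg wP
  rw [h3.deriv, h4.deriv, hsph]
  have hA : AA p h h1 θ r = wt p (ZZ h h1 θ r) * QQ p h h1 θ r ^ 2 / RR p h h1 θ r := rfl
  set w := wt p (ZZ h h1 θ r) with hwdef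
  set P := PP p h h1 θ r with hPdef
  set Q := QQ p h h1 θ r with hQdef
  set R := RR p h h1 θ r with hRdef
  set A := AA p h h1 θ r with hAdef
  set ρ := h θ + h2 θ with hρdef
  -- `r * (...) ≥ - w P²/R ρ`
  have h6 : -(w * P ^ 2 / R * ρ) ≤ r * (A + (ρ + r) * Ar - Bt) := by
    have h7 := mul_le_mul_of_nonneg_left h5 hr.le
    have h8 : r * -(w * P ^ 2 / R * (ρ / r)) = -(w * P ^ 2 / R * ρ) := by
      field_simp
    linarith
  have h9 : w * P ^ 2 / R ≤ w * P := by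
    rw [div_le_iff₀ hR0]
    nlinarith [mul_nonneg hw hP0.le]
  have h9' : 0 ≤ w * P ^ 2 / R := by positivity
  have h10 : w * R = A + w * P ^ 2 / R := by
    rw [hA, ← add_div, eq_div_iff hR0.ne']
    calc w * R * R = w * R ^ 2 := by ring
      _ = w * Q ^ 2 + w * P ^ 2 := by rw [hsq]; ring
  have h11 : (ρ + r) * (w * R) ≤ 1 * (ρ + r) * A + (1 * r + 0) * (A + (ρ + r) * Ar - Bt) +
      2 * (ρ + 2) * (w * P) := by
    have h12 : ρ * (w * P ^ 2 / R) ≤ (ρ + r) * (w * P ^ 2 / R) := by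
      nlinarith
    have h13 : (ρ + r) * (w * P ^ 2 / R) ≤ (ρ + 2) * (w * P) :=
      mul_le_mul (by linarith) h9 h9' (by linarith)
    rw [h10]
    nlinarith
  calc χ θ * (ρ + r) * (w * R) = χ θ * ((ρ + r) * (w * R)) := by ring
    _ ≤ χ θ * (1 * (ρ + r) * A + (1 * r + 0) * (A + (ρ + r) * Ar - Bt) +
      2 * (ρ + 2) * (w * P)) := mul_le_mul_of_nonneg_left h11 hc
    _ = _ := by ring

/-- the pointwise inequality at `r ≥ 2` with the weight `2` -/
theorem pt2 (hL : SpecLGO) (hP : SpecPWI) (hS : Sup h h1 h2) (hI : Ins p h) {χ : ℝ → ℝ}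
    (hχ : ∀ θ, 0 ≤ χ θ) (θ r : ℝ) (hr : 2 ≤ r) :
    0 ≤ gg p h h1 h2 χ 0 2 θ r + χ θ * (h θ + h2 θ) * wP p h h1 θ r := by
  have hr0 : 0 < r := by linarith
  obtain ⟨Ar, Bt, h3, h4, h5⟩ := hP p h h1 h2 hS hI θ r hr0
  have hP0 := (hL p h h1 h2 hS hI θ r hr0).2.1
  have hR0 : 0 < RR p h h1 θ r := lt_of_lt_of_le hP0 (P_le_R θ r)
  have hPR := P_le_R (p := p) (h := h) (h1 := h1) θ r
  have hw := wt_nonneg (p := p) (ZZ h h1 θ r)
  have hρ := hS.nn θ
  have hc := hχ θ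
  unfold gg wP
  rw [h3.deriv, h4.deriv]
  set w := wt p (ZZ h h1 θ r) with hwdef
  set P := PP p h h1 θ r with hPdef
  set R := RR p h h1 θ r with hRdef
  set A := AA p h h1 θ r with hAdef
  set ρ := h θ + h2 θ with hρdef
  have h9 : w * P ^ 2 / R ≤ w * P := by
    rw [div_le_iff₀ hR0]
    nlinarith [mul_nonneg hw hP0.le]
  have h9' : 0 ≤ w * P ^ 2 / R := by positivity
  have h10 : ρ / r ≤ ρ / 2 := div_le_div_of_nonneg_left hρ (by norm_num) hr
  have h10' : 0 ≤ ρ / r := by positivity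
  have h11 : w * P ^ 2 / R * (ρ / r) ≤ w * P * (ρ / 2) :=
    mul_le_mul h9 h10 h10' (mul_nonneg hw hP0.le)
  have h12 : 0 ≤ 0 * (ρ + r) * A + (0 * r + 2) * (A + (ρ + r) * Ar - Bt) + ρ * (w * P) := by
    nlinarith
  calc (0 : ℝ) ≤ χ θ * (0 * (ρ + r) * A + (0 * r + 2) * (A + (ρ + r) * Ar - Bt) + ρ * (w * P)) :=
        mul_nonneg hc h12
    _ = _ := by ring

/-- `|B| ≤ w P` -/
theorem B_le (hL : SpecLGO) (hS : Sup h h1 h2) (hI : Ins p h) (θ r : ℝ) (hr : 0 < r) :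
    |BB p h h1 θ r| ≤ wP p h h1 θ r := by
  have hP0 := (hL p h h1 h2 hS hI θ r hr).2.1
  have hR0 : 0 < RR p h h1 θ r := lt_of_lt_of_le hP0 (P_le_R θ r)
  have hQ := Q_le_R (p := p) (h := h) (h1 := h1) θ r
  have hw := wt_nonneg (p := p) (ZZ h h1 θ r)
  unfold BB wP
  rw [abs_div, abs_of_pos hR0, div_le_iff₀ hR0, abs_mul, abs_mul, abs_of_nonneg hw,
    abs_of_pos hP0]
  calc wt p (ZZ h h1 θ r) * |QQ p h h1 θ r| * PP p h h1 θ r
      = wt p (ZZ h h1 θ r) * PP p h h1 θ r * |QQ p h h1 θ r| := by ring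
    _ ≤ wt p (ZZ h h1 θ r) * PP p h h1 θ r * RR p h h1 θ r :=
        mul_le_mul_of_nonneg_left hQ (mul_nonneg hw hP0.le)

theorem term_le (hL : SpecLGO) (hS : Sup h h1 h2) (hI : Ins p h) (θ r c v : ℝ) (hr : 0 < r)
    (hv0 : 0 ≤ v) (hv : v ≤ 2) : c * v * BB p h h1 θ r ≤ 2 * |c| * wP p h h1 θ r := by
  have h3 := B_le hL hS hI θ r hr
  calc c * v * BB p h h1 θ r ≤ |c * v * BB p h h1 θ r| := le_abs_self _
    _ = |c| * v * |BB p h h1 θ r| := by rw [abs_mul, abs_mul, abs_of_nonneg hv0]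
    _ ≤ |c| * 2 * wP p h h1 θ r :=
        mul_le_mul (mul_le_mul_of_nonneg_left hv (abs_nonneg c)) h3 (abs_nonneg _) (by positivity)
    _ = 2 * |c| * wP p h h1 θ r := by ring

/-- the inequality on one ray -/
theorem ray1 (hL : SpecLGO) (hM : SpecSMT) (hP : SpecPWI) (hR : SpecRAD) (hS : Sup h h1 h2)
    (hI : Ins p h) {χ : ℝ → ℝ} (hχ : ∀ θ, 0 ≤ χ θ) (hc : Continuous χ) (θ ε Y : ℝ) (hε : 0 < ε)
    (hε2 : ε < 2) (hY : 2 < Y) :
    ∫ r in ε..2, χ θ * (h θ + h2 θ + r) * sph p (ZZ h h1 θ r) ≤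
      ((∫ r in ε..2, gg p h h1 h2 χ 1 0 θ r) + ∫ r in (2 : ℝ)..Y, gg p h h1 h2 χ 0 2 θ r) +
      χ θ * (Real.pi * (h θ + h2 θ + 2) + Real.pi / 2 * (h θ + h2 θ)) := by
  have i1 : IntervalIntegrable (gg p h h1 h2 χ 1 0 θ) volume ε 2 :=
    int_right (F := gg p h h1 h2 χ 1 0) (cont_gg hM hS hI hc 1 0) θ hε hε2.le
  have i2 : IntervalIntegrable (gg p h h1 h2 χ 0 2 θ) volume 2 Y :=
    int_right (F := gg p h h1 h2 χ 0 2) (cont_gg hM hS hI hc 0 2) θ two_pos hY.le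
  have j1 : IntervalIntegrable (wP p h h1 θ) volume ε 2 :=
    int_right (F := wP p h h1) (cont_wP hL hS hI) θ hε hε2.le
  have j2 : IntervalIntegrable (wP p h h1 θ) volume 2 Y :=
    int_right (F := wP p h h1) (cont_wP hL hS hI) θ two_pos hY.le
  have k1 : IntervalIntegrable (fun r => χ θ * (h θ + h2 θ + r) * sph p (ZZ h h1 θ r))
      volume ε 2 := by
    apply Continuous.intervalIntegrable
    have c0 := cont_sph (p := p) hS
    have c1 : Continuous (fun r : ℝ => sph p (ZZ h h1 θ r)) :=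
      c0.comp (by fun_prop : Continuous (fun r : ℝ => ((θ, r) : ℝ × ℝ)))
    fun_prop
  have r1 : ∫ r in ε..2, wP p h h1 θ r ≤ Real.pi / 2 := hR p h h1 h2 hS hI θ ε 2 hε hε2.le
  have r2 : ∫ r in (2 : ℝ)..Y, wP p h h1 θ r ≤ Real.pi / 2 :=
    hR p h h1 h2 hS hI θ 2 Y two_pos hY.le
  have hρ := hS.nn θ
  have hc0 := hχ θ
  have e1 : ∫ r in ε..2, χ θ * (h θ + h2 θ + r) * sph p (ZZ h h1 θ r) ≤
      ∫ r in ε..2, (gg p h h1 h2 χ 1 0 θ r + 2 * χ θ * (h θ + h2 θ + 2) * wP p h h1 θ r) := by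
    refine intervalIntegral.integral_mono_on hε2.le k1 (i1.add (j1.const_mul _)) (fun r hr => ?_)
    exact pt1 hL hP hS hI hχ θ r (lt_of_lt_of_le hε hr.1) hr.2
  rw [intervalIntegral.integral_add i1 (j1.const_mul _), intervalIntegral.integral_const_mul] at e1
  have e2 : 0 ≤ ∫ r in (2 : ℝ)..Y, (gg p h h1 h2 χ 0 2 θ r +
      χ θ * (h θ + h2 θ) * wP p h h1 θ r) := by
    refine intervalIntegral.integral_nonneg hY.le (fun r hr => ?_)
    exact pt2 hL hP hS hI hχ θ r hr.1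
  rw [intervalIntegral.integral_add i2 (j2.const_mul _), intervalIntegral.integral_const_mul] at e2
  have e3 : 2 * χ θ * (h θ + h2 θ + 2) * ∫ r in ε..2, wP p h h1 θ r ≤
      2 * χ θ * (h θ + h2 θ + 2) * (Real.pi / 2) :=
    mul_le_mul_of_nonneg_left r1 (mul_nonneg (by positivity) (by linarith))
  have e4 : χ θ * (h θ + h2 θ) * ∫ r in (2 : ℝ)..Y, wP p h h1 θ r ≤
      χ θ * (h θ + h2 θ) * (Real.pi / 2) :=
    mul_le_mul_of_nonneg_left r2 (mul_nonneg hc0 hρ)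
  linarith

theorem ray2 (hL : SpecLGO) (hM : SpecSMT) (hR : SpecRAD) (hS : Sup h h1 h2)
    (hI : Ins p h) (c : ℝ) (θ ε Y : ℝ) (hε : 0 < ε) (hε2 : ε < 2) (hY : 2 < Y) :
    (∫ r in ε..2, c * (1 * r + 0) * BB p h h1 θ r) +
      (∫ r in (2 : ℝ)..Y, c * (0 * r + 2) * BB p h h1 θ r) ≤ Real.pi * |c| := by
  obtain ⟨hA, hB⟩ := hM p h h1 h2 hS hI
  have cB : ContinuousOn (fun q : ℝ × ℝ => BB p h h1 q.1 q.2) U := hB.continuousOn
  have j1 : IntervalIntegrable (wP p h h1 θ) volume ε 2 :=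
    int_right (F := wP p h h1) (cont_wP hL hS hI) θ hε hε2.le
  have j2 : IntervalIntegrable (wP p h h1 θ) volume 2 Y :=
    int_right (F := wP p h h1) (cont_wP hL hS hI) θ two_pos hY.le
  have b1 : IntervalIntegrable (fun r => c * (1 * r + 0) * BB p h h1 θ r) volume ε 2 := by
    refine int_right (F := fun θ r => c * (1 * r + 0) * BB p h h1 θ r) ?_ θ hε hε2.le
    refine ContinuousOn.mul ?_ cB
    apply Continuous.continuousOn
    fun_prop
  have b2 : IntervalIntegrable (fun r => c * (0 * r + 2) * BB p h h1 θ r) volume 2 Y := by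
    refine int_right (F := fun θ r => c * (0 * r + 2) * BB p h h1 θ r) ?_ θ two_pos hY.le
    refine ContinuousOn.mul ?_ cB
    apply Continuous.continuousOn
    fun_prop
  have e1 : ∫ r in ε..2, c * (1 * r + 0) * BB p h h1 θ r ≤
      ∫ r in ε..2, 2 * |c| * wP p h h1 θ r := by
    refine intervalIntegral.integral_mono_on hε2.le b1 (j1.const_mul _) (fun r hr => ?_)
    exact term_le hL hS hI θ r c (1 * r + 0) (lt_of_lt_of_le hε hr.1)
      (by linarith [hr.1]) (by linarith [hr.2])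
  have e2 : ∫ r in (2 : ℝ)..Y, c * (0 * r + 2) * BB p h h1 θ r ≤
      ∫ r in (2 : ℝ)..Y, 2 * |c| * wP p h h1 θ r := by
    refine intervalIntegral.integral_mono_on hY.le b2 (j2.const_mul _) (fun r hr => ?_)
    exact term_le hL hS hI θ r c (0 * r + 2) (by linarith [hr.1]) (by linarith) (by linarith)
  have e3 : (∫ r in ε..2, 2 * |c| * wP p h h1 θ r) + (∫ r in (2 : ℝ)..Y, 2 * |c| * wP p h h1 θ r) =
      2 * |c| * ∫ r in ε..Y, wP p h h1 θ r := by
    rw [intervalIntegral.integral_const_mul, intervalIntegral.integral_const_mul, ← mul_add,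
      intervalIntegral.integral_add_adjacent_intervals j1 j2]
  have r3 : ∫ r in ε..Y, wP p h h1 θ r ≤ Real.pi / 2 :=
    hR p h h1 h2 hS hI θ ε Y hε (by linarith)
  have e4 : 2 * |c| * ∫ r in ε..Y, wP p h h1 θ r ≤ 2 * |c| * (Real.pi / 2) :=
    mul_le_mul_of_nonneg_left r3 (by positivity)
  linarith

/-- the final computation with integrals over one period -/
theorem final {S G1 G2 E1 E2 B1 B2 q1 q3 c : ℝ → ℝ} (s : Continuous S) (g1 : Continuous G1)
    (g2 : Continuous G2) (e1 : Continuous E1) (e2 : Continuous E2) (b1 : Continuous B1)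
    (b2 : Continuous B2) (hq1 : Continuous q1) (hq3 : Continuous q3) (hc : Continuous c)
    {b : ℝ} (hb : 0 ≤ b)
    (k1 : ∫ θ in (0 : ℝ)..b, G1 θ = (∫ θ in (0 : ℝ)..b, E1 θ) + ∫ θ in (0 : ℝ)..b, B1 θ)
    (k2 : ∫ θ in (0 : ℝ)..b, G2 θ = (∫ θ in (0 : ℝ)..b, E2 θ) + ∫ θ in (0 : ℝ)..b, B2 θ)
    (m1 : ∀ θ, S θ ≤ (G1 θ + G2 θ) + q1 θ)
    (m2 : ∀ θ, (E1 θ + B1 θ) + (E2 θ + B2 θ) ≤ c θ + q3 θ) :
    ∫ θ in (0 : ℝ)..b, S θ ≤ (∫ θ in (0 : ℝ)..b, (q1 θ + c θ)) + ∫ θ in (0 : ℝ)..b, q3 θ := by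
  have f1 : ∫ θ in (0 : ℝ)..b, S θ ≤ ∫ θ in (0 : ℝ)..b, ((G1 θ + G2 θ) + q1 θ) :=
    intervalIntegral.integral_mono_on hb (s.intervalIntegrable _ _)
      (((g1.add g2).add hq1).intervalIntegrable _ _) (fun θ _ => m1 θ)
  rw [intervalIntegral.integral_add (f := fun θ => G1 θ + G2 θ)
      ((g1.add g2).intervalIntegrable _ _) (hq1.intervalIntegrable _ _),
    intervalIntegral.integral_add (g1.intervalIntegrable _ _) (g2.intervalIntegrable _ _),
    k1, k2] at f1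
  have f2 : ∫ θ in (0 : ℝ)..b, ((E1 θ + B1 θ) + (E2 θ + B2 θ)) ≤
      ∫ θ in (0 : ℝ)..b, (c θ + q3 θ) :=
    intervalIntegral.integral_mono_on hb
      (((e1.add b1).add (e2.add b2)).intervalIntegrable _ _)
      ((hc.add hq3).intervalIntegrable _ _) (fun θ _ => m2 θ)
  rw [intervalIntegral.integral_add (f := fun θ => E1 θ + B1 θ) (g := fun θ => E2 θ + B2 θ)
      ((e1.add b1).intervalIntegrable _ _) ((e2.add b2).intervalIntegrable _ _),
    intervalIntegral.integral_add (e1.intervalIntegrable _ _) (b1.intervalIntegrable _ _),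
    intervalIntegral.integral_add (e2.intervalIntegrable _ _) (b2.intervalIntegrable _ _),
    intervalIntegral.integral_add (hc.intervalIntegrable _ _) (hq3.intervalIntegrable _ _)] at f2
  rw [intervalIntegral.integral_add (hq1.intervalIntegrable _ _) (hc.intervalIntegrable _ _)]
  linarith

end BOXM

open BOXM in
theorem specBOX (hL : SpecLGO) (hM : SpecSMT) (hP : SpecPWI) (hR : SpecRAD) (hK : SpecSTK) :
    SpecBOX := by
  intro p h h1 h2 hS hI M χ χ' hC ε Y hε hε2 hY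
  have hc : Continuous χ := continuous_iff_continuousAt.2 fun θ => (hC.d θ).continuousAt
  have hc' : Continuous χ' := hC.cont
  have c0 : Continuous h := continuous_iff_continuousAt.2 fun θ => (hS.d1 θ).continuousAt
  have c2 : Continuous h2 := hS.cont
  obtain ⟨hA, hB⟩ := hM p h h1 h2 hS hI
  have cA : ContinuousOn (fun q : ℝ × ℝ => AA p h h1 q.1 q.2) U := hA.continuousOn
  have cB : ContinuousOn (fun q : ℝ × ℝ => BB p h h1 q.1 q.2) U := hB.continuousOn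
  have k1 := hK p h h1 h2 hS hI M χ χ' hC 1 0 ε 2 hε hε2.le
  have k2 := hK p h h1 h2 hS hI M χ χ' hC 0 2 2 Y two_pos hY.le
  change ∫ θ in (0 : ℝ)..(2 * Real.pi), ∫ r in ε..2, gg p h h1 h2 χ 1 0 θ r = _ at k1
  change ∫ θ in (0 : ℝ)..(2 * Real.pi), ∫ r in (2 : ℝ)..Y, gg p h h1 h2 χ 0 2 θ r = _ at k2
  have hpi : (0 : ℝ) ≤ 2 * Real.pi := by positivity
  -- continuity in `θ`
  have a1 : Continuous (fun θ => AA p h h1 θ 2) := cont_left (F := AA p h h1) cA two_pos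
  have a2 : Continuous (fun θ => AA p h h1 θ ε) := cont_left (F := AA p h h1) cA hε
  have a3 : Continuous (fun θ => AA p h h1 θ Y) :=
    cont_left (F := AA p h h1) cA (by linarith)
  have g1 : Continuous (fun θ => ∫ r in ε..2, gg p h h1 h2 χ 1 0 θ r) :=
    cont_int (F := gg p h h1 h2 χ 1 0) (cont_gg hM hS hI hc 1 0) hε hε2.le
  have g2 : Continuous (fun θ => ∫ r in (2 : ℝ)..Y, gg p h h1 h2 χ 0 2 θ r) :=
    cont_int (F := gg p h h1 h2 χ 0 2) (cont_gg hM hS hI hc 0 2) two_pos hY.le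
  have s1 : Continuous (fun θ => ∫ r in ε..2, χ θ * (h θ + h2 θ + r) * sph p (ZZ h h1 θ r)) := by
    refine cont_int (F := fun θ r => χ θ * (h θ + h2 θ + r) * sph p (ZZ h h1 θ r)) ?_ hε hε2.le
    have c3 := cont_sph (p := p) hS
    apply Continuous.continuousOn
    fun_prop
  have b1 : Continuous (fun θ => ∫ r in ε..2, χ' θ * (1 * r + 0) * BB p h h1 θ r) := by
    refine cont_int (F := fun θ r => χ' θ * (1 * r + 0) * BB p h h1 θ r) ?_ hε hε2.le
    refine ContinuousOn.mul ?_ cB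
    apply Continuous.continuousOn
    fun_prop
  have b2 : Continuous (fun θ => ∫ r in (2 : ℝ)..Y, χ' θ * (0 * r + 2) * BB p h h1 θ r) := by
    refine cont_int (F := fun θ r => χ' θ * (0 * r + 2) * BB p h h1 θ r) ?_ two_pos hY.le
    refine ContinuousOn.mul ?_ cB
    apply Continuous.continuousOn
    fun_prop
  have e1 : Continuous (fun θ => χ θ * ((1 * 2 + 0) * (h θ + h2 θ + 2) * AA p h h1 θ 2 -
      (1 * ε + 0) * (h θ + h2 θ + ε) * AA p h h1 θ ε)) := by fun_prop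
  have e2 : Continuous (fun θ => χ θ * ((0 * Y + 2) * (h θ + h2 θ + Y) * AA p h h1 θ Y -
      (0 * 2 + 2) * (h θ + h2 θ + 2) * AA p h h1 θ 2)) := by fun_prop
  have q1 : Continuous (fun θ => χ θ * (Real.pi * (h θ + h2 θ + 2) +
      Real.pi / 2 * (h θ + h2 θ))) := by fun_prop
  have q3 : Continuous (fun θ => χ θ * (2 * (h θ + h2 θ + Y) * AA p h h1 θ Y)) := by fun_prop
  have q4 : Continuous (fun θ => Real.pi * |χ' θ|) := by fun_prop
  refine final s1 g1 g2 e1 e2 b1 b2 q1 q3 q4 hpi k1 k2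
    (fun θ => ray1 hL hM hP hR hS hI hC.nn hc θ ε Y hε hε2 hY) (fun θ => ?_)
  have r1 := ray2 hL hM hR hS hI (χ' θ) θ ε Y hε hε2 hY
  have r2 : 0 ≤ χ θ * ((1 * ε + 0) * (h θ + h2 θ + ε) * AA p h h1 θ ε) := by
    have hρ := hS.nn θ
    have hA0 := AA_nonneg (p := p) (h := h) (h1 := h1) θ ε
    have hc0 := hC.nn θ
    have hs : 0 ≤ h θ + h2 θ + ε := by linarith
    have ht : 0 ≤ 1 * ε + 0 := by linarith
    positivity
  linarith

end Pool.Agent.Lib.MP684ec1.CH
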