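import Pool.Agent.Lib.MP_684ec1_an.CH.Spec

/-!
Module CHV: change of variables in the exterior of a smooth convex set.
-/

set_option autoImplicit false

namespace Pool.Agent.Lib.MP684ec1.CH

open Complex Polynomial MeasureTheory intervalIntegral Set
open Pool.Agent.Lib.MP684ec1.HP

namespace CHVM

lemma norm_ee (θ : ℝ) : ‖ee θ‖ = 1 := by
  unfold ee
  exact Complex.norm_exp_ofReal_mul_I θ

lemma ee_re (θ : ℝ) : (ee θ).re = Real.cos θ := by
  unfold ee
  exact Complex.exp_ofReal_mul_I_re θ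

lemma ee_im (θ : ℝ) : (ee θ).im = Real.sin θ := by
  unfold ee
  exact Complex.exp_ofReal_mul_I_im θ

lemma cont_ee : Continuous ee := by
  unfold ee
  fun_prop

lemma ZZ_re (h h1 : ℝ → ℝ) (θ r : ℝ) :
    (ZZ h h1 θ r).re = (h θ + r) * Real.cos θ - h1 θ * Real.sin θ := by
  simp only [ZZ, gam, Complex.add_re, Complex.mul_re, Complex.ofReal_re, Complex.ofReal_im,
    Complex.I_re, Complex.I_im, Complex.add_im, Complex.mul_im, ee_re, ee_im]
  ring

lemma ZZ_im (h h1 : ℝ → ℝ) (θ r : ℝ) :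
    (ZZ h h1 θ r).im = (h θ + r) * Real.sin θ + h1 θ * Real.cos θ := by
  simp only [ZZ, gam, Complex.add_re, Complex.mul_re, Complex.ofReal_re, Complex.ofReal_im,
    Complex.I_re, Complex.I_im, Complex.add_im, Complex.mul_im, ee_re, ee_im]
  ring

lemma cont_gam {h h1 h2 : ℝ → ℝ} (hS : Sup h h1 h2) : Continuous (gam h h1) := by
  have c0 : Continuous h := continuous_iff_continuousAt.mpr fun θ => (hS.d1 θ).continuousAt
  have c1 : Continuous h1 := continuous_iff_continuousAt.mpr fun θ => (hS.d2 θ).continuousAt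
  unfold gam
  exact ((Complex.continuous_ofReal.comp c0).add
    ((Complex.continuous_ofReal.comp c1).mul continuous_const)).mul cont_ee

lemma cont_ZZ {h h1 h2 : ℝ → ℝ} (hS : Sup h h1 h2) :
    Continuous (fun q : ℝ × ℝ => ZZ h h1 q.1 q.2) := by
  unfold ZZ
  exact ((cont_gam hS).comp continuous_fst).add
    ((Complex.continuous_ofReal.comp continuous_snd).mul (cont_ee.comp continuous_fst))

/-- the map with values in the real plane -/
noncomputable def FF (h h1 : ℝ → ℝ) (q : ℝ × ℝ) : ℝ × ℝ :=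
  Complex.measurableEquivRealProd (ZZ h h1 q.1 q.2)

/-- its derivative -/
noncomputable def FD (h h2 : ℝ → ℝ) (q : ℝ × ℝ) : ℝ × ℝ →L[ℝ] ℝ × ℝ :=
  (Matrix.toLin (Module.Basis.finTwoProd ℝ) (Module.Basis.finTwoProd ℝ)
    !![-((h q.1 + h2 q.1 + q.2) * Real.sin q.1), Real.cos q.1;
      (h q.1 + h2 q.1 + q.2) * Real.cos q.1, Real.sin q.1]).toContinuousLinearMap

lemma hasFDerivAt_FF {h h1 h2 : ℝ → ℝ} (hS : Sup h h1 h2) (q : ℝ × ℝ) :
    HasFDerivAt (FF h h1) (FD h h2 q) q := by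
  have e0 : HasFDerivAt (fun p : ℝ × ℝ => h p.1) (h1 q.1 • ContinuousLinearMap.fst ℝ ℝ ℝ) q :=
    (hS.d1 q.1).comp_hasFDerivAt q hasFDerivAt_fst
  have e1 : HasFDerivAt (fun p : ℝ × ℝ => h1 p.1) (h2 q.1 • ContinuousLinearMap.fst ℝ ℝ ℝ) q :=
    (hS.d2 q.1).comp_hasFDerivAt q hasFDerivAt_fst
  have ec : HasFDerivAt (fun p : ℝ × ℝ => Real.cos p.1)
      ((-Real.sin q.1) • ContinuousLinearMap.fst ℝ ℝ ℝ) q :=
    (Real.hasDerivAt_cos q.1).comp_hasFDerivAt q hasFDerivAt_fst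
  have es : HasFDerivAt (fun p : ℝ × ℝ => Real.sin p.1)
      ((Real.cos q.1) • ContinuousLinearMap.fst ℝ ℝ ℝ) q :=
    (Real.hasDerivAt_sin q.1).comp_hasFDerivAt q hasFDerivAt_fst
  have er : HasFDerivAt (fun p : ℝ × ℝ => p.2) (ContinuousLinearMap.snd ℝ ℝ ℝ) q :=
    hasFDerivAt_snd
  have hX : HasFDerivAt (fun p : ℝ × ℝ => (h p.1 + p.2) * Real.cos p.1 - h1 p.1 * Real.sin p.1)
      _ q := ((e0.add er).mul ec).sub (e1.mul es)
  have hY : HasFDerivAt (fun p : ℝ × ℝ => (h p.1 + p.2) * Real.sin p.1 + h1 p.1 * Real.cos p.1)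
      _ q := ((e0.add er).mul es).add (e1.mul ec)
  have hXY := hX.prodMk hY
  have hfun : FF h h1 = fun p : ℝ × ℝ => ((h p.1 + p.2) * Real.cos p.1 - h1 p.1 * Real.sin p.1,
      (h p.1 + p.2) * Real.sin p.1 + h1 p.1 * Real.cos p.1) := by
    funext p
    unfold FF
    rw [Complex.measurableEquivRealProd_apply, ZZ_re, ZZ_im]
  rw [hfun]
  refine hXY.congr_fderiv ?_
  refine ContinuousLinearMap.ext fun v => ?_
  have hv : FD h h2 q v = (-((h q.1 + h2 q.1 + q.2) * Real.sin q.1) * v.1 + Real.cos q.1 * v.2,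
      (h q.1 + h2 q.1 + q.2) * Real.cos q.1 * v.1 + Real.sin q.1 * v.2) := by
    unfold FD
    exact Matrix.toLin_finTwoProd_apply _ _ _ _ _
  rw [hv]
  refine Prod.ext ?_ ?_
  · simp
    ring
  · simp
    ring

lemma det_FD (h h2 : ℝ → ℝ) (q : ℝ × ℝ) : (FD h h2 q).det = -(h q.1 + h2 q.1 + q.2) := by
  have h1 : (FD h h2 q).det = LinearMap.det (Matrix.toLin (Module.Basis.finTwoProd ℝ)
      (Module.Basis.finTwoProd ℝ)
      !![-((h q.1 + h2 q.1 + q.2) * Real.sin q.1), Real.cos q.1;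
      (h q.1 + h2 q.1 + q.2) * Real.cos q.1, Real.sin q.1]) := rfl
  rw [h1, LinearMap.det_toLin, Matrix.det_fin_two_of]
  have := Real.sin_sq_add_cos_sq q.1
  linear_combination (-(h q.1 + h2 q.1 + q.2)) * this

end CHVM

open CHVM in
theorem specCHV (hCOV : SpecCOV) (hINJ : SpecINJ) : SpecCHV := by
  intro h h1 h2 hS f χ k hf hf0 hχ hχ0 hχ1 hkK hk
  have c0 : Continuous h := continuous_iff_continuousAt.mpr fun θ => (hS.d1 θ).continuousAt
  have cg := cont_gam hS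
  have cZ := cont_ZZ hS
  set S : Set ℂ := {z : ℂ | ‖z‖ ≤ 1 ∧ z ∉ KK h} with hSdef
  set E : Set (ℝ × ℝ) := {q : ℝ × ℝ | q.1 ∈ Ico (0 : ℝ) (2 * Real.pi) ∧ q.2 ∈ Ioc (0 : ℝ) 2 ∧
    ‖gam h h1 q.1‖ ≤ 3} with hE
  set R : Set (ℝ × ℝ) := Icc (0 : ℝ) (2 * Real.pi) ×ˢ Icc (0 : ℝ) 2 with hR
  set e := Complex.measurableEquivRealProd with he
  set T : Set ℂ := e ⁻¹' (FF h h1 '' E) with hT
  have hEmeas : MeasurableSet E := by
    have m1 : MeasurableSet {q : ℝ × ℝ | q.1 ∈ Ico (0 : ℝ) (2 * Real.pi)} :=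
      measurable_fst measurableSet_Ico
    have m2 : MeasurableSet {q : ℝ × ℝ | q.2 ∈ Ioc (0 : ℝ) 2} :=
      measurable_snd measurableSet_Ioc
    have m3 : MeasurableSet {q : ℝ × ℝ | ‖gam h h1 q.1‖ ≤ 3} :=
      (isClosed_le (cg.comp continuous_fst).norm continuous_const).measurableSet
    exact m1.inter (m2.inter m3)
  have hER : E ⊆ R := by
    rintro q ⟨hq1, hq2, -⟩
    exact ⟨⟨hq1.1, hq1.2.le⟩, ⟨hq2.1.le, hq2.2⟩⟩
  have heF : ∀ q : ℝ × ℝ, e.symm (FF h h1 q) = ZZ h h1 q.1 q.2 := by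
    intro q
    unfold FF
    exact e.symm_apply_apply _
  -- the set on the left is covered
  have hST : S ⊆ T := by
    rintro z ⟨hz1, hz2⟩
    obtain ⟨θ, hθ, r, hr, hzr, hrk⟩ := hCOV h h1 h2 hS z hz2
    have hr2 : r ≤ 2 := by
      have h3 := hrk k hkK
      have h4 : ‖z - k‖ ≤ ‖z‖ + ‖k‖ := norm_sub_le z k
      linarith
    have hg3 : ‖gam h h1 θ‖ ≤ 3 := by
      have h3 : gam h h1 θ = z - (r : ℂ) * ee θ := by
        rw [hzr]
        unfold ZZ
        ring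
      rw [h3]
      have h4 : ‖z - (r : ℂ) * ee θ‖ ≤ ‖z‖ + ‖(r : ℂ) * ee θ‖ := norm_sub_le _ _
      have h5 : ‖(r : ℂ) * ee θ‖ = r := by
        rw [norm_mul, norm_ee, mul_one, Complex.norm_real, Real.norm_eq_abs, abs_of_pos hr]
      linarith
    refine ⟨(θ, r), ⟨hθ, ⟨hr, hr2⟩, hg3⟩, ?_⟩
    unfold FF
    simp only
    rw [← hzr]
  -- boundedness
  have hTball : T ⊆ Metric.closedBall (0 : ℂ) 5 := by
    rintro z ⟨q, ⟨hq1, hq2, hq3⟩, hq⟩
    have hz : z = ZZ h h1 q.1 q.2 := by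
      rw [← heF q, hq]
      exact (e.symm_apply_apply z).symm
    rw [mem_closedBall_zero_iff, hz]
    unfold ZZ
    have h4 : ‖gam h h1 q.1 + (q.2 : ℂ) * ee q.1‖ ≤ ‖gam h h1 q.1‖ + ‖(q.2 : ℂ) * ee q.1‖ :=
      norm_add_le _ _
    have h5 : ‖(q.2 : ℂ) * ee q.1‖ = q.2 := by
      rw [norm_mul, norm_ee, mul_one, Complex.norm_real, Real.norm_eq_abs, abs_of_pos hq2.1]
    have := hq2.2
    linarith
  have hfint : IntegrableOn f T :=
    (hf.continuousOn.integrableOn_compact (isCompact_closedBall (0 : ℂ) 5)).mono_set hTball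
  have step1 : ∫ z in S, f z ≤ ∫ z in T, f z :=
    setIntegral_mono_set hfint (Filter.Eventually.of_forall fun z => hf0 z) (ae_of_all _ hST)
  -- to the plane
  have step2 : ∫ z in T, f z = ∫ w in FF h h1 '' E, f (e.symm w) := by
    have h3 := Complex.volume_preserving_equiv_real_prod.setIntegral_preimage_emb
      Complex.measurableEquivRealProd.measurableEmbedding (fun w => f (e.symm w)) (FF h h1 '' E)
    rw [← h3]
    refine integral_congr_ae (ae_of_all _ fun z => ?_)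
    exact (congrArg f (e.symm_apply_apply z)).symm
  have hinj : InjOn (FF h h1) E := by
    rintro q ⟨hq1, hq2, -⟩ q' ⟨hq1', hq2', -⟩ hqq
    have h3 : ZZ h h1 q.1 q.2 = ZZ h h1 q'.1 q'.2 := by
      rw [← heF q, ← heF q', hqq]
    obtain ⟨h4, h5⟩ := hINJ h h1 h2 hS q.1 hq1 q'.1 hq1' q.2 q'.2 hq2.1 hq2'.1 h3
    exact Prod.ext h4 h5
  have step3 : ∫ w in FF h h1 '' E, f (e.symm w) =
      ∫ q in E, |(FD h h2 q).det| • f (e.symm (FF h h1 q)) :=
    integral_image_eq_integral_abs_det_fderiv_smul volume hEmeas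
      (fun q _ => (hasFDerivAt_FF hS q).hasFDerivWithinAt) hinj _
  set G : ℝ × ℝ → ℝ := fun q => χ q.1 * (h q.1 + h2 q.1 + q.2) * f (ZZ h h1 q.1 q.2) with hG
  have hGc : Continuous G := by
    rw [hG]
    exact ((hχ.comp continuous_fst).mul (((c0.comp continuous_fst).add
      (hS.cont.comp continuous_fst)).add continuous_snd)).mul (hf.comp cZ)
  have step4 : ∫ q in E, |(FD h h2 q).det| • f (e.symm (FF h h1 q)) = ∫ q in E, G q := by
    refine setIntegral_congr_fun hEmeas ?_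
    rintro q ⟨hq1, hq2, hq3⟩
    simp only [hG]
    rw [det_FD, heF, abs_neg, abs_of_nonneg (by have := hS.nn q.1; have := hq2.1; linarith),
      hχ1 q.1 hq3, one_mul, smul_eq_mul]
  have hGint : IntegrableOn G R :=
    hGc.continuousOn.integrableOn_compact (isCompact_Icc.prod isCompact_Icc)
  have step5 : ∫ q in E, G q ≤ ∫ q in R, G q := by
    refine setIntegral_mono_set hGint ?_ (ae_of_all _ hER)
    refine (ae_restrict_iff' (measurableSet_Icc.prod measurableSet_Icc)).mpr (ae_of_all _ ?_)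
    rintro q ⟨hq1, hq2⟩
    have h3 := hS.nn q.1
    have h4 := hq2.1
    exact mul_nonneg (mul_nonneg (hχ0 _) (by linarith)) (hf0 _)
  have step6 : ∫ q in R, G q = ∫ θ in Icc (0 : ℝ) (2 * Real.pi), ∫ r in Icc (0 : ℝ) 2, G (θ, r) := by
    rw [hR]
    exact setIntegral_prod G (by rw [← hR]; exact hGint)
  calc ∫ z in S, f z ≤ ∫ z in T, f z := step1
    _ = ∫ q in E, G q := by rw [step2, step3, step4]
    _ ≤ ∫ q in R, G q := step5
    _ = ∫ θ in Icc (0 : ℝ) (2 * Real.pi), ∫ r in Icc (0 : ℝ) 2, G (θ, r) := step6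
    _ = ∫ θ in (0 : ℝ)..(2 * Real.pi), ∫ r in (0 : ℝ)..2,
        χ θ * (h θ + h2 θ + r) * f (ZZ h h1 θ r) := by
      rw [integral_of_le (by positivity), integral_Icc_eq_integral_Ioc]
      refine setIntegral_congr_fun measurableSet_Ioc fun θ _ => ?_
      rw [integral_of_le (by norm_num), integral_Icc_eq_integral_Ioc]

end Pool.Agent.Lib.MP684ec1.CH
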