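import Pool.Agent.Lib.MP_684ec1_an.CH.Spec

set_option autoImplicit false

namespace Pool.Agent.Lib.MP684ec1.CH

open Complex Polynomial MeasureTheory intervalIntegral Set

namespace COVM

theorem ee_re (θ : ℝ) : (ee θ).re = Real.cos θ := by rw [ee, exp_ofReal_mul_I_re]

theorem ee_im (θ : ℝ) : (ee θ).im = Real.sin θ := by rw [ee, exp_ofReal_mul_I_im]

theorem re_formula (z : ℂ) (θ : ℝ) :
    (z * (starRingEnd ℂ) (ee θ)).re = z.re * Real.cos θ + z.im * Real.sin θ := by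
  rw [mul_re, conj_re, conj_im, ee_re, ee_im]; ring

theorem norm_ee (θ : ℝ) : ‖ee θ‖ = 1 := by rw [ee, norm_exp_ofReal_mul_I]

end COVM

open COVM in
theorem specCOV : SpecCOV := by
  intro h h1 h2 hS z hz
  have hz' : ∃ ψ, h ψ < (z * (starRingEnd ℂ) (ee ψ)).re := by
    by_contra hc
    push Not at hc
    exact hz hc
  obtain ⟨ψ0, hψ0⟩ := hz'
  rw [re_formula] at hψ0
  obtain ⟨F, hF⟩ : ∃ F : ℝ → ℝ, F = fun ψ => z.re * Real.cos ψ + z.im * Real.sin ψ - h ψ := ⟨_, rfl⟩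
  have hFd : ∀ θ, HasDerivAt F (z.re * (-Real.sin θ) + z.im * Real.cos θ - h1 θ) θ := by
    intro θ
    rw [hF]
    exact (((Real.hasDerivAt_cos θ).const_mul z.re).add ((Real.hasDerivAt_sin θ).const_mul z.im)).sub
      (hS.d1 θ)
  have hFc : Continuous F := continuous_iff_continuousAt.mpr fun θ => (hFd θ).continuousAt
  have hFp : Function.Periodic F (2 * Real.pi) := by
    intro ψ
    simp only [hF, Real.cos_add_two_pi, Real.sin_add_two_pi, hS.per]
  have hpi : (0 : ℝ) < 2 * Real.pi := by positivity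
  obtain ⟨θ1, hθ1, hmax1⟩ := isCompact_Icc.exists_isMaxOn (Set.nonempty_Icc.mpr hpi.le)
    hFc.continuousOn
  obtain ⟨θ, hθ, hθe⟩ := hFp.exists_mem_Ico₀ hpi θ1
  have hmax : ∀ ψ, F ψ ≤ F θ := by
    intro ψ
    obtain ⟨y, hy, hye⟩ := hFp.exists_mem_Ico₀ hpi ψ
    rw [hye, ← hθe]
    exact hmax1 ⟨hy.1, hy.2.le⟩
  have hd0 : z.re * (-Real.sin θ) + z.im * Real.cos θ - h1 θ = 0 :=
    IsLocalMax.hasDerivAt_eq_zero (Filter.Eventually.of_forall fun ψ => hmax ψ) (hFd θ)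
  have hr : 0 < F θ := by
    refine lt_of_lt_of_le ?_ (hmax ψ0)
    rw [hF]
    show 0 < z.re * Real.cos ψ0 + z.im * Real.sin ψ0 - h ψ0
    linarith
  have hFθ : F θ = z.re * Real.cos θ + z.im * Real.sin θ - h θ := by rw [hF]
  have hcs := Real.cos_sq_add_sin_sq θ
  refine ⟨θ, hθ, F θ, hr, ?_, ?_⟩
  · apply Complex.ext
    · simp only [ZZ, gam, add_re, mul_re, ofReal_re, ofReal_im, I_re, I_im, add_im, mul_im, ee_re, ee_im]
      rw [hFθ]
      linear_combination (-z.re) * hcs - Real.sin θ * hd0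
    · simp only [ZZ, gam, add_re, mul_re, ofReal_re, ofReal_im, I_re, I_im, add_im, mul_im, ee_re, ee_im]
      rw [hFθ]
      linear_combination (-z.im) * hcs + Real.cos θ * hd0
  · intro k hk
    have hkθ := hk θ
    have e1 : F θ ≤ ((z - k) * (starRingEnd ℂ) (ee θ)).re := by
      rw [sub_mul, sub_re, re_formula z, hFθ]
      linarith
    refine e1.trans ((re_le_norm _).trans ?_)
    rw [norm_mul, RCLike.norm_conj, norm_ee, mul_one]

end Pool.Agent.Lib.MP684ec1.CH
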