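import Pool.Agent.Lib.MP_684ec1_an.CH.Spec

/-!
# MP_684ec1, the convex hull: module CUT, the cutoff function
-/

set_option autoImplicit false

namespace Pool.Agent.Lib.MP684ec1.CH

open Complex Polynomial MeasureTheory intervalIntegral Set
open Pool.Agent.Lib.MP684ec1.HP

noncomputable section

namespace CUTM

/-- the bump function with the radii `3`, `4` -/
def bump : ContDiffBump (0 : ℂ) := ⟨3, 4, by norm_num, by norm_num⟩

lemma bump_cd : ContDiff ℝ 1 (bump : ℂ → ℝ) := bump.contDiff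

lemma bump_bd : ∃ M : ℝ, 0 < M ∧ ∀ z : ℂ, ‖fderiv ℝ (bump : ℂ → ℝ) z‖ ≤ M := by
  have h1 : HasCompactSupport (bump : ℂ → ℝ) := bump.hasCompactSupport
  have h2 : HasCompactSupport (fderiv ℝ (bump : ℂ → ℝ)) := h1.fderiv ℝ
  have h3 : Continuous (fderiv ℝ (bump : ℂ → ℝ)) := bump_cd.continuous_fderiv (by norm_num)
  obtain ⟨C, hC⟩ := h2.exists_bound_of_continuous h3
  exact ⟨max C 1, lt_of_lt_of_le one_pos (le_max_right _ _), fun z => (hC z).trans (le_max_left _ _)⟩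

lemma hasDerivAt_ee (θ : ℝ) : HasDerivAt ee (I * ee θ) θ := by
  have h1 : HasDerivAt (fun t : ℝ => (t : ℂ) * I) I θ := by
    have h2 : HasDerivAt (fun t : ℝ => (t : ℂ)) 1 θ := HasDerivAt.ofReal_comp (hasDerivAt_id θ)
    simpa using h2.mul_const I
  have h3 := h1.cexp
  unfold ee
  rw [mul_comm I]
  exact h3

lemma norm_ee (θ : ℝ) : ‖ee θ‖ = 1 := by
  unfold ee
  exact norm_exp_ofReal_mul_I θ

lemma ee_per (θ : ℝ) : ee (θ + 2 * Real.pi) = ee θ := by
  unfold ee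
  have h1 : ((θ + 2 * Real.pi : ℝ) : ℂ) * I = (θ : ℂ) * I + 2 * (Real.pi : ℂ) * I := by
    push_cast; ring
  rw [h1, exp_periodic]

lemma hasDerivAt_gam {h h1 h2 : ℝ → ℝ} (hs : Sup h h1 h2) (θ : ℝ) :
    HasDerivAt (gam h h1) (((h θ + h2 θ : ℝ) : ℂ) * (I * ee θ)) θ := by
  have e1 : HasDerivAt (fun t : ℝ => ((h t : ℝ) : ℂ)) ((h1 θ : ℝ) : ℂ) θ := (hs.d1 θ).ofReal_comp
  have e2 : HasDerivAt (fun t : ℝ => ((h1 t : ℝ) : ℂ)) ((h2 θ : ℝ) : ℂ) θ := (hs.d2 θ).ofReal_comp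
  have e3 := (e1.add (e2.mul_const I)).mul (hasDerivAt_ee θ)
  unfold gam
  refine e3.congr_deriv ?_
  have hI : I * I = -1 := I_mul_I
  simp only [Pi.add_apply]
  push_cast
  linear_combination (h1 θ : ℂ) * ee θ * hI

lemma continuous_ee : Continuous ee := continuous_iff_continuousAt.2 fun θ => (hasDerivAt_ee θ).continuousAt

lemma continuous_h {h h1 h2 : ℝ → ℝ} (hs : Sup h h1 h2) : Continuous h :=
  continuous_iff_continuousAt.2 fun θ => (hs.d1 θ).continuousAt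

lemma continuous_gam {h h1 h2 : ℝ → ℝ} (hs : Sup h h1 h2) : Continuous (gam h h1) :=
  continuous_iff_continuousAt.2 fun θ => (hasDerivAt_gam hs θ).continuousAt

/-- the derivative of the cutoff function -/
def dchi (h h1 h2 : ℝ → ℝ) (θ : ℝ) : ℝ :=
  fderiv ℝ (bump : ℂ → ℝ) (gam h h1 θ) (((h θ + h2 θ : ℝ) : ℂ) * (I * ee θ))

lemma hasDerivAt_chi {h h1 h2 : ℝ → ℝ} (hs : Sup h h1 h2) (θ : ℝ) :
    HasDerivAt (fun t => bump (gam h h1 t)) (dchi h h1 h2 θ) θ := by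
  have h3 : HasFDerivAt (bump : ℂ → ℝ) (fderiv ℝ (bump : ℂ → ℝ) (gam h h1 θ)) (gam h h1 θ) :=
    ((bump_cd.differentiable (by norm_num)) _).hasFDerivAt
  exact h3.comp_hasDerivAt θ (hasDerivAt_gam hs θ)

lemma continuous_dchi {h h1 h2 : ℝ → ℝ} (hs : Sup h h1 h2) : Continuous (dchi h h1 h2) := by
  have h3 : Continuous (fderiv ℝ (bump : ℂ → ℝ)) := bump_cd.continuous_fderiv (by norm_num)
  have h4 : Continuous fun θ => ((h θ + h2 θ : ℝ) : ℂ) * (I * ee θ) :=
    (continuous_ofReal.comp ((continuous_h hs).add hs.cont)).mul (continuous_const.mul continuous_ee)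
  exact (h3.comp (continuous_gam hs)).clm_apply h4

end CUTM

open CUTM in
/-- Module CUT. -/
theorem specCUT : SpecCUT := by
  obtain ⟨M, hM, hb⟩ := bump_bd
  refine ⟨M, hM, fun h h1 h2 hs => ⟨fun t => bump (gam h h1 t), dchi h h1 h2, ?_⟩⟩
  have hper : ∀ θ, gam h h1 (θ + 2 * Real.pi) = gam h h1 θ := fun θ => by
    unfold gam
    rw [hs.per, hs.per1, ee_per]
  refine ⟨hasDerivAt_chi hs, continuous_dchi hs, fun θ => ?_, fun θ => bump.nonneg, fun θ => bump.le_one,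
    fun θ hθ => ?_, fun θ hθ => ?_, fun θ hθ => ?_, fun θ => ?_⟩
  · show bump (gam h h1 (θ + 2 * Real.pi)) = bump (gam h h1 θ)
    rw [hper]
  · apply bump.one_of_mem_closedBall
    rw [mem_closedBall_zero_iff]
    exact hθ
  · have h3 : gam h h1 θ ∈ Function.support (bump : ℂ → ℝ) := hθ
    rw [bump.support_eq, mem_ball_zero_iff] at h3
    exact h3.le
  · have h3 : gam h h1 θ ∈ Function.support (fderiv ℝ (bump : ℂ → ℝ)) := by
      intro h4
      apply hθ
      unfold dchi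
      rw [h4]
      rfl
    have h4 := support_fderiv_subset ℝ h3
    rw [bump.tsupport_eq, mem_closedBall_zero_iff] at h4
    exact h4
  · unfold dchi
    have h3 := (fderiv ℝ (bump : ℂ → ℝ) (gam h h1 θ)).le_opNorm (((h θ + h2 θ : ℝ) : ℂ) * (I * ee θ))
    rw [Real.norm_eq_abs] at h3
    refine h3.trans ?_
    rw [norm_mul, norm_mul, norm_I, norm_ee, mul_one, mul_one, norm_real, Real.norm_eq_abs,
      abs_of_nonneg (hs.nn θ)]
    exact mul_le_mul_of_nonneg_right (hb _) (hs.nn θ)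

end

end Pool.Agent.Lib.MP684ec1.CH
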