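import Pool.Agent.Lib.MP_684ec1_an.CH.Spec

/-!
MP_684ec1, CH, module EXT: smooth convex sets which meet the disc.
-/

set_option autoImplicit false

namespace Pool.Agent.Lib.MP684ec1.CH

open Complex Polynomial MeasureTheory intervalIntegral Set Filter Topology
open Pool.Agent.Lib.MP684ec1.HP

namespace EXTM

lemma sph_cont (p : ℂ[X]) : Continuous (sph p) := by
  unfold sph
  refine Continuous.div (by fun_prop) (by fun_prop) fun z => ?_
  positivity

lemma sph_nn (p : ℂ[X]) (z : ℂ) : 0 ≤ sph p z := by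
  unfold sph; positivity

end EXTM

open EXTM in
theorem specEXT (hCHV : SpecCHV) (hLEN : SpecLEN) (hCUT : SpecCUT) (hTOT : SpecTOT) : SpecEXT := by
  obtain ⟨M, hM, hcut⟩ := hCUT
  have hpi : 0 < Real.pi := Real.pi_pos
  refine ⟨3 * Real.pi / 2 * 72 + 4 * Real.pi ^ 2 + Real.pi * M * 72, by positivity, ?_⟩
  intro p h h1 h2 hS hp hk
  obtain ⟨k, hk, hk1⟩ := hk
  obtain ⟨χ, χ', hC⟩ := hcut h h1 h2 hS
  have c0 : Continuous h := continuous_iff_continuousAt.2 fun θ => (hS.d1 θ).continuousAt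
  have cχ : Continuous χ := continuous_iff_continuousAt.2 fun θ => (hC.d θ).continuousAt
  have c2 := hS.cont
  have cχ' := hC.cont
  have s1 := hCHV h h1 h2 hS (sph p) χ k (sph_cont p) (sph_nn p) cχ hC.nn hC.one hk hk1
  have s2 := hTOT p h h1 h2 hS hp M χ χ' hC
  have l1 := hLEN h h1 h2 hS (fun θ => χ θ * (h θ + h2 θ)) (cχ.mul (c0.add c2))
    (fun θ => mul_nonneg (hC.nn θ) (hS.nn θ))
    (fun θ => mul_le_of_le_one_left (hS.nn θ) (hC.le θ))
    (fun θ hθ => hC.supp θ (left_ne_zero_of_mul hθ))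
  have l2 := hLEN h h1 h2 hS (fun θ => |χ' θ| / M) (cχ'.abs.div_const M)
    (fun θ => by positivity)
    (fun θ => by rw [div_le_iff₀ hM, mul_comm]; exact hC.bd θ)
    (fun θ hθ => hC.supp' θ (by
      intro h0
      apply hθ
      show |χ' θ| / M = 0
      rw [h0]; simp))
  have l3 : ∫ θ in (0 : ℝ)..(2 * Real.pi), χ θ ≤ 2 * Real.pi := by
    have e1 : ‖∫ θ in (0 : ℝ)..(2 * Real.pi), χ θ‖ ≤ 1 * |2 * Real.pi - 0| := by
      apply intervalIntegral.norm_integral_le_of_norm_le_const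
      intro θ _
      rw [Real.norm_eq_abs, abs_of_nonneg (hC.nn θ)]
      exact hC.le θ
    rw [sub_zero, abs_of_pos (by positivity), one_mul] at e1
    exact (le_abs_self _).trans e1
  have e1 : ∫ θ in (0 : ℝ)..(2 * Real.pi),
      χ θ * (Real.pi * (h θ + h2 θ + 2) + Real.pi / 2 * (h θ + h2 θ)) + Real.pi * |χ' θ| =
      (3 * Real.pi / 2 * ∫ θ in (0 : ℝ)..(2 * Real.pi), χ θ * (h θ + h2 θ)) +
      (2 * Real.pi * ∫ θ in (0 : ℝ)..(2 * Real.pi), χ θ) +
      Real.pi * M * ∫ θ in (0 : ℝ)..(2 * Real.pi), |χ' θ| / M := by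
    rw [← intervalIntegral.integral_const_mul, ← intervalIntegral.integral_const_mul,
      ← intervalIntegral.integral_const_mul, ← intervalIntegral.integral_add,
      ← intervalIntegral.integral_add]
    · refine intervalIntegral.integral_congr fun θ _ => ?_
      show χ θ * (Real.pi * (h θ + h2 θ + 2) + Real.pi / 2 * (h θ + h2 θ)) + Real.pi * |χ' θ| =
        3 * Real.pi / 2 * (χ θ * (h θ + h2 θ)) + 2 * Real.pi * χ θ + Real.pi * M * (|χ' θ| / M)
      field_simp
      ring
    · exact Continuous.intervalIntegrable (by fun_prop) _ _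
    · exact Continuous.intervalIntegrable (by fun_prop) _ _
    · exact Continuous.intervalIntegrable (by fun_prop) _ _
    · exact Continuous.intervalIntegrable (by fun_prop) _ _
  rw [e1] at s2
  refine s1.trans (s2.trans ?_)
  have m1 := mul_le_mul_of_nonneg_left l1 (by positivity : 0 ≤ 3 * Real.pi / 2)
  have m2 := mul_le_mul_of_nonneg_left l2 (by positivity : 0 ≤ Real.pi * M)
  have m3 := mul_le_mul_of_nonneg_left l3 (by positivity : 0 ≤ 2 * Real.pi)
  have m4 : 2 * Real.pi * (2 * Real.pi) = 4 * Real.pi ^ 2 := by ring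
  linarith

end Pool.Agent.Lib.MP684ec1.CH
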