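import Pool.Agent.Lib.MP_684ec1_an.CH.Spec

/-!
# MP_684ec1, module FAR: the hull does not meet the disc
-/

set_option autoImplicit false

namespace Pool.Agent.Lib.MP684ec1.CH

open Complex Polynomial MeasureTheory intervalIntegral Set
open Pool.Agent.Lib.MP684ec1.HP

namespace FARM

lemma rep (l : ℂ →L[ℝ] ℝ) (w : ℂ) : l w = w.re * l 1 + w.im * l I := by
  have h : w = (w.re : ℝ) • (1 : ℂ) + (w.im : ℝ) • I := by
    apply Complex.ext <;> simp
  conv_lhs => rw [h]
  rw [map_add, map_smul, map_smul, smul_eq_mul, smul_eq_mul]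

end FARM

theorem specFAR (hFIN : HP.SpecFIN) : SpecFAR := by
  intro p hdis hn
  have hp : p ≠ 0 := by
    rintro rfl
    simp at hn
  have hfin : {z : ℂ | p.eval z = 0}.Finite := by
    apply (p.roots.toFinset.finite_toSet).subset
    intro z hz
    rw [Finset.mem_coe, Multiset.mem_toFinset, mem_roots hp]
    exact hz
  have hK : IsCompact (convexHull ℝ {z : ℂ | p.eval z = 0}) := hfin.isCompact_convexHull ℝ
  obtain ⟨l, a, b, hl1, hab, hl2⟩ := geometric_hahn_banach_compact_closed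
    (convex_convexHull ℝ _) hK (convex_closedBall (0 : ℂ) 1) Metric.isClosed_closedBall hdis
  set v : ℂ := ⟨l 1, l I⟩ with hv
  have hre : ∀ w : ℂ, (w * (starRingEnd ℂ) v).re = l w := by
    intro w
    rw [FARM.rep l w, Complex.mul_re, Complex.conj_re, Complex.conj_im, hv]
    ring
  obtain ⟨ζ, hζ⟩ := Complex.exists_root (f := p) (natDegree_pos_iff_degree_pos.1 hn)
  have hζK : ζ ∈ convexHull ℝ {z : ℂ | p.eval z = 0} := subset_convexHull ℝ _ hζ
  have h0 : (0 : ℂ) ∈ Metric.closedBall (0 : ℂ) 1 := Metric.mem_closedBall_self zero_le_one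
  have hv0 : v ≠ 0 := by
    intro h
    have h1 := hl1 ζ hζK
    have h2 := hl2 0 h0
    have h3 := hre ζ
    have h4 := hre 0
    rw [h] at h3 h4
    simp at h3 h4
    rw [← h3] at h1
    rw [map_zero] at h2
    linarith
  have hn0 : 0 < ‖v‖ := norm_pos_iff.2 hv0
  have hn0' : (‖v‖ : ℂ) ≠ 0 := Complex.ofReal_ne_zero.2 hn0.ne'
  have hu : ‖v / ‖v‖‖ = 1 := by
    rw [norm_div, Complex.norm_real, norm_norm, div_self hn0.ne']
  have key : ∀ w : ℂ, (w * (starRingEnd ℂ) (v / ‖v‖)).re = l w / ‖v‖ := by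
    intro w
    rw [← hre w, map_div₀, Complex.conj_ofReal, ← mul_div_assoc, Complex.div_ofReal_re]
  have h := hFIN.1 p (v / ‖v‖) (a / ‖v‖) hu (by
    intro z hz
    rw [key]
    have := hl1 z (subset_convexHull ℝ _ hz)
    exact (div_lt_div_of_pos_right this hn0).le)
  have hset : {z : ℂ | ‖z‖ ≤ 1 ∧ a / ‖v‖ ≤ (z * (starRingEnd ℂ) (v / ‖v‖)).re} =
      Metric.closedBall (0 : ℂ) 1 := by
    ext z
    constructor
    · intro hz
      rw [Metric.mem_closedBall, dist_zero_right]
      exact hz.1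
    · intro hz
      refine ⟨by rwa [Metric.mem_closedBall, dist_zero_right] at hz, ?_⟩
      rw [key]
      have := hl2 z hz
      exact div_le_div_of_nonneg_right (by linarith) hn0.le
  rwa [hset] at h

end Pool.Agent.Lib.MP684ec1.CH
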