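import Pool.Agent.Lib.MP_684ec1_an.CH.Spec

/-!
# MP_684ec1, module FIN: the integral outside the convex hull of the zeros
-/

set_option autoImplicit false

namespace Pool.Agent.Lib.MP684ec1.CH

open Complex Polynomial MeasureTheory Set Filter Topology
open Pool.Agent.Lib.MP684ec1.HP

namespace FINM

lemma sph_nonneg (p : ℂ[X]) (z : ℂ) : 0 ≤ sph p z := by
  unfold sph
  positivity

lemma sph_cont (p : ℂ[X]) : Continuous (sph p) := by
  unfold sph
  refine Continuous.div ?_ ?_ ?_
  · exact p.derivative.continuous.norm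
  · exact continuous_const.add (p.continuous.norm.pow 2)
  · intro z
    positivity

/-- every point of the hull satisfies the inequalities of the support function -/
lemma hull_le (s : Finset ℂ) (hs : s.Nonempty) (z : ℂ) (hz : z ∈ convexHull ℝ (s : Set ℂ)) (θ : ℝ) :
    (z * (starRingEnd ℂ) (ee θ)).re ≤ HH s hs θ := by
  have hconv : Convex ℝ {w : ℂ | (w * (starRingEnd ℂ) (ee θ)).re ≤ HH s hs θ} := by
    intro x hx y hy a b ha hb hab
    have hx' : (x * (starRingEnd ℂ) (ee θ)).re ≤ HH s hs θ := hx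
    have hy' : (y * (starRingEnd ℂ) (ee θ)).re ≤ HH s hs θ := hy
    show ((a • x + b • y) * (starRingEnd ℂ) (ee θ)).re ≤ HH s hs θ
    have e : ((a • x + b • y) * (starRingEnd ℂ) (ee θ)).re =
        a * (x * (starRingEnd ℂ) (ee θ)).re + b * (y * (starRingEnd ℂ) (ee θ)).re := by
      rw [add_mul, Complex.add_re, smul_mul_assoc, smul_mul_assoc, Complex.real_smul, Complex.real_smul,
        Complex.re_ofReal_mul, Complex.re_ofReal_mul]
    rw [e]
    calc a * (x * (starRingEnd ℂ) (ee θ)).re + b * (y * (starRingEnd ℂ) (ee θ)).re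
        ≤ a * HH s hs θ + b * HH s hs θ :=
          add_le_add (mul_le_mul_of_nonneg_left hx' ha) (mul_le_mul_of_nonneg_left hy' hb)
      _ = HH s hs θ := by rw [← add_mul, hab, one_mul]
  have hsub : (s : Set ℂ) ⊆ {w : ℂ | (w * (starRingEnd ℂ) (ee θ)).re ≤ HH s hs θ} := by
    intro ζ hζ
    exact Finset.le_sup' (fun ζ : ℂ => (ζ * (starRingEnd ℂ) (ee θ)).re) (Finset.mem_coe.1 hζ)
  exact (convexHull_min hsub hconv) hz

lemma closed_KK (h : ℝ → ℝ) : IsClosed (KK h) := by
  have e : KK h = ⋂ θ : ℝ, {z : ℂ | (z * (starRingEnd ℂ) (ee θ)).re ≤ h θ} := by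
    ext z
    simp [KK]
  rw [e]
  refine isClosed_iInter fun θ => ?_
  exact isClosed_le (Complex.continuous_re.comp (continuous_id.mul continuous_const)) continuous_const

end FINM

open FINM

theorem specFIN (hEXT : SpecEXT) (hAPX : SpecAPX) (hSEP : SpecSEP) (hFAR : SpecFAR) : SpecFIN := by
  obtain ⟨C0, hC0, hE⟩ := hEXT
  have hpi := Real.pi_pos
  refine ⟨C0 + 6 * Real.pi, by positivity, ?_⟩
  intro p
  rcases Nat.eq_zero_or_pos p.natDegree with h0 | h0
  · obtain ⟨a, rfl⟩ := Polynomial.natDegree_eq_zero.1 h0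
    have e : ∀ z : ℂ, sph (C a) z = 0 := by
      intro z
      unfold sph
      rw [Polynomial.derivative_C]
      simp
    simp only [e, integral_zero]
    positivity
  have hp0 : p ≠ 0 := by
    rintro rfl
    simp at h0
  set D : Set ℂ := Metric.closedBall (0 : ℂ) 1 with hD
  have hcomp : IsCompact D := isCompact_closedBall (0 : ℂ) 1
  have hintD : IntegrableOn (sph p) D := (sph_cont p).continuousOn.integrableOn_compact hcomp
  by_cases hdis : Disjoint (convexHull ℝ {z : ℂ | p.eval z = 0}) D
  · have h1 := hFAR p hdis h0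
    have e : D \ convexHull ℝ {z : ℂ | p.eval z = 0} = D := by
      exact sdiff_eq_left.2 hdis.symm
    rw [e]
    linarith
  -- the finite set of the zeros
  have hroots : {z : ℂ | p.eval z = 0} = (p.roots.toFinset : Set ℂ) := by
    ext z
    simp [Polynomial.mem_roots hp0, Polynomial.IsRoot]
  rw [hroots] at hdis ⊢
  set s := p.roots.toFinset with hsdef
  obtain ⟨k, hk1, hk2⟩ := Set.not_disjoint_iff.1 hdis
  have hs : s.Nonempty := by
    by_contra hne
    rw [Finset.not_nonempty_iff_eq_empty] at hne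
    rw [hne] at hk1
    simp at hk1
  have hch : ∀ m : ℕ, ∃ h h1 h2 : ℝ → ℝ, Sup h h1 h2 ∧
      ∀ θ, HH s hs θ ≤ h θ ∧ h θ ≤ HH s hs θ + 1 / ((m : ℝ) + 1) := by
    intro m
    exact hAPX s hs (1 / ((m : ℝ) + 1)) (by positivity)
  choose h h1 h2 hSup hap using hch
  have hsub : ∀ m, convexHull ℝ (s : Set ℂ) ⊆ KK (h m) := by
    intro m z hz θ
    exact le_trans (hull_le s hs z hz θ) (hap m θ).1
  set S : ℕ → Set ℂ := fun m => {z : ℂ | ‖z‖ ≤ 1 ∧ z ∉ KK (h m)} with hS
  have hSsub : ∀ m, S m ⊆ D \ convexHull ℝ (s : Set ℂ) := by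
    rintro m z ⟨hz1, hz2⟩
    refine ⟨?_, fun hz => hz2 (hsub m hz)⟩
    rw [hD, Metric.mem_closedBall, dist_zero_right]
    exact hz1
  have hSm : ∀ m, MeasurableSet (S m) := by
    intro m
    have e : S m = D ∩ (KK (h m))ᶜ := by
      ext z
      simp only [hS, hD, Set.mem_ofPred_eq, Set.mem_inter_iff, Metric.mem_closedBall, dist_zero_right,
        Set.mem_compl_iff]
    rw [e]
    exact hcomp.measurableSet.inter (closed_KK (h m)).measurableSet.compl
  have hbound : ∀ m, ∫ z in S m, sph p z ≤ C0 := by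
    intro m
    refine hE p (h m) (h1 m) (h2 m) (hSup m) ⟨h0, ?_⟩ ⟨k, hsub m hk1, ?_⟩
    · intro z hz
      have hz' : z ∈ (s : Set ℂ) := by
        rw [← hroots]
        exact hz
      exact hsub m (subset_convexHull ℝ _ hz')
    · rw [hD, Metric.mem_closedBall, dist_zero_right] at hk2
      exact hk2
  have hKm : MeasurableSet (D \ convexHull ℝ (s : Set ℂ)) :=
    hcomp.measurableSet.diff (s.finite_toSet.isCompact_convexHull ℝ).measurableSet
  have hev : ∀ z ∈ D \ convexHull ℝ (s : Set ℂ), ∀ᶠ m in atTop, z ∈ S m := by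
    rintro z ⟨hz1, hz2⟩
    obtain ⟨θ, hθ⟩ := hSEP s hs z hz2
    obtain ⟨N, hN⟩ := exists_nat_one_div_lt (sub_pos.2 hθ)
    rw [eventually_atTop]
    refine ⟨N, fun m hm => ⟨?_, ?_⟩⟩
    · rw [hD, Metric.mem_closedBall, dist_zero_right] at hz1
      exact hz1
    · intro hK
      have h3 := hK θ
      have h4 := (hap m θ).2
      have h5 : 1 / ((m : ℝ) + 1) ≤ 1 / ((N : ℝ) + 1) := by
        apply one_div_le_one_div_of_le (by positivity)
        have : (N : ℝ) ≤ m := by exact_mod_cast hm
        linarith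
      linarith
  have hlim : Tendsto (fun m => ∫ z, (S m).indicator (sph p) z) atTop
      (𝓝 (∫ z, (D \ convexHull ℝ (s : Set ℂ)).indicator (sph p) z)) := by
    refine tendsto_integral_of_dominated_convergence (D.indicator (sph p)) ?_ ?_ ?_ ?_
    · intro m
      exact ((sph_cont p).aestronglyMeasurable.indicator (hSm m))
    · exact (integrable_indicator_iff hcomp.measurableSet).2 hintD
    · intro m
      refine Eventually.of_forall fun z => ?_
      rw [Real.norm_eq_abs, abs_of_nonneg (Set.indicator_nonneg (fun z _ => sph_nonneg p z) z)]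
      exact Set.indicator_le_indicator_of_subset ((hSsub m).trans Set.sdiff_subset)
        (fun z => sph_nonneg p z) z
    · refine Eventually.of_forall fun z => ?_
      by_cases hz : z ∈ D \ convexHull ℝ (s : Set ℂ)
      · have h6 : ∀ᶠ m in atTop, (S m).indicator (sph p) z =
            (D \ convexHull ℝ (s : Set ℂ)).indicator (sph p) z := by
          filter_upwards [hev z hz] with m hm
          rw [Set.indicator_of_mem hm, Set.indicator_of_mem hz]
        exact tendsto_const_nhds.congr' (h6.mono fun m hm => hm.symm)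
      · have h6 : ∀ m, (S m).indicator (sph p) z =
            (D \ convexHull ℝ (s : Set ℂ)).indicator (sph p) z := by
          intro m
          rw [Set.indicator_of_notMem (fun hm => hz (hSsub m hm)), Set.indicator_of_notMem hz]
        exact tendsto_const_nhds.congr (fun m => (h6 m).symm)
  have hle : (∫ z, (D \ convexHull ℝ (s : Set ℂ)).indicator (sph p) z) ≤ C0 := by
    refine le_of_tendsto' hlim fun m => ?_
    rw [integral_indicator (hSm m)]
    exact hbound m
  rw [integral_indicator hKm] at hle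
  have : (∫ z in D \ convexHull ℝ (s : Set ℂ), sph p z) ≤ C0 := hle
  linarith

end Pool.Agent.Lib.MP684ec1.CH
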