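import Pool.Agent.Lib.MP_684ec1_an.CH.Spec

/-! # Module INJ: the coordinates are unique. -/

set_option autoImplicit false

namespace Pool.Agent.Lib.MP684ec1.CH

open Complex Polynomial MeasureTheory intervalIntegral Set
open Pool.Agent.Lib.MP684ec1.HP

namespace INJM

lemma ee_re (θ : ℝ) : (ee θ).re = Real.cos θ := by
  unfold ee
  exact Complex.exp_ofReal_mul_I_re θ

lemma ee_im (θ : ℝ) : (ee θ).im = Real.sin θ := by
  unfold ee
  exact Complex.exp_ofReal_mul_I_im θ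

lemma re_ZZ (h h1 : ℝ → ℝ) (θ r ψ : ℝ) :
    (ZZ h h1 θ r * (starRingEnd ℂ) (ee ψ)).re =
      (gam h h1 θ * (starRingEnd ℂ) (ee ψ)).re + r * Real.cos (θ - ψ) := by
  have h3 : (ee θ * (starRingEnd ℂ) (ee ψ)).re = Real.cos (θ - ψ) := by
    rw [Complex.mul_re, Complex.conj_re, Complex.conj_im, ee_re, ee_im, ee_re, ee_im, Real.cos_sub]
    ring
  unfold ZZ
  rw [add_mul, Complex.add_re, mul_assoc, Complex.re_ofReal_mul, h3]

lemma re_gam (h h1 : ℝ → ℝ) (θ : ℝ) : (gam h h1 θ * (starRingEnd ℂ) (ee θ)).re = h θ := by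
  have h2 : ee θ * (starRingEnd ℂ) (ee θ) = 1 := by
    rw [Complex.mul_conj, Complex.normSq_apply, ee_re, ee_im]
    have h3 := Real.sin_sq_add_cos_sq θ
    have h4 : Real.cos θ * Real.cos θ + Real.sin θ * Real.sin θ = 1 := by nlinarith
    rw [h4, Complex.ofReal_one]
  unfold gam
  rw [mul_assoc, h2, mul_one]
  simp

end INJM

open INJM

theorem specINJ (hSUP : SpecSUP) : SpecINJ := by
  intro h h1 h2 hS θ hθ θ' hθ' r r' hr hr' hZ
  have e1 := re_ZZ h h1 θ r θ
  have e2 := re_ZZ h h1 θ' r' θ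
  rw [sub_self, Real.cos_zero, mul_one, re_gam] at e1
  have e3 := re_ZZ h h1 θ' r' θ'
  have e4 := re_ZZ h h1 θ r θ'
  rw [sub_self, Real.cos_zero, mul_one, re_gam] at e3
  have k1 : (gam h h1 θ' * (starRingEnd ℂ) (ee θ)).re ≤ h θ := hSUP h h1 h2 hS θ' θ
  have k2 : (gam h h1 θ * (starRingEnd ℂ) (ee θ')).re ≤ h θ' := hSUP h h1 h2 hS θ θ'
  rw [hZ] at e1 e4
  have hc : Real.cos (θ - θ') = Real.cos (θ' - θ) := by
    rw [← Real.cos_neg, neg_sub]
  set c := Real.cos (θ' - θ) with hcdef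
  rw [hc] at e4
  have a1 : r ≤ r' * c := by linarith
  have a2 : r' ≤ r * c := by linarith
  have hc1 : c ≤ 1 := Real.cos_le_one _
  have hc0 : 0 < c := by
    by_contra hcon
    have := mul_nonpos_of_nonneg_of_nonpos hr'.le (not_lt.mp hcon)
    linarith
  have a3 : r ≤ r' := by nlinarith
  have a4 : r' ≤ r := by nlinarith
  have hrr : r = r' := le_antisymm a3 a4
  have hc2 : c = 1 := by
    rw [hrr] at a1
    have : 1 ≤ c := by
      by_contra hcon
      have := mul_lt_mul_of_pos_left (not_le.mp hcon) hr'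
      linarith
    exact le_antisymm hc1 this
  refine ⟨?_, hrr⟩
  have h5 : θ' - θ = 0 := by
    refine (Real.cos_eq_one_iff_of_lt_of_lt ?_ ?_).mp hc2
    · linarith [hθ.2, hθ'.1]
    · linarith [hθ.1, hθ'.2]
  linarith

end Pool.Agent.Lib.MP684ec1.CH
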