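import Pool.Agent.Lib.MP_684ec1_an.CH.Spec

/-! # Module LEN: the length of the boundary in the disc of radius `4`. -/

set_option autoImplicit false

namespace Pool.Agent.Lib.MP684ec1.CH

open Complex Polynomial MeasureTheory intervalIntegral Set
open Pool.Agent.Lib.MP684ec1.HP

namespace LENM

/-- a trapezoid, `1` on `[-4, 4]` and `0` off `[-4.05, 4.05]` -/
noncomputable def kk (x : ℝ) : ℝ := max 0 (min 1 (81 - 20 * |x|))

lemma kk_cont : Continuous kk := by
  unfold kk
  fun_prop

lemma kk_nn (x : ℝ) : 0 ≤ kk x := le_max_left _ _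

lemma kk_le (x : ℝ) : kk x ≤ 1 := max_le zero_le_one (min_le_left _ _)

lemma kk_one {x : ℝ} (h : |x| ≤ 4) : kk x = 1 := by
  unfold kk
  rw [min_eq_left (by linarith), max_eq_right zero_le_one]

lemma kk_zero {x : ℝ} (h : x ∉ Icc (-(81 / 20) : ℝ) (81 / 20)) : kk x = 0 := by
  unfold kk
  rw [mem_Icc, ← abs_le] at h
  push Not at h
  rw [min_eq_right (by linarith), max_eq_left (by linarith)]

lemma kk_int (u v : ℝ) : ∫ x in u..v, kk x ≤ 81 / 10 := by
  have key : ∀ u v : ℝ, u ≤ v → ∫ x in u..v, kk x ≤ 81 / 10 := by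
    intro u v huv
    have hint : Integrable kk := kk_cont.integrable_of_hasCompactSupport
      (HasCompactSupport.intro isCompact_Icc (fun x hx => kk_zero hx))
    rw [intervalIntegral.integral_of_le huv]
    calc ∫ x in Ioc u v, kk x ≤ ∫ x, kk x :=
          setIntegral_le_integral hint (Filter.Eventually.of_forall kk_nn)
      _ = ∫ x in Icc (-(81 / 20) : ℝ) (81 / 20), kk x :=
          (setIntegral_eq_integral_of_forall_compl_eq_zero (fun x hx => kk_zero hx)).symm
      _ ≤ ∫ x in Icc (-(81 / 20) : ℝ) (81 / 20), (1 : ℝ) :=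
          setIntegral_mono hint.integrableOn (integrableOn_const (by simp)) (fun x => kk_le x)
      _ = 81 / 10 := by
          rw [setIntegral_const]
          simp only [smul_eq_mul, mul_one, measureReal_def, Real.volume_Icc]
          rw [ENNReal.toReal_ofReal (by norm_num)]
          norm_num
  rcases le_total u v with huv | huv
  · exact key u v huv
  · rw [intervalIntegral.integral_symm]
    have h1 : 0 ≤ ∫ x in v..u, kk x := intervalIntegral.integral_nonneg huv fun x _ => kk_nn x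
    linarith

lemma cos_pi8 : (9 / 10 : ℝ) ≤ Real.cos (Real.pi / 8) := by
  rw [Real.cos_pi_div_eight]
  have h1 : (124 / 100 : ℝ) ≤ √2 := Real.le_sqrt_of_sq_le (by norm_num)
  have h2 : (18 / 10 : ℝ) ≤ √(2 + √2) := Real.le_sqrt_of_sq_le (by linarith)
  linarith

lemma norm_gam (h h1 : ℝ → ℝ) (θ : ℝ) : ‖gam h h1 θ‖ ^ 2 = h θ ^ 2 + h1 θ ^ 2 := by
  unfold gam ee
  rw [norm_mul, Complex.norm_exp_ofReal_mul_I, mul_one, Complex.sq_norm, Complex.normSq_add_mul_I]

lemma arc {h h1 h2 g : ℝ → ℝ} (hS : Sup h h1 h2) (hg : Continuous g) (hg1 : ∀ θ, g θ ≤ h θ + h2 θ)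
    (hg2 : ∀ θ, g θ ≠ 0 → ‖gam h h1 θ‖ ≤ 4) (a : ℝ) :
    ∫ θ in a..(a + Real.pi / 4), g θ ≤ 9 := by
  have hpi := Real.pi_pos
  set c := a + Real.pi / 8 with hc
  let s : ℝ → ℝ := fun θ => h θ * Real.sin (θ - c) + h1 θ * Real.cos (θ - c)
  have hs : ∀ θ, HasDerivAt s ((h θ + h2 θ) * Real.cos (θ - c)) θ := by
    intro θ
    have e1 : HasDerivAt (fun θ : ℝ => θ - c) 1 θ := (hasDerivAt_id θ).sub_const c
    have e2 : HasDerivAt (fun θ : ℝ => Real.sin (θ - c)) (Real.cos (θ - c)) θ := by
      simpa using e1.sin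
    have e3 : HasDerivAt (fun θ : ℝ => Real.cos (θ - c)) (-Real.sin (θ - c)) θ := by
      simpa using e1.cos
    have e4 := ((hS.d1 θ).mul e2).add ((hS.d2 θ).mul e3)
    exact e4.congr_deriv (by ring)
  have hhc : Continuous h := continuous_iff_continuousAt.mpr fun θ => (hS.d1 θ).continuousAt
  have hscont : Continuous s := continuous_iff_continuousAt.mpr fun θ => (hs θ).continuousAt
  have hs'cont : Continuous fun θ => (h θ + h2 θ) * Real.cos (θ - c) := by
    have := hS.cont
    fun_prop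
  have hpt : ∀ θ ∈ Icc a (a + Real.pi / 4),
      g θ ≤ 10 / 9 * (kk (s θ) * ((h θ + h2 θ) * Real.cos (θ - c))) := by
    intro θ hθ
    have hcos : 9 / 10 ≤ Real.cos (θ - c) := by
      refine cos_pi8.trans ?_
      rw [← Real.cos_abs (θ - c)]
      refine Real.cos_le_cos_of_nonneg_of_le_pi (abs_nonneg _) (by linarith) ?_
      rw [abs_le]
      constructor
      · rw [hc]
        linarith [hθ.1]
      · rw [hc]
        linarith [hθ.2]
    have hnn := hS.nn θ
    have h3 : 0 ≤ (h θ + h2 θ) * Real.cos (θ - c) := mul_nonneg hnn (by linarith)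
    by_cases h0 : g θ = 0
    · rw [h0]
      exact mul_nonneg (by norm_num) (mul_nonneg (kk_nn _) h3)
    · have h4 := hg2 θ h0
      have h5 := norm_gam h h1 θ
      have h6 : h θ ^ 2 + h1 θ ^ 2 ≤ 16 := by
        rw [← h5]
        nlinarith [norm_nonneg (gam h h1 θ)]
      have h7 : |s θ| ≤ 4 := by
        have h8 := Real.sin_sq_add_cos_sq (θ - c)
        have h9 : s θ ^ 2 ≤ 4 ^ 2 := by
          have h10 : s θ ^ 2 + (h θ * Real.cos (θ - c) - h1 θ * Real.sin (θ - c)) ^ 2 =
              (h θ ^ 2 + h1 θ ^ 2) * (Real.sin (θ - c) ^ 2 + Real.cos (θ - c) ^ 2) := by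
            simp only [s]
            ring
          rw [h8, mul_one] at h10
          nlinarith [sq_nonneg (h θ * Real.cos (θ - c) - h1 θ * Real.sin (θ - c))]
        exact abs_le_of_sq_le_sq h9 (by norm_num)
      rw [kk_one h7, one_mul]
      have h11 := hg1 θ
      nlinarith
  have hle : a ≤ a + Real.pi / 4 := by linarith
  have hkint : Continuous fun θ => kk (s θ) * ((h θ + h2 θ) * Real.cos (θ - c)) :=
    (kk_cont.comp hscont).mul hs'cont
  calc ∫ θ in a..(a + Real.pi / 4), g θ
      ≤ ∫ θ in a..(a + Real.pi / 4), 10 / 9 * (kk (s θ) * ((h θ + h2 θ) * Real.cos (θ - c))) :=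
        intervalIntegral.integral_mono_on hle (hg.intervalIntegrable _ _)
          ((continuous_const.mul hkint).intervalIntegrable _ _) hpt
    _ = 10 / 9 * ∫ θ in a..(a + Real.pi / 4), (kk ∘ s) θ * ((h θ + h2 θ) * Real.cos (θ - c)) := by
        rw [intervalIntegral.integral_const_mul]
        rfl
    _ = 10 / 9 * ∫ x in (s a)..(s (a + Real.pi / 4)), kk x := by
        rw [intervalIntegral.integral_comp_mul_deriv (fun x _ => hs x) hs'cont.continuousOn kk_cont]
    _ ≤ 9 := by
        have := kk_int (s a) (s (a + Real.pi / 4))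
        linarith

end LENM

theorem specLEN : SpecLEN := by
  intro h h1 h2 hS g hg hg0 hg1 hg2
  have h3 := intervalIntegral.sum_integral_adjacent_intervals (f := g) (μ := volume)
    (a := fun k : ℕ => (k : ℝ) * (Real.pi / 4)) (n := 8)
    (fun k _ => hg.intervalIntegrable _ _)
  have h4 : ((8 : ℕ) : ℝ) * (Real.pi / 4) = 2 * Real.pi := by
    push_cast
    ring
  have h5 : ((0 : ℕ) : ℝ) * (Real.pi / 4) = 0 := by
    push_cast
    ring
  simp only [h4, h5] at h3
  rw [← h3]
  calc ∑ k ∈ Finset.range 8, ∫ x in ((k : ℝ) * (Real.pi / 4))..(((k + 1 : ℕ) : ℝ) * (Real.pi / 4)), g x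
      ≤ ∑ _k ∈ Finset.range 8, (9 : ℝ) := by
        refine Finset.sum_le_sum fun k _ => ?_
        have h6 : ((k + 1 : ℕ) : ℝ) * (Real.pi / 4) = (k : ℝ) * (Real.pi / 4) + Real.pi / 4 := by
          push_cast
          ring
        rw [h6]
        exact LENM.arc hS hg hg1 hg2 _
    _ = 72 := by
        rw [Finset.sum_const, Finset.card_range]
        norm_num

end Pool.Agent.Lib.MP684ec1.CH
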