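import Pool.Agent.Lib.MP_684ec1_an.CH.Spec

/-!
# MP_684ec1, CH: module LGO (the logarithmic derivative outside)
-/

set_option autoImplicit false

namespace Pool.Agent.Lib.MP684ec1.CH

open Complex Polynomial MeasureTheory intervalIntegral Set
open Pool.Agent.Lib.MP684ec1.HP

namespace LGOM

theorem ee_mul_conj (θ : ℝ) : ee θ * (starRingEnd ℂ) (ee θ) = 1 := by
  rw [Complex.mul_conj, Complex.normSq_eq_norm_sq, ee, Complex.norm_exp_ofReal_mul_I]
  simp

theorem zz_re (h h1 : ℝ → ℝ) (θ r : ℝ) : (ZZ h h1 θ r * (starRingEnd ℂ) (ee θ)).re = h θ + r := by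
  have e : ZZ h h1 θ r * (starRingEnd ℂ) (ee θ) =
      ((h θ : ℂ) + (h1 θ : ℂ) * I) * (ee θ * (starRingEnd ℂ) (ee θ)) +
        (r : ℂ) * (ee θ * (starRingEnd ℂ) (ee θ)) := by
    unfold ZZ gam
    ring
  rw [e, ee_mul_conj]
  simp

/-- one term -/
theorem term {u e : ℂ} {r : ℝ} (he : ‖e‖ = 1) (hr : 0 < r) (hu : r ≤ (u * (starRingEnd ℂ) e).re) :
    ‖-(1 / u ^ 2)‖ * r ≤ (1 / u * e).re ∧ 0 < (1 / u * e).re ∧ ‖1 / u‖ * r ≤ 1 ∧ r ≤ ‖u‖ := by
  have hru : r ≤ ‖u‖ := by
    refine hu.trans ((Complex.re_le_norm _).trans ?_)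
    rw [norm_mul, Complex.norm_conj, he, mul_one]
  have hu0 : 0 < ‖u‖ := hr.trans_le hru
  have hne : u ≠ 0 := norm_pos_iff.1 hu0
  have hn : 0 < Complex.normSq u := Complex.normSq_pos.2 hne
  have h1 : (1 / u * e).re = (u * (starRingEnd ℂ) e).re / Complex.normSq u := by
    rw [one_div, Complex.mul_re, Complex.inv_re, Complex.inv_im, Complex.mul_re, Complex.conj_re,
      Complex.conj_im]
    field_simp
  have h2 : ‖-(1 / u ^ 2)‖ = 1 / Complex.normSq u := by
    rw [norm_neg, norm_div, norm_one, norm_pow, Complex.sq_norm]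
  rw [h1, h2]
  refine ⟨?_, div_pos (hr.trans_le hu) hn, ?_, hru⟩
  · rw [one_div, inv_mul_eq_div]
    exact div_le_div_of_nonneg_right hu hn.le
  · rw [norm_div, norm_one, one_div, inv_mul_eq_div, div_le_one hu0]
    exact hru

theorem bound (z e : ℂ) (r : ℝ) (he : ‖e‖ = 1) (hr : 0 < r) (s : Multiset ℂ) :
    (∀ ζ ∈ s, r ≤ ((z - ζ) * (starRingEnd ℂ) e).re) →
    ‖(s.map (fun ζ => -(1 / (z - ζ) ^ 2))).sum‖ * r ≤ ((s.map (fun ζ => 1 / (z - ζ))).sum * e).re ∧
    0 ≤ ((s.map (fun ζ => 1 / (z - ζ))).sum * e).re ∧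
    (s ≠ 0 → 0 < ((s.map (fun ζ => 1 / (z - ζ))).sum * e).re) ∧
    ‖(s.map (fun ζ => 1 / (z - ζ))).sum‖ * r ≤ (Multiset.card s : ℝ) ∧
    r ^ (Multiset.card s) ≤ ‖(s.map (fun ζ => z - ζ)).prod‖ := by
  induction s using Multiset.induction with
  | empty =>
    intro _
    refine ⟨by simp, by simp, fun h => absurd rfl h, by simp, by simp⟩
  | cons a s ih =>
    intro h
    obtain ⟨i1, i2, _, i4, i5⟩ := ih fun ζ hζ => h ζ (Multiset.mem_cons_of_mem hζ)
    obtain ⟨t1, t2, t3, t4⟩ := term he hr (h a (Multiset.mem_cons_self a s))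
    simp only [Multiset.map_cons, Multiset.sum_cons, Multiset.prod_cons, Multiset.card_cons, add_mul,
      Complex.add_re, norm_mul]
    refine ⟨?_, by linarith, fun _ => by linarith, ?_, ?_⟩
    · have h1 := norm_add_le (-(1 / (z - a) ^ 2)) (s.map (fun ζ => -(1 / (z - ζ) ^ 2))).sum
      have h2 := mul_le_mul_of_nonneg_right h1 hr.le
      rw [add_mul] at h2
      linarith
    · have h1 := norm_add_le (1 / (z - a)) (s.map (fun ζ => 1 / (z - ζ))).sum
      have h2 := mul_le_mul_of_nonneg_right h1 hr.le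
      rw [add_mul] at h2
      push_cast
      linarith
    · rw [pow_succ, mul_comm]
      exact mul_le_mul t4 i5 (pow_nonneg hr.le _) (hr.le.trans t4)

theorem deriv (z : ℂ) (s : Multiset ℂ) : (∀ ζ ∈ s, z - ζ ≠ 0) →
    HasDerivAt (fun w : ℂ => (s.map (fun ζ => 1 / (w - ζ))).sum)
      (s.map (fun ζ => -(1 / (z - ζ) ^ 2))).sum z := by
  induction s using Multiset.induction with
  | empty =>
    intro _
    simpa using hasDerivAt_const z (0 : ℂ)
  | cons a s ih =>
    intro h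
    have h1 := ih fun ζ hζ => h ζ (Multiset.mem_cons_of_mem hζ)
    have hne : z - a ≠ 0 := h a (Multiset.mem_cons_self a s)
    have h2 : HasDerivAt (fun w : ℂ => 1 / (w - a)) (-(1 / (z - a) ^ 2)) z := by
      have h3 := ((hasDerivAt_id z).sub_const a).inv hne
      have h4 : -(1 : ℂ) / (id z - a) ^ 2 = -(1 / (z - a) ^ 2) := by
        rw [id, neg_div]
      rw [h4] at h3
      refine h3.congr_of_eventuallyEq ?_
      filter_upwards with w
      rw [one_div]
      rfl
    have h5 := h2.add h1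
    have e1 : (fun w : ℂ => (((a ::ₘ s).map (fun ζ => 1 / (w - ζ))).sum)) =
        (fun w : ℂ => 1 / (w - a)) + fun w : ℂ => (s.map (fun ζ => 1 / (w - ζ))).sum := by
      funext w
      rw [Multiset.map_cons, Multiset.sum_cons]
      rfl
    rw [e1, Multiset.map_cons, Multiset.sum_cons]
    exact h5

end LGOM

theorem specLGO : SpecLGO := by
  rintro p h h1 h2 _ ⟨hd, hp⟩ θ r hr
  set z := ZZ h h1 θ r with hz
  have he : ‖ee θ‖ = 1 := by
    rw [ee, Complex.norm_exp_ofReal_mul_I]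
  have hp0 : p ≠ 0 := fun h => by
    rw [h, natDegree_zero] at hd
    exact lt_irrefl _ hd
  have hs := IsAlgClosed.splits p
  have hroot : ∀ ζ ∈ p.roots, r ≤ ((z - ζ) * (starRingEnd ℂ) (ee θ)).re := by
    intro ζ hζ
    have h3 : ζ ∈ KK h := hp ζ ((mem_roots hp0).1 hζ)
    have h4 := h3 θ
    rw [sub_mul, Complex.sub_re, hz, LGOM.zz_re]
    linarith
  have hr0 : p.roots ≠ 0 := by
    have hdeg : p.degree ≠ 0 := by
      intro h
      rw [natDegree_eq_of_degree_eq_some h] at hd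
      exact lt_irrefl _ hd
    obtain ⟨x, hx⟩ := IsAlgClosed.exists_root p hdeg
    intro h
    have hm : x ∈ p.roots := (mem_roots hp0).2 hx
    rw [h] at hm
    exact Multiset.notMem_zero x hm
  have hcard : Multiset.card p.roots = p.natDegree := hs.natDegree_eq_card_roots.symm
  obtain ⟨b1, _, b3, b4, b5⟩ := LGOM.bound z (ee θ) r he hr p.roots hroot
  rw [hcard] at b4 b5
  have heval : p.eval z = p.leadingCoeff * (p.roots.map (fun ζ => z - ζ)).prod := by
    conv_lhs => rw [hs.eq_prod_roots]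
    rw [eval_mul, eval_C, eval_multiset_prod, Multiset.map_map]
    congr 2
    refine Multiset.map_congr rfl fun ζ _ => ?_
    simp
  have hlc : 0 < ‖p.leadingCoeff‖ := norm_pos_iff.2 (leadingCoeff_ne_zero.2 hp0)
  have hlow : ‖p.leadingCoeff‖ * r ^ p.natDegree ≤ ‖p.eval z‖ := by
    rw [heval, norm_mul]
    exact mul_le_mul_of_nonneg_left b5 hlc.le
  have hne : p.eval z ≠ 0 := by
    rw [← norm_pos_iff]
    exact (mul_pos hlc (pow_pos hr _)).trans_le hlow
  have hlg : ∀ w : ℂ, p.eval w ≠ 0 → lg p w = (p.roots.map fun ζ => 1 / (w - ζ)).sum :=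
    fun w hw => hs.eval_derivative_div_eval_of_ne_zero hw
  rw [← hlg z hne] at b1 b3 b4
  refine ⟨hlow, b3 hr0, b4, _, ?_, b1⟩
  have hdv := LGOM.deriv z p.roots (fun ζ hζ h => by
    have h1 : z = ζ := sub_eq_zero.1 h
    exact hne (h1 ▸ (mem_roots hp0).1 hζ))
  refine hdv.congr_of_eventuallyEq ?_
  have hc : ContinuousAt (fun w : ℂ => p.eval w) z := p.continuous.continuousAt
  filter_upwards [hc.eventually_ne hne] with w hw
  exact hlg w hw

end Pool.Agent.Lib.MP684ec1.CH
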