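import Pool.Agent.Lib.MP_684ec1_an.CH.Spec

/-!
# MP_684ec1, module PWI: the pointwise inequality of the calibration
-/

set_option autoImplicit false

namespace Pool.Agent.Lib.MP684ec1.CH

open Complex Polynomial MeasureTheory Set
open Pool.Agent.Lib.MP684ec1.HP

namespace PWIM

lemma ee_deriv (θ : ℝ) : HasDerivAt ee (I * ee θ) θ := by
  have h1 : HasDerivAt (fun t : ℝ => (t : ℂ) * I) (1 * I) θ :=
    (Complex.ofRealCLM.hasDerivAt (x := θ)).mul_const I
  have h2 : HasDerivAt (fun t : ℝ => exp ((t : ℂ) * I)) (exp ((θ : ℂ) * I) * (1 * I)) θ := h1.cexp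
  refine HasDerivAt.congr_deriv h2 ?_
  rw [one_mul, mul_comm]
  rfl

lemma norm_ee (θ : ℝ) : ‖ee θ‖ = 1 := by
  unfold ee
  exact Complex.norm_exp_ofReal_mul_I θ

lemma ZZ_r (h h1 : ℝ → ℝ) (θ r : ℝ) : HasDerivAt (fun t => ZZ h h1 θ t) (ee θ) r := by
  have h2 : HasDerivAt (fun t : ℝ => (t : ℂ) * ee θ) (1 * ee θ) r :=
    (Complex.ofRealCLM.hasDerivAt (x := r)).mul_const (ee θ)
  have h3 := h2.const_add (gam h h1 θ)
  rw [one_mul] at h3
  exact h3

lemma ZZ_t {h h1 h2 : ℝ → ℝ} (hS : Sup h h1 h2) (θ r : ℝ) :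
    HasDerivAt (fun t => ZZ h h1 t r) (((h θ + h2 θ + r : ℝ) : ℂ) * (I * ee θ)) θ := by
  have e1 : HasDerivAt (fun t => (h t : ℂ)) (h1 θ : ℂ) θ := (hS.d1 θ).ofReal_comp
  have e2 : HasDerivAt (fun t => (h1 t : ℂ)) (h2 θ : ℂ) θ := (hS.d2 θ).ofReal_comp
  have e3 : HasDerivAt (fun t => ((h t : ℂ) + (h1 t : ℂ) * I) * ee t + (r : ℂ) * ee t)
      (((h1 θ : ℂ) + (h2 θ : ℂ) * I) * ee θ + ((h θ : ℂ) + (h1 θ : ℂ) * I) * (I * ee θ) +
        (r : ℂ) * (I * ee θ)) θ :=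
    ((e1.add (e2.mul_const I)).mul (ee_deriv θ)).add ((ee_deriv θ).const_mul (r : ℂ))
  refine HasDerivAt.congr_deriv e3 ?_
  push_cast
  have hI : (I : ℂ) * I = -1 := I_mul_I
  linear_combination ((h1 θ : ℂ) * ee θ) * hI

lemma norm_deriv {g : ℝ → ℂ} {g' : ℂ} {t : ℝ} (hg : HasDerivAt g g' t) (h0 : g t ≠ 0) :
    HasDerivAt (fun s => ‖g s‖) (‖g t‖ * (g' / g t).re) t := by
  have hn : (0 : ℝ) < normSq (g t) := normSq_pos.2 h0
  have hre : HasDerivAt (fun s => (g s).re) g'.re t := by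
    have := (Complex.reCLM.hasFDerivAt (x := g t)).comp_hasDerivAt t hg
    exact this
  have him : HasDerivAt (fun s => (g s).im) g'.im t := by
    have := (Complex.imCLM.hasFDerivAt (x := g t)).comp_hasDerivAt t hg
    exact this
  have h1 : HasDerivAt (fun s => (g s).re * (g s).re + (g s).im * (g s).im)
      (g'.re * (g t).re + (g t).re * g'.re + (g'.im * (g t).im + (g t).im * g'.im)) t :=
    (hre.mul hre).add (him.mul him)
  have h2 : HasDerivAt (fun s => Real.sqrt ((g s).re * (g s).re + (g s).im * (g s).im))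
      ((g'.re * (g t).re + (g t).re * g'.re + (g'.im * (g t).im + (g t).im * g'.im)) /
        (2 * Real.sqrt ((g t).re * (g t).re + (g t).im * (g t).im))) t := by
    refine h1.sqrt ?_
    rw [← normSq_apply]
    exact hn.ne'
  have h3 : (fun s => ‖g s‖) = fun s => Real.sqrt ((g s).re * (g s).re + (g s).im * (g s).im) := by
    funext s
    rw [← normSq_apply, Complex.norm_def]
  rw [h3]
  refine HasDerivAt.congr_deriv h2 ?_
  have h4 : ‖g t‖ = Real.sqrt ((g t).re * (g t).re + (g t).im * (g t).im) := congrFun h3 t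
  rw [← h4, Complex.div_re]
  have h5 : normSq (g t) = ‖g t‖ ^ 2 := normSq_eq_norm_sq (g t)
  have h6 : 0 < ‖g t‖ := norm_pos_iff.2 h0
  rw [h5]
  field_simp
  ring

lemma A_deriv {w Q R : ℝ → ℝ} {w' Q' R' t : ℝ} (hw : HasDerivAt w w' t) (hQ : HasDerivAt Q Q' t)
    (hR : HasDerivAt R R' t) (h0 : R t ≠ 0) :
    HasDerivAt (fun s => w s * Q s ^ 2 / R s)
      (w' * Q t ^ 2 / R t + 2 * w t * Q t * Q' / R t - w t * Q t ^ 2 * R' / R t ^ 2) t := by
  have h1 : HasDerivAt (fun s => w s * Q s ^ 2)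
      (w' * Q t ^ 2 + w t * (2 * Q t * Q')) t := by
    refine HasDerivAt.congr_deriv (hw.mul (hQ.pow 2)) ?_
    norm_num
  refine HasDerivAt.congr_deriv (h1.div hR h0) ?_
  field_simp

lemma B_deriv {w P Q R : ℝ → ℝ} {w' P' Q' R' t : ℝ} (hw : HasDerivAt w w' t)
    (hP : HasDerivAt P P' t) (hQ : HasDerivAt Q Q' t)
    (hR : HasDerivAt R R' t) (h0 : R t ≠ 0) :
    HasDerivAt (fun s => w s * Q s * P s / R s)
      (w' * Q t * P t / R t + w t * (Q' * P t + Q t * P') / R t - w t * Q t * P t * R' / R t ^ 2)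
      t := by
  have h1 : HasDerivAt (fun s => w s * Q s * P s)
      ((w' * Q t + w t * Q') * P t + w t * Q t * P') t := (hw.mul hQ).mul hP
  refine HasDerivAt.congr_deriv (h1.div hR h0) ?_
  field_simp
  ring

lemma w_deriv {N : ℝ → ℝ} {N' t : ℝ} (hN : HasDerivAt N N' t) :
    HasDerivAt (fun s => N s / (1 + N s ^ 2)) (N' * (1 - N t ^ 2) / (1 + N t ^ 2) ^ 2) t := by
  have h0 : 1 + N t ^ 2 ≠ 0 := by positivity
  have h1 : HasDerivAt (fun s => 1 + N s ^ 2) (2 * N t * N') t := by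
    refine HasDerivAt.congr_deriv ((hN.pow 2).const_add 1) ?_
    norm_num
  refine HasDerivAt.congr_deriv (hN.div h1 h0) ?_
  field_simp
  ring

/-- the algebra -/
lemma alg {w w1 P Q R a b σ : ℝ} (hR : 0 < R) (hR2 : R ^ 2 = P ^ 2 + Q ^ 2) :
    w * Q ^ 2 / R + σ * (w1 * P * Q ^ 2 / R + 2 * w * Q * (-b) / R -
        w * Q ^ 2 * ((P * a - Q * b) / R) / R ^ 2) -
      (w1 * σ * Q * Q * P / R + w * ((-P - σ * a) * P + Q * (Q - σ * b)) / R -
        w * Q * P * (-σ * (P * b + Q * a) / R) / R ^ 2) =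
    w * P ^ 2 / R + σ * w * P / R ^ 3 * (a * (P ^ 2 - Q ^ 2) - 2 * b * P * Q) := by
  rw [← sub_eq_zero]
  have h1 : w * Q ^ 2 / R + σ * (w1 * P * Q ^ 2 / R + 2 * w * Q * (-b) / R -
        w * Q ^ 2 * ((P * a - Q * b) / R) / R ^ 2) -
      (w1 * σ * Q * Q * P / R + w * ((-P - σ * a) * P + Q * (Q - σ * b)) / R -
        w * Q * P * (-σ * (P * b + Q * a) / R) / R ^ 2) -
    (w * P ^ 2 / R + σ * w * P / R ^ 3 * (a * (P ^ 2 - Q ^ 2) - 2 * b * P * Q)) =
      σ * w * (a * P - b * Q) * (R ^ 2 - (P ^ 2 + Q ^ 2)) / R ^ 3 := by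
    field_simp
    ring
  rw [h1, hR2, sub_self, mul_zero, zero_div]

lemma fin_ineq {w P R K H r σ : ℝ} (hw : 0 ≤ w) (hP : 0 < P) (hR : 0 < R) (hr : 0 < r)
    (hσ : σ = H + r) (hσ0 : 0 ≤ σ) (hK : -(P / r * R ^ 2) ≤ K) :
    -(w * P ^ 2 / R * (H / r)) ≤ w * P ^ 2 / R + σ * w * P / R ^ 3 * K := by
  have h1 : σ * w * P / R ^ 3 * (-(P / r * R ^ 2)) ≤ σ * w * P / R ^ 3 * K :=
    mul_le_mul_of_nonneg_left hK (by positivity)
  have h2 : w * P ^ 2 / R + σ * w * P / R ^ 3 * (-(P / r * R ^ 2)) = -(w * P ^ 2 / R * (H / r)) := by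
    rw [hσ]
    field_simp
    ring
  linarith

end PWIM

open PWIM in
theorem specPWI (hLGO : SpecLGO) : SpecPWI := by
  intro p h h1 h2 hS hI θ r hr
  obtain ⟨hp1, hP, -, f', hf, hf'⟩ := hLGO p h h1 h2 hS hI θ r hr
  have hlead : 0 < ‖p.leadingCoeff‖ := by
    rw [norm_pos_iff]
    intro h0
    have := hI.1
    rw [leadingCoeff_eq_zero.1 h0, natDegree_zero] at this
    exact lt_irrefl _ this
  have hpz : p.eval (ZZ h h1 θ r) ≠ 0 := by
    rw [← norm_pos_iff]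
    exact lt_of_lt_of_le (by positivity) hp1
  set Z := ZZ h h1 θ r with hZ
  set σ : ℝ := h θ + h2 θ + r with hσ
  have hσ0 : 0 ≤ σ := by
    have := hS.nn θ
    linarith
  -- the numbers
  set F : ℂ := lg p Z * ee θ with hF
  set G : ℂ := f' * ee θ * ee θ with hG
  have eP : PP p h h1 θ r = F.re := rfl
  have eQ : QQ p h h1 θ r = -F.im := rfl
  have eR : RR p h h1 θ r = ‖F‖ := by
    rw [hF, norm_mul, norm_ee, mul_one]
    rfl
  have hlg : lg p Z ≠ 0 := by
    intro h0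
    rw [eP, hF, h0, zero_mul] at hP
    exact lt_irrefl _ hP
  have hF0 : F ≠ 0 := by
    intro h0
    rw [eP, h0] at hP
    exact lt_irrefl _ hP
  have hRpos : 0 < ‖F‖ := norm_pos_iff.2 hF0
  have hR2 : ‖F‖ ^ 2 = F.re ^ 2 + (-F.im) ^ 2 := by
    rw [← normSq_eq_norm_sq, normSq_apply]
    ring
  -- derivatives of `lg p (ZZ) * ee`
  have zt := ZZ_t hS θ r
  rw [← hσ] at zt
  have d1 : HasDerivAt (fun t => lg p (ZZ h h1 θ t)) (f' * ee θ) r := by
    have := HasDerivAt.comp r (h₂ := lg p) (h := fun t => ZZ h h1 θ t) hf (ZZ_r h h1 θ r)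
    exact this
  have d2 : HasDerivAt (fun t => lg p (ZZ h h1 t r)) (f' * ((σ : ℂ) * (I * ee θ))) θ := by
    have := HasDerivAt.comp θ (h₂ := lg p) (h := fun t => ZZ h h1 t r) hf zt
    exact this
  have d3 : HasDerivAt (fun t => lg p (ZZ h h1 θ t) * ee θ) G r := d1.mul_const (ee θ)
  have d4 : HasDerivAt (fun t => lg p (ZZ h h1 t r) * ee t) ((σ : ℂ) * I * G + I * F) θ := by
    refine HasDerivAt.congr_deriv (d2.mul (ee_deriv θ)) ?_
    rw [hG, hF]
    ring
  -- `P` and `Q`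
  have dre : ∀ {g : ℝ → ℂ} {g' : ℂ} {t : ℝ}, HasDerivAt g g' t →
      HasDerivAt (fun s => (g s).re) g'.re t := fun {g g' t} hg => by
    have := (Complex.reCLM.hasFDerivAt (x := g t)).comp_hasDerivAt t hg
    exact this
  have dim : ∀ {g : ℝ → ℂ} {g' : ℂ} {t : ℝ}, HasDerivAt g g' t →
      HasDerivAt (fun s => (g s).im) g'.im t := fun {g g' t} hg => by
    have := (Complex.imCLM.hasFDerivAt (x := g t)).comp_hasDerivAt t hg
    exact this
  have dPt : HasDerivAt (fun t => PP p h h1 t r) (-F.im - σ * G.im) θ := by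
    refine HasDerivAt.congr_deriv (dre d4) ?_
    simp only [add_re, mul_re, mul_im, I_re, I_im, ofReal_re, ofReal_im]
    ring
  have dQr : HasDerivAt (fun t => QQ p h h1 θ t) (-G.im) r := (dim d3).neg
  have dQt : HasDerivAt (fun t => QQ p h h1 t r) (-F.re - σ * G.re) θ := by
    refine HasDerivAt.congr_deriv (dim d4).neg ?_
    simp only [add_im, mul_re, mul_im, I_re, I_im, ofReal_re, ofReal_im]
    ring
  -- `R`
  have hFe : lg p Z = F * (starRingEnd ℂ) (ee θ) := by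
    rw [hF, mul_assoc, mul_conj, normSq_eq_norm_sq, norm_ee]
    norm_num
  have hnF : normSq F = ‖F‖ ^ 2 := normSq_eq_norm_sq F
  have hee : ee θ ≠ 0 := by
    rw [← norm_pos_iff, norm_ee]
    exact one_pos
  have dRr : HasDerivAt (fun t => RR p h h1 θ t) ((F.re * G.re - (-F.im) * G.im) / ‖F‖) r := by
    refine HasDerivAt.congr_deriv (norm_deriv d1 hlg) ?_
    have e1 : f' * ee θ / lg p Z = G / F := by
      rw [hG, hF]
      field_simp
    have e2 : ‖lg p Z‖ = ‖F‖ := eR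
    rw [e1, e2, Complex.div_re, hnF]
    field_simp
    ring
  have dRt : HasDerivAt (fun t => RR p h h1 t r)
      (-σ * (F.re * G.im + (-F.im) * G.re) / ‖F‖) θ := by
    refine HasDerivAt.congr_deriv (norm_deriv d2 hlg) ?_
    have e1 : f' * ((σ : ℂ) * (I * ee θ)) / lg p Z = (σ : ℂ) * I * G / F := by
      rw [hG, hF]
      field_simp
    have e2 : ‖lg p Z‖ = ‖F‖ := eR
    rw [e1, e2, Complex.div_re, hnF]
    simp only [mul_re, mul_im, I_re, I_im, ofReal_re, ofReal_im]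
    field_simp
    ring
  -- `w`
  set N : ℝ := ‖p.eval Z‖ with hN
  have dpz : HasDerivAt (fun z => p.eval z) (p.derivative.eval Z) Z := p.hasDerivAt Z
  have dNr : HasDerivAt (fun t => ‖p.eval (ZZ h h1 θ t)‖) (N * F.re) r := by
    have e1 : HasDerivAt (fun t => p.eval (ZZ h h1 θ t)) (p.derivative.eval Z * ee θ) r := by
      have := HasDerivAt.comp r (h₂ := fun z => p.eval z) (h := fun t => ZZ h h1 θ t) dpz
        (ZZ_r h h1 θ r)
      exact this
    refine HasDerivAt.congr_deriv (norm_deriv e1 hpz) ?_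
    have e2 : p.derivative.eval Z * ee θ / p.eval Z = F := by
      rw [hF]
      unfold lg
      ring
    rw [← hZ, e2]
  have dNt : HasDerivAt (fun t => ‖p.eval (ZZ h h1 t r)‖) (N * (σ * (-F.im))) θ := by
    have e1 : HasDerivAt (fun t => p.eval (ZZ h h1 t r))
        (p.derivative.eval Z * ((σ : ℂ) * (I * ee θ))) θ := by
      have := HasDerivAt.comp θ (h₂ := fun z => p.eval z) (h := fun t => ZZ h h1 t r) dpz zt
      exact this
    refine HasDerivAt.congr_deriv (norm_deriv e1 hpz) ?_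
    have e2 : p.derivative.eval Z * ((σ : ℂ) * (I * ee θ)) / p.eval Z = (σ : ℂ) * I * F := by
      rw [hF]
      unfold lg
      ring
    rw [← hZ, e2]
    simp only [mul_re, mul_im, I_re, I_im, ofReal_re, ofReal_im]
    ring
  have dwr := w_deriv dNr
  have dwt := w_deriv dNt
  set w1 : ℝ := N * (1 - N ^ 2) / (1 + N ^ 2) ^ 2 with hw1
  have dwr' : HasDerivAt (fun t => wt p (ZZ h h1 θ t)) (w1 * F.re) r := by
    refine HasDerivAt.congr_deriv dwr ?_
    rw [hw1]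
    ring
  have dwt' : HasDerivAt (fun t => wt p (ZZ h h1 t r)) (w1 * σ * (-F.im)) θ := by
    refine HasDerivAt.congr_deriv dwt ?_
    rw [hw1]
    ring
  have hR0 : RR p h h1 θ r ≠ 0 := by
    rw [eR]
    exact hRpos.ne'
  have dA := A_deriv dwr' dQr dRr hR0
  have dB := B_deriv dwt' dPt dQt dRt hR0
  refine ⟨_, _, dA, dB, ?_⟩
  have hw0 : 0 ≤ wt p Z := by
    unfold wt
    positivity
  -- the form of `A`
  have eA : AA p h h1 θ r = wt p Z * (-F.im) ^ 2 / ‖F‖ := by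
    unfold AA
    rw [eQ, eR]
  rw [eA, eP, eQ, eR]
  -- the lower bound of `K`
  have hK : -(F.re / r * ‖F‖ ^ 2) ≤
      G.re * (F.re ^ 2 - (-F.im) ^ 2) - 2 * G.im * F.re * (-F.im) := by
    have e1 : (G * ((starRingEnd ℂ) F * (starRingEnd ℂ) F)).re =
        G.re * (F.re ^ 2 - (-F.im) ^ 2) - 2 * G.im * F.re * (-F.im) := by
      simp only [mul_re, mul_im, conj_re, conj_im]
      ring
    rw [← e1]
    have e2 : ‖G * ((starRingEnd ℂ) F * (starRingEnd ℂ) F)‖ = ‖f'‖ * ‖F‖ ^ 2 := by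
      rw [norm_mul, norm_mul ((starRingEnd ℂ) F), Complex.norm_conj, hG, norm_mul, norm_mul,
        norm_ee]
      ring
    have e3 := abs_re_le_norm (G * ((starRingEnd ℂ) F * (starRingEnd ℂ) F))
    rw [e2] at e3
    have e4 : ‖f'‖ ≤ F.re / r := by
      rw [le_div_iff₀ hr]
      exact hf'
    have e5 := neg_abs_le (G * ((starRingEnd ℂ) F * (starRingEnd ℂ) F)).re
    have e6 := mul_le_mul_of_nonneg_right e4 (sq_nonneg ‖F‖)
    linarith
  have key := fin_ineq (w := wt p Z) (P := F.re) (R := ‖F‖) (H := h θ + h2 θ) (r := r) (σ := σ)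
    hw0 hP hRpos hr hσ hσ0 hK
  have key2 := alg (w := wt p Z) (w1 := w1) (P := F.re) (Q := -F.im) (R := ‖F‖) (a := G.re)
    (b := G.im) (σ := σ) hRpos hR2
  refine key.trans (le_of_eq ?_)
  rw [← key2]

end Pool.Agent.Lib.MP684ec1.CH

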