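import Pool.Agent.Lib.MP_684ec1_an.CH.Spec

/-!
# MP_684ec1, part CH, module RAD: integrals along the rays
-/

set_option autoImplicit false

namespace Pool.Agent.Lib.MP684ec1.CH

open Complex Polynomial MeasureTheory intervalIntegral Set
open Pool.Agent.Lib.MP684ec1.HP

namespace RADM

lemma eval_ne (hLGO : SpecLGO) (p : ℂ[X]) (h h1 h2 : ℝ → ℝ) (hS : Sup h h1 h2) (hI : Ins p h)
    (θ r : ℝ) (hr : 0 < r) : p.eval (ZZ h h1 θ r) ≠ 0 := by
  obtain ⟨hle, _⟩ := hLGO p h h1 h2 hS hI θ r hr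
  intro h0
  rw [h0, norm_zero] at hle
  have hl : 0 < ‖p.leadingCoeff‖ := by
    rw [norm_pos_iff]
    intro hc
    rw [Polynomial.leadingCoeff_eq_zero] at hc
    have h3 := hI.1
    rw [hc] at h3
    simp at h3
  have h4 : 0 < ‖p.leadingCoeff‖ * r ^ p.natDegree := by positivity
  linarith

lemma hasDeriv_ZZ (h h1 : ℝ → ℝ) (θ r : ℝ) :
    HasDerivAt (fun t : ℝ => ZZ h h1 θ t) (ee θ) r := by
  unfold ZZ
  have h3 := ((HasDerivAt.ofReal_comp (hasDerivAt_id r)).mul_const (ee θ)).const_add (gam h h1 θ)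
  simpa using h3

lemma hasDeriv_eval (p : ℂ[X]) (h h1 : ℝ → ℝ) (θ r : ℝ) :
    HasDerivAt (fun t : ℝ => p.eval (ZZ h h1 θ t)) (p.derivative.eval (ZZ h h1 θ r) * ee θ) r := by
  have h3 : HasDerivAt (fun z : ℂ => p.eval z) (p.derivative.eval (ZZ h h1 θ r)) (ZZ h h1 θ r) :=
    p.hasDerivAt _
  exact h3.comp r (hasDeriv_ZZ h h1 θ r)

lemma hasDeriv_norm (v : ℝ → ℂ) (v' : ℂ) (r : ℝ) (hv : HasDerivAt v v' r) (h0 : v r ≠ 0) :
    HasDerivAt (fun t : ℝ => ‖v t‖) (‖v r‖ * (v' / v r).re) r := by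
  have h1 := hv.norm_sq
  have h2 := h1.sqrt (by positivity)
  have h3 : (fun t : ℝ => Real.sqrt (‖v t‖ ^ 2)) = fun t : ℝ => ‖v t‖ := by
    funext t
    exact Real.sqrt_sq (norm_nonneg _)
  have hpos : 0 < ‖v r‖ := norm_pos_iff.2 h0
  have h4 : 2 * inner ℝ (v r) v' / (2 * Real.sqrt (‖v r‖ ^ 2)) = ‖v r‖ * (v' / v r).re := by
    rw [Real.sqrt_sq (norm_nonneg _), Complex.inner, Complex.div_re]
    have h5 : Complex.normSq (v r) = ‖v r‖ ^ 2 := Complex.normSq_eq_norm_sq _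
    rw [h5]
    simp only [Complex.mul_re, Complex.conj_re, Complex.conj_im]
    field_simp
    ring
  rw [← h4, ← h3]
  exact h2

end RADM

theorem specRAD (hLGO : SpecLGO) : SpecRAD := by
  intro p h h1 h2 hS hI θ ε Y hε hY
  have hne : ∀ r, 0 < r → p.eval (ZZ h h1 θ r) ≠ 0 := fun r hr =>
    RADM.eval_ne hLGO p h h1 h2 hS hI θ r hr
  have hder : ∀ r ∈ uIcc ε Y, HasDerivAt (fun t => Real.arctan ‖p.eval (ZZ h h1 θ t)‖)
      (wt p (ZZ h h1 θ r) * PP p h h1 θ r) r := by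
    intro r hr
    rw [uIcc_of_le hY] at hr
    have hr0 : 0 < r := lt_of_lt_of_le hε hr.1
    have h3 := RADM.hasDeriv_norm _ _ r (RADM.hasDeriv_eval p h h1 θ r) (hne r hr0)
    have h4 := h3.arctan
    have h5 : 1 / (1 + ‖p.eval (ZZ h h1 θ r)‖ ^ 2) * (‖p.eval (ZZ h h1 θ r)‖ *
        (p.derivative.eval (ZZ h h1 θ r) * ee θ / p.eval (ZZ h h1 θ r)).re) =
        wt p (ZZ h h1 θ r) * PP p h h1 θ r := by
      unfold wt PP lg
      rw [mul_div_right_comm]
      ring
    rw [← h5]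
    exact h4
  have hcZ : Continuous fun t : ℝ => ZZ h h1 θ t := by
    rw [continuous_iff_continuousAt]
    intro t
    exact (RADM.hasDeriv_ZZ h h1 θ t).continuousAt
  have hc0 : Continuous fun t : ℝ => p.eval (ZZ h h1 θ t) := p.continuous.comp hcZ
  have hc1 : Continuous fun t : ℝ => p.derivative.eval (ZZ h h1 θ t) :=
    p.derivative.continuous.comp hcZ
  have hint : IntervalIntegrable (fun r => wt p (ZZ h h1 θ r) * PP p h h1 θ r) volume ε Y := by
    apply ContinuousOn.intervalIntegrable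
    rw [uIcc_of_le hY]
    apply ContinuousOn.mul
    · apply Continuous.continuousOn
      unfold wt
      apply Continuous.div hc0.norm (by fun_prop)
      intro t
      positivity
    · unfold PP lg
      apply Complex.continuous_re.comp_continuousOn
      apply ContinuousOn.mul _ continuousOn_const
      apply ContinuousOn.div hc1.continuousOn hc0.continuousOn
      intro t ht
      exact hne t (lt_of_lt_of_le hε ht.1)
  rw [integral_eq_sub_of_hasDerivAt hder hint]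
  have a1 := Real.arctan_lt_pi_div_two ‖p.eval (ZZ h h1 θ Y)‖
  have a2 : 0 ≤ Real.arctan ‖p.eval (ZZ h h1 θ ε)‖ := Real.arctan_nonneg.2 (norm_nonneg _)
  linarith

end Pool.Agent.Lib.MP684ec1.CH
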