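import Pool.Agent.Lib.MP_684ec1_an.CH.Spec
import Pool.Agent.Lib.MP_684ec1_an.HP.AFF
import Pool.Agent.Lib.MP_684ec1_an.HP.STR

/-!
# MP_684ec1, module SCL: every disc, and the bound for the whole integral
-/

set_option autoImplicit false

namespace Pool.Agent.Lib.MP684ec1.CH

open Complex Polynomial MeasureTheory Set
open Pool.Agent.Lib.MP684ec1.HP

namespace SCLM

lemma meas_hull (p : ℂ[X]) : MeasurableSet (convexHull ℝ {z : ℂ | p.eval z = 0}) := by
  by_cases hp : p = 0
  · have : {z : ℂ | p.eval z = 0} = univ := by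
      ext z
      simp [hp]
    rw [this, convexHull_univ]
    exact MeasurableSet.univ
  · have hfin : {z : ℂ | p.eval z = 0}.Finite := by
      apply (p.roots.toFinset.finite_toSet).subset
      intro z hz
      rw [Finset.mem_coe, Multiset.mem_toFinset, mem_roots hp]
      exact hz
    exact (hfin.isCompact_convexHull ℝ).isClosed.measurableSet

lemma hull_sub (p : ℂ[X]) (c : ℂ) {R : ℝ} (hR : 0 < R) (w : ℂ) :
    c + (R : ℂ) * 1 * w ∈ convexHull ℝ {z : ℂ | p.eval z = 0} ↔
      w ∈ convexHull ℝ {z : ℂ | (AFFM.sub p c ((R : ℂ) * 1)).eval z = 0} := by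
  have hR' : (R : ℂ) ≠ 0 := Complex.ofReal_ne_zero.2 hR.ne'
  set A : ℂ →ᵃ[ℝ] ℂ := (LinearMap.lsmul ℝ ℂ R).toAffineMap + AffineMap.const ℝ ℂ c with hA
  have hAv : ∀ w, A w = c + (R : ℂ) * 1 * w := by
    intro w
    simp [hA]
    ring
  have hinj : Function.Injective A := by
    intro a b hab
    rw [hAv, hAv] at hab
    have h1 := add_left_cancel hab
    rw [mul_one] at h1
    exact mul_left_cancel₀ hR' h1
  have himg : A '' {z : ℂ | (AFFM.sub p c ((R : ℂ) * 1)).eval z = 0} = {z : ℂ | p.eval z = 0} := by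
    ext z
    constructor
    · rintro ⟨w, hw, rfl⟩
      rw [mem_ofPred_eq, AFFM.eval_sub] at hw
      rw [mem_ofPred_eq, hAv]
      exact hw
    · intro hz
      refine ⟨(z - c) / R, ?_, ?_⟩
      · rw [mem_ofPred_eq, AFFM.eval_sub]
        have : c + (R : ℂ) * 1 * ((z - c) / R) = z := by
          field_simp
          ring
        rw [this]
        exact hz
      · rw [hAv]
        field_simp
        ring
  rw [← himg, ← A.image_convexHull, ← hAv]
  exact hinj.mem_set_image

end SCLM

open SCLM in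
/-- Every disc: the integral over `B(c, R)` outside the convex hull is at most `C R`. -/
theorem every_disc {C : ℝ} (hC : ∀ p : ℂ[X],
    ∫ z in Metric.closedBall (0 : ℂ) 1 \ convexHull ℝ {z : ℂ | p.eval z = 0}, sph p z ≤ C)
    (p : ℂ[X]) (c : ℂ) (R : ℝ) (hR : 0 < R) :
    ∫ z in Metric.closedBall c R \ convexHull ℝ {z : ℂ | p.eval z = 0}, sph p z ≤ C * R := by
  set K : Set ℂ := convexHull ℝ {z : ℂ | p.eval z = 0} with hK
  set q := AFFM.sub p c ((R : ℂ) * 1) with hq
  set Kq : Set ℂ := convexHull ℝ {z : ℂ | q.eval z = 0} with hKq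
  have hKm : MeasurableSet K := meas_hull p
  have hKqm : MeasurableSet Kq := meas_hull q
  have hD : MeasurableSet (Metric.closedBall c R \ K) :=
    Metric.isClosed_closedBall.measurableSet.diff hKm
  have hDq : MeasurableSet (Metric.closedBall (0 : ℂ) 1 \ Kq) :=
    Metric.isClosed_closedBall.measurableSet.diff hKqm
  have h1 := AFFM.integral_sub ((Metric.closedBall c R \ K).indicator (sph p)) c 1 hR (by simp)
  rw [integral_indicator hD] at h1
  have h2 : ∀ w : ℂ, (Metric.closedBall c R \ K).indicator (sph p) (c + (R : ℂ) * 1 * w) =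
      R⁻¹ * (Metric.closedBall (0 : ℂ) 1 \ Kq).indicator (sph q) w := by
    intro w
    have hball : c + (R : ℂ) * 1 * w ∈ Metric.closedBall c R ↔ w ∈ Metric.closedBall (0 : ℂ) 1 := by
      rw [Metric.mem_closedBall, Metric.mem_closedBall, dist_eq_norm, dist_zero_right,
        show c + (R : ℂ) * 1 * w - c = (R : ℂ) * w by ring, norm_mul, Complex.norm_real,
        Real.norm_of_nonneg hR.le]
      constructor
      · intro h
        by_contra h'
        push Not at h'
        nlinarith
      · intro h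
        nlinarith
    have hmem : c + (R : ℂ) * 1 * w ∈ Metric.closedBall c R \ K ↔
        w ∈ Metric.closedBall (0 : ℂ) 1 \ Kq := by
      rw [mem_sdiff, mem_sdiff, hball, hull_sub p c hR w]
    by_cases hw : w ∈ Metric.closedBall (0 : ℂ) 1 \ Kq
    · rw [indicator_of_mem hw, indicator_of_mem (hmem.2 hw), hq, AFFM.sph_sub, mul_one,
        Complex.norm_real, Real.norm_of_nonneg hR.le, inv_mul_cancel_left₀ hR.ne']
    · rw [indicator_of_notMem hw, indicator_of_notMem (fun h => hw (hmem.1 h)), mul_zero]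
  rw [h1]
  simp_rw [h2]
  rw [integral_const_mul, integral_indicator hDq]
  have h3 := hC q
  have h4 : R ^ 2 * (R⁻¹ * ∫ z in Metric.closedBall (0 : ℂ) 1 \ Kq, sph q z) =
      R * ∫ z in Metric.closedBall (0 : ℂ) 1 \ Kq, sph q z := by
    field_simp
  rw [h4, mul_comm C R]
  exact mul_le_mul_of_nonneg_left h3 hR.le

/-- The whole integral. -/
theorem whole {C : ℝ} (hC : ∀ p : ℂ[X],
    ∫ z in Metric.closedBall (0 : ℂ) 1 \ convexHull ℝ {z : ℂ | p.eval z = 0}, sph p z ≤ C)
    (p : ℂ[X]) :
    ∫ z in Metric.closedBall (0 : ℂ) 1, sph p z ≤ C + Real.sqrt (Real.pi * p.natDegree *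
      (volume (Metric.closedBall (0 : ℂ) 1 ∩ convexHull ℝ {z : ℂ | p.eval z = 0})).toReal) := by
  set K : Set ℂ := convexHull ℝ {z : ℂ | p.eval z = 0} with hK
  have hKm : MeasurableSet K := SCLM.meas_hull p
  have hB : MeasurableSet (Metric.closedBall (0 : ℂ) 1) := Metric.isClosed_closedBall.measurableSet
  have h1 : ∫ z in Metric.closedBall (0 : ℂ) 1, sph p z =
      (∫ z in Metric.closedBall (0 : ℂ) 1 ∩ K, sph p z) +
        ∫ z in Metric.closedBall (0 : ℂ) 1 \ K, sph p z := by
    rw [← setIntegral_union (disjoint_sdiff_inter.symm) (hB.diff hKm)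
      (FINM.sph_int p 0 1 inter_subset_left) (FINM.sph_int p 0 1 sdiff_subset),
      inter_union_sdiff]
  have h2 := STRM.cs p (Metric.closedBall (0 : ℂ) 1 ∩ K) (hB.inter hKm) inter_subset_left
  have h3 := hC p
  rw [h1]
  linarith

end Pool.Agent.Lib.MP684ec1.CH
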