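import Pool.Agent.Lib.MP_684ec1_an.CH.Spec

/-!
# MP_684ec1, module SEP: separation from the convex hull of a finite set
-/

set_option autoImplicit false

namespace Pool.Agent.Lib.MP684ec1.CH

open Complex Polynomial MeasureTheory intervalIntegral Set
open Pool.Agent.Lib.MP684ec1.HP

theorem specSEP : SpecSEP := by
  intro s hs z hz
  have hc : Convex ℝ (convexHull ℝ (s : Set ℂ)) := convex_convexHull ℝ _
  have hk : IsCompact (convexHull ℝ (s : Set ℂ)) :=
    Set.Finite.isCompact_convexHull (𝕜 := ℝ) s.finite_toSet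
  obtain ⟨f, u, h1, h2⟩ := geometric_hahn_banach_closed_point hc hk.isClosed hz
  obtain ⟨v, hv⟩ : ∃ v : ℂ, v = ((f 1 : ℝ) : ℂ) + ((f I : ℝ) : ℂ) * I := ⟨_, rfl⟩
  have hf : ∀ w : ℂ, f w = (w * (starRingEnd ℂ) v).re := by
    intro w
    have hw : w = w.re • (1 : ℂ) + w.im • I := by
      rw [Complex.real_smul, Complex.real_smul, mul_one]
      exact (Complex.re_add_im w).symm
    have h3 : f w = w.re * f 1 + w.im * f I := by
      conv_lhs => rw [hw]
      rw [map_add, map_smul, map_smul, smul_eq_mul, smul_eq_mul]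
    rw [h3, hv]
    simp [Complex.mul_re]
    try ring
  obtain ⟨ζ₀, hζ₀⟩ := hs
  have hv0 : v ≠ 0 := by
    intro h0
    have h4 := h1 ζ₀ (subset_convexHull ℝ _ hζ₀)
    rw [hf, h0] at h4
    rw [hf, h0] at h2
    simp at h4 h2
    linarith
  have hn : 0 < ‖v‖ := norm_pos_iff.2 hv0
  have hee : ∀ w : ℂ, f w = ‖v‖ * (w * (starRingEnd ℂ) (ee v.arg)).re := by
    intro w
    have h5 : v = ((‖v‖ : ℝ) : ℂ) * ee v.arg := (Complex.norm_mul_exp_arg_mul_I v).symm
    rw [hf]
    conv_lhs => rw [h5]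
    rw [map_mul, Complex.conj_ofReal, ← Complex.re_ofReal_mul]
    congr 1
    ring
  refine ⟨v.arg, ?_⟩
  unfold HH
  rw [Finset.sup'_lt_iff]
  intro ζ hζ
  have h6 : f ζ < f z := (h1 ζ (subset_convexHull ℝ _ hζ)).trans h2
  rw [hee, hee] at h6
  exact lt_of_mul_lt_mul_left h6 hn.le

end Pool.Agent.Lib.MP684ec1.CH
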