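import Pool.Agent.Lib.MP_684ec1_an.CH.Spec

/-!
# SMT: the functions `A` and `B` are smooth outside
-/

set_option autoImplicit false

namespace Pool.Agent.Lib.MP684ec1.CH

open Complex Polynomial MeasureTheory intervalIntegral Set
open Pool.Agent.Lib.MP684ec1.HP

namespace SMTM

lemma evalC (p : ℂ[X]) (z : ℂ) : ContDiffAt ℂ 1 (fun z : ℂ => p.eval z) z := by
  have h : ContDiff ℂ 1 (fun z : ℂ => p.eval z) := by
    have := p.contDiff_aeval (𝕜 := ℂ) (n := 1)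
    simpa using this
  exact h.contDiffAt

lemma c1 {f g : ℝ → ℝ} (h : ∀ x, HasDerivAt f (g x) x) (hg : Continuous g) :
    ContDiff ℝ 1 f := by
  rw [contDiff_one_iff_deriv]
  refine ⟨fun x => (h x).differentiableAt, ?_⟩
  have : deriv f = g := funext fun x => (h x).deriv
  rw [this]
  exact hg

lemma eeC : ContDiff ℝ 1 ee := by
  have : ee = fun θ : ℝ => exp ((θ : ℂ) * I) := rfl
  rw [this]
  exact ((Complex.ofRealCLM.contDiff).mul contDiff_const).cexp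

lemma oC {f : ℝ → ℝ} (h : ContDiff ℝ 1 f) : ContDiff ℝ 1 (fun θ : ℝ => ((f θ : ℝ) : ℂ)) :=
  Complex.ofRealCLM.contDiff.comp h

lemma ZC {h h1 h2 : ℝ → ℝ} (hs : Sup h h1 h2) :
    ContDiff ℝ 1 (fun q : ℝ × ℝ => ZZ h h1 q.1 q.2) := by
  have a1 : ContDiff ℝ 1 h := c1 hs.d1 (continuous_iff_continuousAt.2 fun x => (hs.d2 x).continuousAt)
  have a2 : ContDiff ℝ 1 h1 := c1 hs.d2 hs.cont
  have g : ContDiff ℝ 1 (gam h h1) := ((oC a1).add ((oC a2).mul contDiff_const)).mul eeC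
  have g1 : ContDiff ℝ 1 (fun q : ℝ × ℝ => gam h h1 q.1) := g.comp contDiff_fst
  have g2 : ContDiff ℝ 1 (fun q : ℝ × ℝ => ee q.1) := eeC.comp contDiff_fst
  have g3 : ContDiff ℝ 1 (fun q : ℝ × ℝ => ((q.2 : ℝ) : ℂ)) :=
    Complex.ofRealCLM.contDiff.comp contDiff_snd
  exact g1.add (g3.mul g2)

lemma cmp {F : Type} [NormedAddCommGroup F] [NormedSpace ℝ F] (g : ℂ → F) (Z : ℝ × ℝ → ℂ)
    (q : ℝ × ℝ) (hg : ContDiffAt ℝ 1 g (Z q)) (hZ : ContDiffAt ℝ 1 Z q) :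
    ContDiffAt ℝ 1 (fun q => g (Z q)) q :=
  ContDiffAt.comp (g := g) (f := Z) q hg hZ

end SMTM

open SMTM in
theorem specSMT (hLGO : SpecLGO) : SpecSMT := by
  intro p h h1 h2 hs hp
  have key : ∀ q : ℝ × ℝ, 0 < q.2 →
      ContDiffAt ℝ 1 (fun q : ℝ × ℝ => AA p h h1 q.1 q.2) q ∧
      ContDiffAt ℝ 1 (fun q : ℝ × ℝ => BB p h h1 q.1 q.2) q := by
    intro q hq
    obtain ⟨l1, l2, -, -⟩ := hLGO p h h1 h2 hs hp q.1 q.2 hq
    have hlc : 0 < ‖p.leadingCoeff‖ := by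
      rw [norm_pos_iff, Ne, Polynomial.leadingCoeff_eq_zero]
      rintro rfl
      have := hp.1
      simp at this
    have h0 : p.eval (ZZ h h1 q.1 q.2) ≠ 0 := by
      rw [← norm_pos_iff]
      exact lt_of_lt_of_le (mul_pos hlc (pow_pos hq _)) l1
    have hl0 : lg p (ZZ h h1 q.1 q.2) ≠ 0 := by
      intro hh
      unfold PP at l2
      rw [hh] at l2
      simp at l2
    have z : ContDiffAt ℝ 1 (fun q : ℝ × ℝ => ZZ h h1 q.1 q.2) q := (ZC hs).contDiffAt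
    have e1 : ContDiffAt ℝ 1 (fun z : ℂ => p.eval z) (ZZ h h1 q.1 q.2) :=
      (evalC p _).restrict_scalars ℝ
    have e3 : ContDiffAt ℝ 1 (fun z : ℂ => lg p z) (ZZ h h1 q.1 q.2) := by
      have h : ContDiffAt ℂ 1 (fun z : ℂ => p.derivative.eval z / p.eval z) (ZZ h h1 q.1 q.2) :=
        (evalC p.derivative _).div (evalC p _) h0
      exact h.restrict_scalars ℝ
    have n1 : ContDiffAt ℝ 1 (fun z : ℂ => ‖p.eval z‖) (ZZ h h1 q.1 q.2) := e1.norm ℝ h0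
    have n2 : ContDiffAt ℝ 1 (fun z : ℂ => ‖lg p z‖) (ZZ h h1 q.1 q.2) := e3.norm ℝ hl0
    have w1 : ContDiffAt ℝ 1 (fun z : ℂ => wt p z) (ZZ h h1 q.1 q.2) := by
      refine n1.div (contDiffAt_const.add (n1.pow 2)) ?_
      positivity
    have W : ContDiffAt ℝ 1 (fun q : ℝ × ℝ => wt p (ZZ h h1 q.1 q.2)) q :=
      cmp (wt p) (fun q : ℝ × ℝ => ZZ h h1 q.1 q.2) q w1 z
    have R : ContDiffAt ℝ 1 (fun q : ℝ × ℝ => RR p h h1 q.1 q.2) q :=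
      cmp (fun z => ‖lg p z‖) (fun q : ℝ × ℝ => ZZ h h1 q.1 q.2) q n2 z
    have E : ContDiffAt ℝ 1 (fun q : ℝ × ℝ => ee q.1) q :=
      (eeC.comp contDiff_fst).contDiffAt
    have L : ContDiffAt ℝ 1 (fun q : ℝ × ℝ => lg p (ZZ h h1 q.1 q.2) * ee q.1) q :=
      (cmp (lg p) (fun q : ℝ × ℝ => ZZ h h1 q.1 q.2) q e3 z).mul E
    have P : ContDiffAt ℝ 1 (fun q : ℝ × ℝ => PP p h h1 q.1 q.2) q :=
      Complex.reCLM.contDiff.contDiffAt.comp q L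
    have Q : ContDiffAt ℝ 1 (fun q : ℝ × ℝ => QQ p h h1 q.1 q.2) q :=
      (Complex.imCLM.contDiff.contDiffAt.comp q L).neg
    have hR : RR p h h1 q.1 q.2 ≠ 0 := norm_ne_zero_iff.2 hl0
    exact ⟨(W.mul (Q.pow 2)).div R hR, ((W.mul Q).mul P).div R hR⟩
  exact ⟨fun q hq => (key q hq).1.contDiffWithinAt, fun q hq => (key q hq).2.contDiffWithinAt⟩

end Pool.Agent.Lib.MP684ec1.CH
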