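import Pool.Agent.Lib.MP_684ec1_an.CH.Spec

/-!
MP_684ec1, CH, module TOT: the limit `Y → ∞`, `ε → 0`.
-/

set_option autoImplicit false

namespace Pool.Agent.Lib.MP684ec1.CH

open Complex Polynomial MeasureTheory intervalIntegral Set Filter Topology
open Pool.Agent.Lib.MP684ec1.HP

namespace TOTM

lemma ee_cont : Continuous ee := by
  unfold ee; fun_prop

lemma ee_norm (θ : ℝ) : ‖ee θ‖ = 1 := by
  unfold ee
  exact Complex.norm_exp_ofReal_mul_I θ

lemma sph_cont (p : ℂ[X]) : Continuous (sph p) := by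
  unfold sph
  refine Continuous.div (by fun_prop) (by fun_prop) fun z => ?_
  positivity

lemma sph_nn (p : ℂ[X]) (z : ℂ) : 0 ≤ sph p z := by
  unfold sph; positivity

lemma ZZ_cont {h h1 h2 : ℝ → ℝ} (hS : Sup h h1 h2) :
    Continuous (fun q : ℝ × ℝ => ZZ h h1 q.1 q.2) := by
  have c0 : Continuous h := continuous_iff_continuousAt.2 fun θ => (hS.d1 θ).continuousAt
  have c1 : Continuous h1 := continuous_iff_continuousAt.2 fun θ => (hS.d2 θ).continuousAt
  have c2 := ee_cont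
  unfold ZZ gam
  fun_prop

lemma AA_bound {p : ℂ[X]} {h h1 h2 : ℝ → ℝ} (hLGO : SpecLGO) (hS : Sup h h1 h2) (hp : Ins p h)
    (θ Y : ℝ) (hY : 1 ≤ Y) :
    0 ≤ AA p h h1 θ Y ∧ AA p h h1 θ Y ≤ p.natDegree / (‖p.leadingCoeff‖ * Y ^ 2) := by
  obtain ⟨l1, _, l3, _⟩ := hLGO p h h1 h2 hS hp θ Y (by linarith)
  have hY0 : 0 < Y := by linarith
  have hn : 1 ≤ p.natDegree := hp.1
  have hp0 : p ≠ 0 := by
    rintro rfl
    have := hp.1
    simp at this
  have ha : 0 < ‖p.leadingCoeff‖ := norm_pos_iff.2 (leadingCoeff_ne_zero.2 hp0)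
  have hR0 : 0 ≤ RR p h h1 θ Y := norm_nonneg _
  have hQR : QQ p h h1 θ Y ^ 2 ≤ RR p h h1 θ Y ^ 2 := by
    have e1 : |QQ p h h1 θ Y| ≤ RR p h h1 θ Y := by
      unfold QQ RR
      rw [abs_neg]
      refine (Complex.abs_im_le_norm _).trans ?_
      rw [norm_mul, ee_norm, mul_one]
    rw [← sq_abs]
    exact pow_le_pow_left₀ (abs_nonneg _) e1 2
  have hP : 0 < ‖p.eval (ZZ h h1 θ Y)‖ := lt_of_lt_of_le (by positivity) l1
  have hP2 : ‖p.leadingCoeff‖ * Y ≤ ‖p.eval (ZZ h h1 θ Y)‖ := by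
    refine le_trans ?_ l1
    apply mul_le_mul_of_nonneg_left _ ha.le
    calc Y = Y ^ 1 := (pow_one Y).symm
      _ ≤ Y ^ p.natDegree := pow_le_pow_right₀ hY hn
  have hw0 : 0 ≤ wt p (ZZ h h1 θ Y) := by unfold wt; positivity
  have hw : wt p (ZZ h h1 θ Y) ≤ 1 / (‖p.leadingCoeff‖ * Y) := by
    unfold wt
    rw [div_le_div_iff₀ (by positivity) (by positivity)]
    nlinarith
  constructor
  · unfold AA
    exact div_nonneg (mul_nonneg hw0 (sq_nonneg _)) hR0
  · have e2 : AA p h h1 θ Y ≤ wt p (ZZ h h1 θ Y) * RR p h h1 θ Y := by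
      unfold AA
      rcases hR0.eq_or_lt with h0 | h0
      · rw [← h0]; simp
      · rw [div_le_iff₀ h0, mul_assoc]
        apply mul_le_mul_of_nonneg_left _ hw0
        nlinarith
    have e3 : RR p h h1 θ Y ≤ p.natDegree / Y := by
      rw [le_div_iff₀ hY0]; exact l3
    calc AA p h h1 θ Y ≤ wt p (ZZ h h1 θ Y) * RR p h h1 θ Y := e2
      _ ≤ 1 / (‖p.leadingCoeff‖ * Y) * (p.natDegree / Y) := by
          apply mul_le_mul hw e3 hR0 (by positivity)
      _ = _ := by field_simp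

end TOTM

open TOTM in
theorem specTOT (hLGO : SpecLGO) (hBOX : SpecBOX) : SpecTOT := by
  intro p h h1 h2 hS hp M χ χ' hC
  have hpi : 0 < Real.pi := Real.pi_pos
  have c0 : Continuous h := continuous_iff_continuousAt.2 fun θ => (hS.d1 θ).continuousAt
  have cχ : Continuous χ := continuous_iff_continuousAt.2 fun θ => (hC.d θ).continuousAt
  have c2 := hS.cont
  have cZ := ZZ_cont hS
  have cs := sph_cont p
  obtain ⟨F, hF⟩ : ∃ F : ℝ → ℝ → ℝ, F = fun θ r => χ θ * (h θ + h2 θ + r) * sph p (ZZ h h1 θ r) :=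
    ⟨_, rfl⟩
  have cF : Continuous (Function.uncurry F) := by
    rw [hF]
    have e1 : Continuous (fun q : ℝ × ℝ => sph p (ZZ h h1 q.1 q.2)) := cs.comp cZ
    have e2 : Continuous (fun q : ℝ × ℝ => χ q.1 * (h q.1 + h2 q.1 + q.2)) := by fun_prop
    exact e2.mul e1
  -- bounds on the compact box
  obtain ⟨K, hK⟩ : ∃ K : ℝ, ∀ q ∈ (Icc (0 : ℝ) (2 * Real.pi)) ×ˢ (Icc (0 : ℝ) 2),
      ‖Function.uncurry F q‖ ≤ K :=
    (isCompact_Icc.prod isCompact_Icc).exists_bound_of_continuousOn cF.continuousOn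
  obtain ⟨B, hB⟩ : ∃ B : ℝ, ∀ θ ∈ Icc (0 : ℝ) (2 * Real.pi), ‖h θ + h2 θ‖ ≤ B :=
    isCompact_Icc.exists_bound_of_continuousOn (c0.add c2).continuousOn
  have hK0 : 0 ≤ K := (norm_nonneg _).trans (hK (0, 0) ⟨⟨le_rfl, by positivity⟩, ⟨le_rfl, by norm_num⟩⟩)
  have hB0 : 0 ≤ B := (norm_nonneg _).trans (hB 0 ⟨le_rfl, by positivity⟩)
  have hp0 : p ≠ 0 := by
    rintro rfl
    have := hp.1
    simp at this
  have ha : 0 < ‖p.leadingCoeff‖ := norm_pos_iff.2 (leadingCoeff_ne_zero.2 hp0)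
  obtain ⟨RHS, hRHS⟩ : ∃ x : ℝ, x = ∫ θ in (0 : ℝ)..(2 * Real.pi),
      χ θ * (Real.pi * (h θ + h2 θ + 2) + Real.pi / 2 * (h θ + h2 θ)) + Real.pi * |χ' θ| :=
    ⟨_, rfl⟩
  rw [← hRHS]
  have hcont : ∀ a b : ℝ, Continuous (fun θ => ∫ r in a..b, F θ r) := fun a b =>
    intervalIntegral.continuous_parametric_intervalIntegral_of_continuous' cF a b
  have hI : ∀ θ a b : ℝ, IntervalIntegrable (F θ) volume a b := fun θ a b =>
    (cF.comp (Continuous.prodMk_right θ)).intervalIntegrable a b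
  set c : ℝ := 2 * Real.pi * K + 4 * Real.pi * (B + 1) * (p.natDegree / ‖p.leadingCoeff‖) with hc
  have hmain : ∀ m : ℕ, ∫ θ in (0 : ℝ)..(2 * Real.pi), ∫ r in (0 : ℝ)..2, F θ r ≤
      RHS + c * (1 / ((m : ℝ) + 1)) := by
    intro m
    have hm : (0 : ℝ) < (m : ℝ) + 1 := by positivity
    obtain ⟨ε, hε⟩ : ∃ ε : ℝ, ε = 1 / ((m : ℝ) + 1) := ⟨_, rfl⟩
    obtain ⟨Y, hY⟩ : ∃ Y : ℝ, Y = (m : ℝ) + 3 := ⟨_, rfl⟩
    have hε0 : 0 < ε := by rw [hε]; positivity
    have hε1 : ε ≤ 1 := by rw [hε, div_le_one hm]; linarith [(Nat.cast_nonneg m : (0 : ℝ) ≤ m)]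
    have hY2 : 2 < Y := by rw [hY]; linarith [(Nat.cast_nonneg m : (0 : ℝ) ≤ m)]
    have hbox := hBOX p h h1 h2 hS hp M χ χ' hC ε Y hε0 (by linarith) hY2
    rw [← hRHS] at hbox
    have hsplit : ∫ θ in (0 : ℝ)..(2 * Real.pi), ∫ r in (0 : ℝ)..2, F θ r =
        (∫ θ in (0 : ℝ)..(2 * Real.pi), ∫ r in (0 : ℝ)..ε, F θ r) +
        ∫ θ in (0 : ℝ)..(2 * Real.pi), ∫ r in ε..2, F θ r := by
      rw [← intervalIntegral.integral_add ((hcont 0 ε).intervalIntegrable _ _)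
        ((hcont ε 2).intervalIntegrable _ _)]
      refine intervalIntegral.integral_congr fun θ _ => ?_
      exact (intervalIntegral.integral_add_adjacent_intervals (hI θ 0 ε) (hI θ ε 2)).symm
    have hsmall : ∫ θ in (0 : ℝ)..(2 * Real.pi), ∫ r in (0 : ℝ)..ε, F θ r ≤
        2 * Real.pi * K * ε := by
      have e1 : ‖∫ θ in (0 : ℝ)..(2 * Real.pi), ∫ r in (0 : ℝ)..ε, F θ r‖ ≤
          (K * ε) * |2 * Real.pi - 0| := by
        apply intervalIntegral.norm_integral_le_of_norm_le_const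
        intro θ hθ
        rw [uIoc_of_le (by positivity)] at hθ
        have e2 : ‖∫ r in (0 : ℝ)..ε, F θ r‖ ≤ K * |ε - 0| := by
          apply intervalIntegral.norm_integral_le_of_norm_le_const
          intro r hr
          rw [uIoc_of_le hε0.le] at hr
          exact hK (θ, r) ⟨⟨hθ.1.le, hθ.2⟩, ⟨hr.1.le, by linarith [hr.2]⟩⟩
        rwa [sub_zero, abs_of_pos hε0] at e2
      rw [sub_zero, abs_of_pos (by positivity)] at e1
      have e3 := (le_abs_self _).trans e1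
      linarith
    have hlast : ∫ θ in (0 : ℝ)..(2 * Real.pi), χ θ * (2 * (h θ + h2 θ + Y) * AA p h h1 θ Y) ≤
        4 * Real.pi * (B + 1) * (p.natDegree / ‖p.leadingCoeff‖) * ε := by
      have e1 : ‖∫ θ in (0 : ℝ)..(2 * Real.pi), χ θ * (2 * (h θ + h2 θ + Y) * AA p h h1 θ Y)‖ ≤
          (2 * (B + Y) * (p.natDegree / (‖p.leadingCoeff‖ * Y ^ 2))) * |2 * Real.pi - 0| := by
        apply intervalIntegral.norm_integral_le_of_norm_le_const
        intro θ hθ
        rw [uIoc_of_le (by positivity)] at hθ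
        obtain ⟨a1, a2⟩ := AA_bound hLGO hS hp θ Y (by linarith)
        have a3 := hB θ ⟨hθ.1.le, hθ.2⟩
        rw [Real.norm_eq_abs] at a3
        have a4 := le_abs_self (h θ + h2 θ)
        have a5 := hS.nn θ
        have a6 : 0 ≤ h θ + h2 θ + Y := by linarith
        rw [norm_mul, Real.norm_eq_abs, Real.norm_eq_abs, abs_of_nonneg (hC.nn θ), abs_of_nonneg
          (mul_nonneg (mul_nonneg (by norm_num) a6) a1)]
        calc χ θ * (2 * (h θ + h2 θ + Y) * AA p h h1 θ Y)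
            ≤ 1 * (2 * (h θ + h2 θ + Y) * AA p h h1 θ Y) :=
              mul_le_mul_of_nonneg_right (hC.le θ) (mul_nonneg (mul_nonneg (by norm_num) a6) a1)
          _ = 2 * (h θ + h2 θ + Y) * AA p h h1 θ Y := one_mul _
          _ ≤ 2 * (B + Y) * (p.natDegree / (‖p.leadingCoeff‖ * Y ^ 2)) := by
              apply mul_le_mul (by linarith) a2 a1 (by linarith)
      rw [sub_zero, abs_of_pos (by positivity)] at e1
      have e3 := (le_abs_self _).trans e1
      refine e3.trans ?_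
      have hY0 : 0 < Y := by linarith
      have e4 : (B + Y) / Y ^ 2 ≤ (B + 1) * ε := by
        have e5 : (B + Y) / Y ^ 2 ≤ (B + 1) / Y := by
          rw [div_le_div_iff₀ (by positivity) hY0]
          nlinarith [mul_nonneg hB0 (mul_nonneg hY0.le (by linarith : (0 : ℝ) ≤ Y - 1))]
        have e6 : (B + 1) / Y ≤ (B + 1) * ε := by
          rw [hε, hY, mul_one_div]
          apply div_le_div_of_nonneg_left (by linarith) hm (by linarith)
        exact e5.trans e6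
      calc 2 * (B + Y) * (p.natDegree / (‖p.leadingCoeff‖ * Y ^ 2)) * (2 * Real.pi)
          = 4 * Real.pi * (p.natDegree / ‖p.leadingCoeff‖) * ((B + Y) / Y ^ 2) := by
            field_simp; ring
        _ ≤ 4 * Real.pi * (p.natDegree / ‖p.leadingCoeff‖) * ((B + 1) * ε) :=
            mul_le_mul_of_nonneg_left e4 (by positivity)
        _ = _ := by ring
    have hbox' : ∫ θ in (0 : ℝ)..(2 * Real.pi), ∫ r in ε..2, F θ r ≤ RHS +
        ∫ θ in (0 : ℝ)..(2 * Real.pi), χ θ * (2 * (h θ + h2 θ + Y) * AA p h h1 θ Y) := by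
      rw [hF]; exact hbox
    rw [hsplit, ← hε, hc]
    linarith
  have hlim : Tendsto (fun m : ℕ => RHS + c * (1 / ((m : ℝ) + 1))) atTop (𝓝 (RHS + c * 0)) :=
    tendsto_const_nhds.add (tendsto_one_div_add_atTop_nhds_zero_nat.const_mul c)
  rw [mul_zero, add_zero] at hlim
  have := ge_of_tendsto' hlim hmain
  rw [hF] at this
  exact this

end Pool.Agent.Lib.MP684ec1.CH
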