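import Pool.Agent.Lib.MP_684ec1_an.CH.SUP
import Pool.Agent.Lib.MP_684ec1_an.CH.COV
import Pool.Agent.Lib.MP_684ec1_an.CH.INJ
import Pool.Agent.Lib.MP_684ec1_an.CH.CHV
import Pool.Agent.Lib.MP_684ec1_an.CH.LEN
import Pool.Agent.Lib.MP_684ec1_an.CH.CUT
import Pool.Agent.Lib.MP_684ec1_an.CH.LGO
import Pool.Agent.Lib.MP_684ec1_an.CH.SMT
import Pool.Agent.Lib.MP_684ec1_an.CH.PWI
import Pool.Agent.Lib.MP_684ec1_an.CH.RAD
import Pool.Agent.Lib.MP_684ec1_an.CH.STK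
import Pool.Agent.Lib.MP_684ec1_an.CH.BOX
import Pool.Agent.Lib.MP_684ec1_an.CH.TOT
import Pool.Agent.Lib.MP_684ec1_an.CH.EXT
import Pool.Agent.Lib.MP_684ec1_an.CH.APX
import Pool.Agent.Lib.MP_684ec1_an.CH.SEP
import Pool.Agent.Lib.MP_684ec1_an.CH.FAR
import Pool.Agent.Lib.MP_684ec1_an.CH.FIN
import Pool.Agent.Lib.MP_684ec1_an.CH.SCL
import Pool.Agent.Lib.MP_684ec1_an.HP.Main

/-!
# MP_684ec1, the convex hull theorem from its modules
-/

set_option autoImplicit false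

namespace Pool.Agent.Lib.MP684ec1.CH

theorem allFIN : SpecFIN := by
  have hSUP : SpecSUP := specSUP
  have hCOV : SpecCOV := specCOV
  have hINJ : SpecINJ := specINJ hSUP
  have hCHV : SpecCHV := specCHV hCOV hINJ
  have hLEN : SpecLEN := specLEN
  have hCUT : SpecCUT := specCUT
  have hLGO : SpecLGO := specLGO
  have hSMT : SpecSMT := specSMT hLGO
  have hPWI : SpecPWI := specPWI hLGO
  have hRAD : SpecRAD := specRAD hLGO
  have hSTK : SpecSTK := specSTK hSMT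
  have hBOX : SpecBOX := specBOX hLGO hSMT hPWI hRAD hSTK
  have hTOT : SpecTOT := specTOT hLGO hBOX
  have hEXT : SpecEXT := specEXT hCHV hLEN hCUT hTOT
  exact specFIN hEXT specAPX specSEP (specFAR HP.allFIN)

end Pool.Agent.Lib.MP684ec1.CH
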