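import Pool.Agent.Lib.MP_684ec1_an.CH.Spec

/-!
# MP_684ec1, CH, module STK
-/

set_option autoImplicit false

namespace Pool.Agent.Lib.MP684ec1.CH

open Complex Polynomial MeasureTheory intervalIntegral Set
open Pool.Agent.Lib.MP684ec1.HP

namespace STKM

/-- Fubini for continuous functions on a rectangle. -/
lemma swap (F : ℝ → ℝ → ℝ) (hF : Continuous (Function.uncurry F)) (a b c d : ℝ) :
    ∫ x in a..b, ∫ y in c..d, F x y = ∫ y in c..d, ∫ x in a..b, F x y := by
  apply intervalIntegral_intervalIntegral_swap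
  have hc : IsCompact (uIcc a b ×ˢ uIcc c d) := isCompact_uIcc.prod isCompact_uIcc
  have h1 : IntegrableOn (Function.uncurry F) (uIcc a b ×ˢ uIcc c d) (volume.prod volume) :=
    hF.continuousOn.integrableOn_compact hc
  have h2 : IntegrableOn (Function.uncurry F) (uIoc a b ×ˢ uIoc c d) (volume.prod volume) :=
    h1.mono_set (Set.prod_mono uIoc_subset_uIcc uIoc_subset_uIcc)
  exact h2

/-- partial derivatives from the total derivative -/
lemma partials {A : ℝ × ℝ → ℝ} (hA : ContDiffOn ℝ 1 A {q : ℝ × ℝ | 0 < q.2}) (θ r : ℝ)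
    (hr : 0 < r) :
    HasDerivAt (fun t => A (θ, t)) (fderiv ℝ A (θ, r) (0, 1)) r ∧
    HasDerivAt (fun t => A (t, r)) (fderiv ℝ A (θ, r) (1, 0)) θ := by
  have hop : IsOpen {q : ℝ × ℝ | 0 < q.2} := isOpen_lt continuous_const continuous_snd
  have hd : HasFDerivAt A (fderiv ℝ A (θ, r)) (θ, r) :=
    ((hA.differentiableOn one_ne_zero).differentiableAt (hop.mem_nhds hr)).hasFDerivAt
  constructor
  · have h1 : HasDerivAt (fun t : ℝ => (θ, t)) ((0 : ℝ), (1 : ℝ)) r :=
      (hasDerivAt_const r θ).prodMk (hasDerivAt_id r)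
    exact hd.comp_hasDerivAt r h1
  · have h1 : HasDerivAt (fun t : ℝ => (t, r)) ((1 : ℝ), (0 : ℝ)) θ :=
      (hasDerivAt_id θ).prodMk (hasDerivAt_const θ r)
    exact hd.comp_hasDerivAt θ h1

/-- Stokes' formula for general functions. -/
lemma stokes (A B : ℝ × ℝ → ℝ) (hA : ContDiffOn ℝ 1 A {q : ℝ × ℝ | 0 < q.2})
    (hB : ContDiffOn ℝ 1 B {q : ℝ × ℝ | 0 < q.2}) (T : ℝ)
    (hBp : ∀ r, B (T, r) = B (0, r)) (g χ χ' : ℝ → ℝ) (hg : Continuous g)
    (hχ : ∀ θ, HasDerivAt χ (χ' θ) θ) (hχ' : Continuous χ') (hper : χ T = χ 0)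
    (α β a b : ℝ) (ha : 0 < a) (hab : a ≤ b) :
    ∫ θ in (0 : ℝ)..T, ∫ r in a..b, χ θ * (α * (g θ + r) * A (θ, r) + (α * r + β) *
      (A (θ, r) + (g θ + r) * deriv (fun t => A (θ, t)) r - deriv (fun t => B (t, r)) θ)) =
    (∫ θ in (0 : ℝ)..T, χ θ * ((α * b + β) * (g θ + b) * A (θ, b) -
      (α * a + β) * (g θ + a) * A (θ, a))) +
    ∫ θ in (0 : ℝ)..T, ∫ r in a..b, χ' θ * (α * r + β) * B (θ, r) := by
  have hop : IsOpen {q : ℝ × ℝ | 0 < q.2} := isOpen_lt continuous_const continuous_snd
  have hb : 0 < b := lt_of_lt_of_le ha hab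
  have hχc : Continuous χ := continuous_iff_continuousAt.2 fun θ => (hχ θ).continuousAt
  -- the clamp
  have hcl : Continuous (fun q : ℝ × ℝ => (q.1, max a q.2)) := by fun_prop
  have hmap : ∀ q : ℝ × ℝ, (q.1, max a q.2) ∈ {q : ℝ × ℝ | 0 < q.2} := fun q =>
    lt_of_lt_of_le ha (le_max_left _ _)
  have hA1 : Continuous (fun q : ℝ × ℝ => A (q.1, max a q.2)) :=
    hA.continuousOn.comp_continuous hcl hmap
  have hB1 : Continuous (fun q : ℝ × ℝ => B (q.1, max a q.2)) :=
    hB.continuousOn.comp_continuous hcl hmap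
  have hAr : Continuous (fun q : ℝ × ℝ => fderiv ℝ A (q.1, max a q.2) (0, 1)) :=
    ((hA.continuousOn_fderiv_of_isOpen hop le_rfl).comp_continuous hcl hmap).clm_apply
      continuous_const
  have hBt : Continuous (fun q : ℝ × ℝ => fderiv ℝ B (q.1, max a q.2) (1, 0)) :=
    ((hB.continuousOn_fderiv_of_isOpen hop le_rfl).comp_continuous hcl hmap).clm_apply
      continuous_const
  have hmx : ∀ r ∈ uIcc a b, max a r = r := by
    intro r hr
    rw [uIcc_of_le hab] at hr
    exact max_eq_right hr.1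
  have hps : ∀ r ∈ uIcc a b, 0 < r := by
    intro r hr
    rw [uIcc_of_le hab] at hr
    exact lt_of_lt_of_le ha hr.1
  -- the inner integral
  have hin : ∀ θ : ℝ, ∫ r in a..b, χ θ * (α * (g θ + r) * A (θ, r) + (α * r + β) *
      (A (θ, r) + (g θ + r) * deriv (fun t => A (θ, t)) r - deriv (fun t => B (t, r)) θ)) =
      χ θ * ((α * b + β) * (g θ + b) * A (θ, b) - (α * a + β) * (g θ + a) * A (θ, a)) -
      ∫ r in a..b, χ θ * (α * r + β) * fderiv ℝ B (θ, max a r) (1, 0) := by
    intro θ
    have c1 : Continuous (fun r : ℝ => fderiv ℝ A (θ, max a r) (0, 1)) :=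
      hAr.comp (Continuous.prodMk continuous_const continuous_id)
    have c2 : Continuous (fun r : ℝ => fderiv ℝ B (θ, max a r) (1, 0)) :=
      hBt.comp (Continuous.prodMk continuous_const continuous_id)
    have c3 : Continuous (fun r : ℝ => A (θ, max a r)) :=
      hA1.comp (Continuous.prodMk continuous_const continuous_id)
    have cX : Continuous (fun r : ℝ => α * (g θ + r) * A (θ, max a r) + (α * r + β) *
        (A (θ, max a r) + (g θ + r) * fderiv ℝ A (θ, max a r) (0, 1))) :=
      ((continuous_const.mul (continuous_const.add continuous_id)).mul c3).add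
        (((continuous_const.mul continuous_id).add continuous_const).mul
          (c3.add ((continuous_const.add continuous_id).mul c1)))
    have cX' : Continuous (fun r : ℝ => χ θ * (α * (g θ + r) * A (θ, max a r) + (α * r + β) *
        (A (θ, max a r) + (g θ + r) * fderiv ℝ A (θ, max a r) (0, 1)))) :=
      continuous_const.mul cX
    have cY : Continuous (fun r : ℝ => χ θ * (α * r + β) * fderiv ℝ B (θ, max a r) (1, 0)) :=
      (continuous_const.mul ((continuous_const.mul continuous_id).add continuous_const)).mul c2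
    have e1 : ∫ r in a..b, χ θ * (α * (g θ + r) * A (θ, r) + (α * r + β) *
        (A (θ, r) + (g θ + r) * deriv (fun t => A (θ, t)) r - deriv (fun t => B (t, r)) θ)) =
        ∫ r in a..b, (χ θ * (α * (g θ + r) * A (θ, max a r) + (α * r + β) *
          (A (θ, max a r) + (g θ + r) * fderiv ℝ A (θ, max a r) (0, 1))) -
          χ θ * (α * r + β) * fderiv ℝ B (θ, max a r) (1, 0)) := by
      apply intervalIntegral.integral_congr
      intro r hr
      simp only
      rw [hmx r hr, (partials hA θ r (hps r hr)).1.deriv, (partials hB θ r (hps r hr)).2.deriv]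
      ring
    have e2 : ∫ r in a..b, (α * (g θ + r) * A (θ, max a r) + (α * r + β) *
          (A (θ, max a r) + (g θ + r) * fderiv ℝ A (θ, max a r) (0, 1))) =
        (α * b + β) * (g θ + b) * A (θ, b) - (α * a + β) * (g θ + a) * A (θ, a) := by
      apply integral_eq_sub_of_hasDerivAt (f := fun r => (α * r + β) * (g θ + r) * A (θ, r))
      · intro r hr
        rw [hmx r hr]
        have d1 : HasDerivAt (fun r : ℝ => α * r + β) α r := by
          have := ((hasDerivAt_id r).const_mul α).add_const β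
          simpa using this
        have d2 : HasDerivAt (fun r : ℝ => g θ + r) 1 r := (hasDerivAt_id r).const_add (g θ)
        have d3 := (partials hA θ r (hps r hr)).1
        have d4 := (d1.mul d2).mul d3
        refine d4.congr_deriv ?_
        simp only [Pi.mul_apply]
        ring
      · exact cX.intervalIntegrable _ _
    rw [e1, intervalIntegral.integral_sub (cX'.intervalIntegrable _ _)
      (cY.intervalIntegrable _ _), intervalIntegral.integral_const_mul, e2]
  -- the two dimensional functions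
  have cF : Continuous (Function.uncurry
      (fun θ r : ℝ => χ θ * (α * r + β) * fderiv ℝ B (θ, max a r) (1, 0))) := by
    show Continuous (fun q : ℝ × ℝ => χ q.1 * (α * q.2 + β) * fderiv ℝ B (q.1, max a q.2) (1, 0))
    have h1 : Continuous (fun q : ℝ × ℝ => χ q.1) := hχc.comp continuous_fst
    have h2 : Continuous (fun q : ℝ × ℝ => α * q.2 + β) := by fun_prop
    exact ((h1.mul h2).mul hBt)
  have cG : Continuous (Function.uncurry
      (fun θ r : ℝ => χ' θ * (α * r + β) * B (θ, max a r))) := by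
    show Continuous (fun q : ℝ × ℝ => χ' q.1 * (α * q.2 + β) * B (q.1, max a q.2))
    have h1 : Continuous (fun q : ℝ × ℝ => χ' q.1) := hχ'.comp continuous_fst
    have h2 : Continuous (fun q : ℝ × ℝ => α * q.2 + β) := by fun_prop
    exact ((h1.mul h2).mul hB1)
  have cbd : Continuous (fun θ : ℝ => χ θ * ((α * b + β) * (g θ + b) * A (θ, b) -
      (α * a + β) * (g θ + a) * A (θ, a))) := by
    have ca : Continuous (fun θ : ℝ => A (θ, a)) :=
      hA.continuousOn.comp_continuous (by fun_prop) (fun θ => ha)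
    have cb : Continuous (fun θ : ℝ => A (θ, b)) :=
      hA.continuousOn.comp_continuous (by fun_prop) (fun θ => hb)
    exact hχc.mul (((continuous_const.mul (hg.add continuous_const)).mul cb).sub
      ((continuous_const.mul (hg.add continuous_const)).mul ca))
  simp_rw [hin]
  rw [intervalIntegral.integral_sub (cbd.intervalIntegrable _ _)
    ((intervalIntegral.continuous_parametric_intervalIntegral_of_continuous' cF a b).intervalIntegrable _ _)]
  rw [sub_eq_add_neg]
  congr 1
  -- integration by parts in the periodic variable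
  rw [swap _ cF]
  have e3 : ∫ θ in (0 : ℝ)..T, ∫ r in a..b, χ' θ * (α * r + β) * B (θ, r) =
      ∫ θ in (0 : ℝ)..T, ∫ r in a..b, χ' θ * (α * r + β) * B (θ, max a r) := by
    apply intervalIntegral.integral_congr
    intro θ _
    simp only
    apply intervalIntegral.integral_congr
    intro r hr
    simp only
    rw [hmx r hr]
  rw [e3, swap _ cG, ← intervalIntegral.integral_neg]
  apply intervalIntegral.integral_congr
  intro r hr
  simp only
  rw [hmx r hr]
  have hr0 := hps r hr
  have cBt : Continuous (fun θ : ℝ => fderiv ℝ B (θ, r) (1, 0)) := by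
    have h1 := hBt.comp (Continuous.prodMk continuous_id (continuous_const (y := r)))
    have h2 : ((fun q : ℝ × ℝ => fderiv ℝ B (q.1, max a q.2) (1, 0)) ∘ fun x : ℝ => (id x, r)) =
        fun θ : ℝ => fderiv ℝ B (θ, r) (1, 0) := by
      funext θ
      simp only [Function.comp_apply, id_eq]
      rw [hmx r hr]
    rw [← h2]
    exact h1
  have cBr : Continuous (fun θ : ℝ => B (θ, r)) :=
    hB.continuousOn.comp_continuous (by fun_prop) (fun θ => hr0)
  have i1 : Continuous (fun θ : ℝ => χ' θ * B (θ, r)) := hχ'.mul cBr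
  have i2 : Continuous (fun θ : ℝ => χ θ * fderiv ℝ B (θ, r) (1, 0)) := hχc.mul cBt
  have h0 : ∫ θ in (0 : ℝ)..T, (χ' θ * B (θ, r) + χ θ * fderiv ℝ B (θ, r) (1, 0)) = 0 := by
    rw [integral_eq_sub_of_hasDerivAt (f := fun θ => χ θ * B (θ, r))]
    · rw [hBp, hper, sub_self]
    · intro θ _
      exact (hχ θ).mul (partials hB θ r hr0).2
    · exact (i1.add i2).intervalIntegrable _ _
  rw [intervalIntegral.integral_add (i1.intervalIntegrable _ _)
    (i2.intervalIntegrable _ _)] at h0
  have e4 : ∫ θ in (0 : ℝ)..T, χ θ * (α * r + β) * fderiv ℝ B (θ, r) (1, 0) =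
      (α * r + β) * ∫ θ in (0 : ℝ)..T, χ θ * fderiv ℝ B (θ, r) (1, 0) := by
    rw [← intervalIntegral.integral_const_mul]
    apply intervalIntegral.integral_congr
    intro θ _
    simp only
    ring
  have e5 : ∫ θ in (0 : ℝ)..T, χ' θ * (α * r + β) * B (θ, r) =
      (α * r + β) * ∫ θ in (0 : ℝ)..T, χ' θ * B (θ, r) := by
    rw [← intervalIntegral.integral_const_mul]
    apply intervalIntegral.integral_congr
    intro θ _
    simp only
    ring
  rw [e4, e5]
  linear_combination (-(α * r + β)) * h0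

lemma ee_per (θ : ℝ) : ee (θ + 2 * Real.pi) = ee θ := by
  unfold ee
  rw [show (((θ + 2 * Real.pi : ℝ) : ℂ) * I) = (θ : ℂ) * I + 2 * Real.pi * I by push_cast; ring,
    Complex.exp_add, Complex.exp_two_pi_mul_I, mul_one]

lemma ZZ_per {h h1 h2 : ℝ → ℝ} (hs : Sup h h1 h2) (θ r : ℝ) :
    ZZ h h1 (θ + 2 * Real.pi) r = ZZ h h1 θ r := by
  unfold ZZ gam
  rw [ee_per, hs.per, hs.per1]

lemma BB_per (p : ℂ[X]) {h h1 h2 : ℝ → ℝ} (hs : Sup h h1 h2) (θ r : ℝ) :
    BB p h h1 (θ + 2 * Real.pi) r = BB p h h1 θ r := by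
  unfold BB QQ PP RR
  rw [ZZ_per hs, ee_per]

end STKM

open STKM in
theorem specSTK (hSMT : SpecSMT) : SpecSTK := by
  intro p h h1 h2 hs hI M χ χ' hc α β a b ha hab
  obtain ⟨hA, hB⟩ := hSMT p h h1 h2 hs hI
  have hhc : Continuous h := continuous_iff_continuousAt.2 fun θ => (hs.d1 θ).continuousAt
  have key := stokes (fun q : ℝ × ℝ => AA p h h1 q.1 q.2) (fun q : ℝ × ℝ => BB p h h1 q.1 q.2)
    hA hB (2 * Real.pi) (fun r => by simpa using BB_per p hs 0 r) (fun θ => h θ + h2 θ) χ χ'
    (hhc.add hs.cont) hc.d hc.cont (by simpa using hc.per 0) α β a b ha hab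
  exact key

end Pool.Agent.Lib.MP684ec1.CH
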