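import Pool.Agent.Lib.MP_684ec1_an.CH.Spec

set_option autoImplicit false

namespace Pool.Agent.Lib.MP684ec1.CH

open Complex Polynomial MeasureTheory intervalIntegral Set
open Pool.Agent.Lib.MP684ec1.HP

noncomputable section

namespace SUPM

lemma re_formula (a b θ ψ : ℝ) :
    ((((a : ℂ) + (b : ℂ) * I) * ee θ) * (starRingEnd ℂ) (ee ψ)).re =
      a * Real.cos (ψ - θ) + b * Real.sin (ψ - θ) := by
  unfold ee
  rw [Complex.exp_ofReal_mul_I, Complex.exp_ofReal_mul_I]
  simp only [map_add, map_mul, Complex.conj_I, Complex.add_re, Complex.add_im, Complex.mul_re,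
    Complex.mul_im, Complex.I_re, Complex.I_im, Complex.ofReal_re, Complex.ofReal_im,
    Complex.conj_ofReal, Complex.neg_re, Complex.neg_im]
  rw [Real.cos_sub, Real.sin_sub]
  ring

end SUPM

open SUPM in
theorem specSUP : SpecSUP := by
  intro h h1 h2 hS θ ψ
  unfold gam
  rw [re_formula]
  set D : ℝ → ℝ := fun s => h s - (h θ * Real.cos (s - θ) + h1 θ * Real.sin (s - θ)) with hD
  set D1 : ℝ → ℝ := fun s => h1 s - (-(h θ * Real.sin (s - θ)) + h1 θ * Real.cos (s - θ)) with hD1
  have dsub : ∀ s : ℝ, HasDerivAt (fun s : ℝ => s - θ) 1 s := fun s => (hasDerivAt_id s).sub_const θ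
  have dcos : ∀ s : ℝ, HasDerivAt (fun s : ℝ => Real.cos (s - θ)) (-Real.sin (s - θ)) s := by
    intro s
    simpa using (dsub s).cos
  have dsin : ∀ s : ℝ, HasDerivAt (fun s : ℝ => Real.sin (s - θ)) (Real.cos (s - θ)) s := by
    intro s
    simpa using (dsub s).sin
  have hDd : ∀ s, HasDerivAt D (D1 s) s := by
    intro s
    have h3 := (hS.d1 s).sub (((dcos s).const_mul (h θ)).add ((dsin s).const_mul (h1 θ)))
    refine h3.congr_deriv ?_
    simp only [hD1]
    ring
  have hD1d : ∀ s, HasDerivAt D1 (h2 s + h s - D s) s := by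
    intro s
    have h3 := (hS.d2 s).sub ((((dsin s).const_mul (h θ)).neg).add ((dcos s).const_mul (h1 θ)))
    refine h3.congr_deriv ?_
    simp only [hD]
    ring
  have hper : Function.Periodic D (2 * Real.pi) := by
    intro s
    simp only [hD]
    have e1 : s + 2 * Real.pi - θ = (s - θ) + 2 * Real.pi := by ring
    rw [hS.per, e1, Real.cos_add_two_pi, Real.sin_add_two_pi]
  have hmain : 0 ≤ D ψ := by
    obtain ⟨y, hy, hyD⟩ := hper.exists_mem_Ico (by positivity) ψ (θ - Real.pi)
    rw [hyD]
    set F : ℝ → ℝ := fun s => D1 s * Real.sin (y - s) + D s * Real.cos (y - s) with hF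
    have dsub2 : ∀ s : ℝ, HasDerivAt (fun s : ℝ => y - s) (-1) s := fun s => (hasDerivAt_id s).const_sub y
    have hFd : ∀ s, HasDerivAt F ((h s + h2 s) * Real.sin (y - s)) s := by
      intro s
      have h3 := ((hD1d s).mul (dsub2 s).sin).add ((hDd s).mul (dsub2 s).cos)
      refine h3.congr_deriv ?_
      ring
    have hF0 : F θ = 0 := by
      simp [hF, hD, hD1]
    have hFy : F y = D y := by
      simp [hF]
    rw [← hFy, ← hF0]
    have hcont : ∀ s : Set ℝ, ContinuousOn F s := fun s x _ => (hFd x).continuousAt.continuousWithinAt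
    have hdiff : ∀ s : Set ℝ, DifferentiableOn ℝ F s :=
      fun s x _ => (hFd x).differentiableAt.differentiableWithinAt
    rcases le_total θ y with hle | hle
    · have hm := monotoneOn_of_deriv_nonneg (convex_Icc θ y) (hcont _) (hdiff _) (by
        intro s hs
        rw [interior_Icc] at hs
        rw [(hFd s).deriv]
        apply mul_nonneg (hS.nn s)
        apply Real.sin_nonneg_of_nonneg_of_le_pi
        · linarith [hs.2]
        · linarith [hs.1, hy.2])
      exact hm (left_mem_Icc.2 hle) (right_mem_Icc.2 hle) hle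
    · have hm := antitoneOn_of_deriv_nonpos (convex_Icc y θ) (hcont _) (hdiff _) (by
        intro s hs
        rw [interior_Icc] at hs
        rw [(hFd s).deriv]
        apply mul_nonpos_of_nonneg_of_nonpos (hS.nn s)
        apply Real.sin_nonpos_of_nonpos_of_neg_pi_le
        · linarith [hs.1]
        · linarith [hs.2, hy.1])
      exact hm (left_mem_Icc.2 hle) (right_mem_Icc.2 hle) hle
  simp only [hD] at hmain
  linarith

end

end Pool.Agent.Lib.MP684ec1.CH
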