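import Pool.Agent.Lib.MP_684ec1_an.HP.Spec

/-!
# MP_684ec1: Littlewood's integral outside the convex hull of the zeros. Definitions and exact statements

THEOREM (`Results/MP_684ec1_an/ConvexHull.lean`). There is an absolute constant `C` such that for every polynomial `p`, with `K` the convex hull
of its zeros: the integral of `|p'| / (1 + |p|²)` over `D \ K` is at most `C`, and `P(p) ≤ C + √(π n area(K ∩ D))`, `n` the degree.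

Module `XXX` is the file `CH/XXX.lean` with `theorem specXXX (hYYY : SpecYYY) .. : SpecXXX` (the modules named after USES, in this
order) in the namespace `Pool.Agent.Lib.MP684ec1.CH`, own lemmas in the namespace `XXXM`. Every module imports only
`Pool.Agent.Lib.MP_684ec1_an.CH.Spec` (and landed files of `HP` if named). All proofs below are complete.

IDEA. A smooth convex set is `{z : Re (z e^(-iθ)) ≤ h(θ) for all θ}`, `h` its support function, `ρ = h + h'' ≥ 0` the radius of curvature. Its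
exterior has the coordinates `z = γ(θ) + r e^(iθ)`, `r > 0`, `γ = (h + i h') e^(iθ)`, `dx dy = (ρ + r) dr dθ`. Let `f = p'/p`, `f e^(iθ) = P - i Q`,
`R = |f|`, `w = |p|/(1+|p|²)`, `W = arctan |p|`. Then `P > 0`, `|f'| ≤ P / r`, `w P = ∂_r W`, and with `A = w Q²/R`, `B = w Q P/R` one has
`∂_r ((ρ+r) A) - ∂_θ B ≥ - w P² ρ / (R r)` (PWI). With the weight `min (r, 2)`, a cutoff `χ(θ)` and Stokes (everything is periodic in `θ`)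
this bounds `∫ χ ∫_0^2 (ρ+r) |p'|/(1+|p|²) dr dθ` by `∫ χ (π (ρ + 2) + π ρ / 2) + π ∫ |χ'|`.
-/

set_option autoImplicit false

namespace Pool.Agent.Lib.MP684ec1.CH

open Complex Polynomial MeasureTheory intervalIntegral Set
open Pool.Agent.Lib.MP684ec1.HP

noncomputable section

/-! ## Definitions (`sph`, `lg`, `wt`, `Wa` are in `HP/Spec.lean`) -/

/-- `e^(iθ)` -/
def ee (θ : ℝ) : ℂ := exp ((θ : ℂ) * I)

/-- a `C²` support function `h` with the derivatives `h1`, `h2` -/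
structure Sup (h h1 h2 : ℝ → ℝ) : Prop where
  d1 : ∀ θ, HasDerivAt h (h1 θ) θ
  d2 : ∀ θ, HasDerivAt h1 (h2 θ) θ
  cont : Continuous h2
  per : ∀ θ, h (θ + 2 * Real.pi) = h θ
  per1 : ∀ θ, h1 (θ + 2 * Real.pi) = h1 θ
  nn : ∀ θ, 0 ≤ h θ + h2 θ

/-- the convex set with the support function `h` -/
def KK (h : ℝ → ℝ) : Set ℂ := {z : ℂ | ∀ θ, (z * (starRingEnd ℂ) (ee θ)).re ≤ h θ}

/-- the boundary point `γ(θ)` with the outer normal `e^(iθ)` -/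
def gam (h h1 : ℝ → ℝ) (θ : ℝ) : ℂ := ((h θ : ℂ) + (h1 θ : ℂ) * I) * ee θ

/-- `γ(θ) + r e^(iθ)` -/
def ZZ (h h1 : ℝ → ℝ) (θ r : ℝ) : ℂ := gam h h1 θ + (r : ℂ) * ee θ

/-- not constant, all zeros in the convex set -/
def Ins (p : ℂ[X]) (h : ℝ → ℝ) : Prop := 0 < p.natDegree ∧ ∀ z : ℂ, p.eval z = 0 → z ∈ KK h

/-- `P`, the real part of `f e^(iθ)` at the point `(θ, r)` -/
def PP (p : ℂ[X]) (h h1 : ℝ → ℝ) (θ r : ℝ) : ℝ := (lg p (ZZ h h1 θ r) * ee θ).re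

/-- `Q`, minus the imaginary part of `f e^(iθ)` at the point `(θ, r)` -/
def QQ (p : ℂ[X]) (h h1 : ℝ → ℝ) (θ r : ℝ) : ℝ := -(lg p (ZZ h h1 θ r) * ee θ).im

/-- `R = |f|` -/
def RR (p : ℂ[X]) (h h1 : ℝ → ℝ) (θ r : ℝ) : ℝ := ‖lg p (ZZ h h1 θ r)‖

/-- `A = w Q² / R` -/
def AA (p : ℂ[X]) (h h1 : ℝ → ℝ) (θ r : ℝ) : ℝ := wt p (ZZ h h1 θ r) * QQ p h h1 θ r ^ 2 / RR p h h1 θ r

/-- `B = w Q P / R` -/
def BB (p : ℂ[X]) (h h1 : ℝ → ℝ) (θ r : ℝ) : ℝ :=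
  wt p (ZZ h h1 θ r) * QQ p h h1 θ r * PP p h h1 θ r / RR p h h1 θ r

/-- the support function of a finite set -/
def HH (s : Finset ℂ) (hs : s.Nonempty) (θ : ℝ) : ℝ := s.sup' hs (fun ζ => (ζ * (starRingEnd ℂ) (ee θ)).re)

/-- a cutoff function: `1` where `|γ| ≤ 3`, `0` where `|γ| > 4` -/
structure Cut (M : ℝ) (h h1 h2 : ℝ → ℝ) (χ χ' : ℝ → ℝ) : Prop where
  d : ∀ θ, HasDerivAt χ (χ' θ) θ
  cont : Continuous χ'
  per : ∀ θ, χ (θ + 2 * Real.pi) = χ θ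
  nn : ∀ θ, 0 ≤ χ θ
  le : ∀ θ, χ θ ≤ 1
  one : ∀ θ, ‖gam h h1 θ‖ ≤ 3 → χ θ = 1
  supp : ∀ θ, χ θ ≠ 0 → ‖gam h h1 θ‖ ≤ 4
  supp' : ∀ θ, χ' θ ≠ 0 → ‖gam h h1 θ‖ ≤ 4
  bd : ∀ θ, |χ' θ| ≤ M * (h θ + h2 θ)

/-! ## The geometry of the exterior -/

/-- **SUP** (100 lines). `γ(θ)` is in the convex set.
PROOF. `Re (γ(θ) e^(-iψ)) = h θ cos (ψ - θ) + h1 θ sin (ψ - θ)`. Fix `θ`, let `D s = h s - (h θ cos (s - θ) + h1 θ sin (s - θ))`: `D θ = D' θ = 0`,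
`D'' + D = h + h2 ≥ 0`. Fix `ψ` with `|ψ - θ| ≤ π` and put `F s = D' s sin (ψ - s) + D s cos (ψ - s)`: `F' s = (D'' s + D s) sin (ψ - s)`, `F θ = 0`, `F ψ = D ψ`.
If `θ ≤ ψ` then `F' ≥ 0` on `[θ, ψ]`, if `ψ ≤ θ` then `F' ≤ 0` on `[ψ, θ]`: in both cases `D ψ ≥ 0`. The general `ψ` by periodicity (`h`, `ee`). -/
def SpecSUP : Prop := ∀ h h1 h2 : ℝ → ℝ, Sup h h1 h2 → ∀ θ : ℝ, gam h h1 θ ∈ KK h

/-- **COV** (120 lines). Every point outside has coordinates.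
PROOF. `F ψ = Re (z e^(-iψ)) - h ψ` is continuous and periodic, so it has a maximum at some `θ` in `[0, 2π)`; `r = F θ > 0`. `F' θ = 0`: `Re (z conj (i e^(iθ))) = h1 θ`, and
`z = Re (z e^(-iθ)) e^(iθ) + Re (z conj (i e^(iθ))) i e^(iθ) = (h θ + r + i h1 θ) e^(iθ)`. For `k` in the set: `r = Re ((z - k) e^(-iθ)) + Re (k e^(-iθ)) - h θ ≤ ‖z - k‖`. -/
def SpecCOV : Prop := ∀ h h1 h2 : ℝ → ℝ, Sup h h1 h2 → ∀ z : ℂ, z ∉ KK h →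
  ∃ θ ∈ Ico (0 : ℝ) (2 * Real.pi), ∃ r : ℝ, 0 < r ∧ z = ZZ h h1 θ r ∧ ∀ k ∈ KK h, r ≤ ‖z - k‖

/-- **INJ** (70 lines), USES SUP. The coordinates are unique.
PROOF. With `z = γ(θ) + r e^(iθ)`: `F ψ = Re (z e^(-iψ)) - h ψ ≤ r cos (ψ - θ)` by SUP, and `F θ = r` (`Re (γ(θ) e^(-iθ)) = h θ`). If also `z = γ(θ') + r' e^(iθ')` then
`r' = F θ' ≤ r cos (θ' - θ)`, `r ≤ r' cos (θ - θ')`, so `cos (θ - θ') > 0`, `r ≤ r cos²`, `cos (θ - θ') = 1`, `θ = θ'` as both are in `[0, 2π)`, and `r = r'`. -/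
def SpecINJ : Prop := ∀ h h1 h2 : ℝ → ℝ, Sup h h1 h2 → ∀ θ ∈ Ico (0 : ℝ) (2 * Real.pi), ∀ θ' ∈ Ico (0 : ℝ) (2 * Real.pi),
  ∀ r r' : ℝ, 0 < r → 0 < r' → ZZ h h1 θ r = ZZ h h1 θ' r' → θ = θ' ∧ r = r'

/-- **CHV** (220 lines), USES COV, INJ. Change of variables.
PROOF. `∂_θ ZZ = (h + h2 + r) i e^(iθ)`, `∂_r ZZ = e^(iθ)`, so the determinant of the derivative of `(θ, r) ↦ ZZ` (with values in `ℝ²`, `Complex.measurableEquivRealProd`,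
`Complex.volume_preserving_equiv_real_prod`) is `-(h + h2 + r)` (`ZZ` is `C¹` in both variables together: `γ' = (h + h2) i e^(iθ)` is continuous). Let `S` be the set on the left and
`E` the set of the `(θ, r)` with `θ ∈ [0, 2π)`, `0 < r ≤ 2`, `‖γ(θ)‖ ≤ 3`. `S ⊆ ZZ(E)`: COV gives `θ`, `r ≤ ‖z - k‖ ≤ 2`, `‖γ(θ)‖ = ‖z - r e^(iθ)‖ ≤ 3`. `ZZ` is injective on `E` (INJ).
`∫_S f ≤ ∫_{ZZ(E)} f = ∫_E (h + h2 + r) f(ZZ) ≤ ∫_0^2π ∫_0^2 χ (h + h2 + r) f(ZZ)` (`χ ≥ 0`, `χ = 1` on `E`; `integral_image_eq_integral_abs_det_fderiv_smul`, everything bounded; Fubini). -/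
def SpecCHV : Prop := ∀ h h1 h2 : ℝ → ℝ, Sup h h1 h2 → ∀ (f : ℂ → ℝ) (χ : ℝ → ℝ) (k : ℂ), Continuous f → (∀ z, 0 ≤ f z) →
  Continuous χ → (∀ θ, 0 ≤ χ θ) → (∀ θ, ‖gam h h1 θ‖ ≤ 3 → χ θ = 1) → k ∈ KK h → ‖k‖ ≤ 1 →
  ∫ z in {z : ℂ | ‖z‖ ≤ 1 ∧ z ∉ KK h}, f z ≤
    ∫ θ in (0 : ℝ)..(2 * Real.pi), ∫ r in (0 : ℝ)..2, χ θ * (h θ + h2 θ + r) * f (ZZ h h1 θ r)

/-- **LEN** (150 lines). The length of the boundary in the disc of radius `4`.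
PROOF. Split `[0, 2π]` into the 8 arcs `[a, a + π/4]`. On an arc let `τ = i e^(i(a + π/8))` and `s θ = Re (γ(θ) conj τ)`: `s' θ = (h + h2) cos (θ - a - π/8) ≥ 0.9 (h + h2)`, so `s` is
nondecreasing, and `|s| ≤ ‖γ‖`. If `g = 0` on the arc there is nothing to prove. Otherwise let `α`, `β` be the infimum and the supremum of the `θ` in the arc with `|s θ| ≤ 4` (a nonempty
closed set): `g = 0` off `[α, β]`, so `∫ g ≤ ∫_α^β (h + h2) ≤ (10/9) ∫_α^β s' = (10/9) (s β - s α) ≤ 80/9`. The sum of the 8 arcs is `≤ 72`. -/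
def SpecLEN : Prop := ∀ h h1 h2 : ℝ → ℝ, Sup h h1 h2 → ∀ g : ℝ → ℝ, Continuous g → (∀ θ, 0 ≤ g θ) → (∀ θ, g θ ≤ h θ + h2 θ) →
  (∀ θ, g θ ≠ 0 → ‖gam h h1 θ‖ ≤ 4) → ∫ θ in (0 : ℝ)..(2 * Real.pi), g θ ≤ 72

/-- **CUT** (100 lines). The cutoff function.
PROOF. `b : ContDiffBump (0 : ℂ)` with the radii `3`, `4`; `χ = b ∘ γ`; `γ' = (h + h2) i e^(iθ)`; `χ' θ = fderiv b (γ θ) (γ' θ)`; `M` a bound for the continuous function `‖fderiv b‖` with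
compact support. (If `‖γ θ‖ > 4` then `b = 0` in a neighbourhood, so `χ = 0` and `χ' = 0` there.) `γ` is periodic by `per`, `per1`. -/
def SpecCUT : Prop := ∃ M : ℝ, 0 < M ∧ ∀ h h1 h2 : ℝ → ℝ, Sup h h1 h2 → ∃ χ χ' : ℝ → ℝ, Cut M h h1 h2 χ χ'

/-! ## The calibration -/

/-- **LGO** (150 lines). The logarithmic derivative outside.
PROOF. `p = a ∏ (X - ζ)` over the roots with multiplicity, `n ≥ 1` of them. `z = γ(θ) + r e^(iθ)`, `Re ((z - ζ) e^(-iθ)) = h θ + r - Re (ζ e^(-iθ)) ≥ r` (`Re (γ(θ) e^(-iθ)) = h θ`), so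
`|z - ζ| ≥ r` and `|p(z)| ≥ |a| rⁿ > 0`. `f = p'/p = ∑ 1/(z - ζ)` (`Polynomial.Splits.eval_derivative_div_eval_of_ne_zero`), `f' = - ∑ 1/(z - ζ)²` (the formula for `f` holds near `z`).
`Re (e^(iθ)/(z - ζ)) = Re ((z - ζ) e^(-iθ))/|z - ζ|² ≥ r/|z - ζ|² > 0`. Sum. (Compare `HP/LGD.lean` on main.) -/
def SpecLGO : Prop := ∀ (p : ℂ[X]) (h h1 h2 : ℝ → ℝ), Sup h h1 h2 → Ins p h → ∀ θ r : ℝ, 0 < r →
  ‖p.leadingCoeff‖ * r ^ p.natDegree ≤ ‖p.eval (ZZ h h1 θ r)‖ ∧ 0 < PP p h h1 θ r ∧ RR p h h1 θ r * r ≤ p.natDegree ∧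
  ∃ f' : ℂ, HasDerivAt (lg p) f' (ZZ h h1 θ r) ∧ ‖f'‖ * r ≤ PP p h h1 θ r

/-- **SMT** (120 lines), USES LGO. Smoothness: `ZZ` is `C¹` in `(θ, r)`, and `lg p`, `‖lg p‖`, `wt p` are smooth near `ZZ` (`p ≠ 0`, `lg p ≠ 0`). -/
def SpecSMT : Prop := ∀ (p : ℂ[X]) (h h1 h2 : ℝ → ℝ), Sup h h1 h2 → Ins p h →
  ContDiffOn ℝ 1 (fun q : ℝ × ℝ => AA p h h1 q.1 q.2) {q : ℝ × ℝ | 0 < q.2} ∧
  ContDiffOn ℝ 1 (fun q : ℝ × ℝ => BB p h h1 q.1 q.2) {q : ℝ × ℝ | 0 < q.2}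

/-- **PWI** (220 lines), USES LGO. The pointwise inequality.
PROOF. `Z = ZZ`, `σ = h + h2 + r`, `f = lg p`, `f e^(iθ) = P - i Q`, `R = |f|`, `f'` from LGO, `G = f'(Z) e^(2iθ) = a + i b`, `u = log |p(Z)|`, `w = wt`. From `∂_r Z = e^(iθ)`, `∂_θ Z = σ i e^(iθ)`:
`P_r = a`, `Q_r = -b`, `P_θ = Q - σ b`, `Q_θ = -P - σ a`, `w_r = w₁ P`, `w_θ = w₁ σ Q` (`w₁ = |p| (1 - |p|²)/(1+|p|²)²`), `R_r = (P a - Q b)/R`, `R_θ = -σ (P b + Q a)/R`. So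
`A + σ A_r - B_θ = w (P²/R + (σ P/R³) (a (P² - Q²) - 2 b P Q))` (the terms with `w₁` cancel), and `a (P² - Q²) - 2 b P Q = Re (G (P + i Q)²) ≥ -|G| R² ≥ -(P/r) R²`. Hence it is
`≥ w (P²/R) (1 - σ/r) = - w (P²/R) (h + h2)/r ≥ - w P (h + h2)/r`. We keep the second form. (Numerically checked.) -/
def SpecPWI : Prop := ∀ (p : ℂ[X]) (h h1 h2 : ℝ → ℝ), Sup h h1 h2 → Ins p h → ∀ θ r : ℝ, 0 < r → ∃ Ar Bt : ℝ,
  HasDerivAt (fun t => AA p h h1 θ t) Ar r ∧ HasDerivAt (fun t => BB p h h1 t r) Bt θ ∧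
  -(wt p (ZZ h h1 θ r) * PP p h h1 θ r ^ 2 / RR p h h1 θ r * ((h θ + h2 θ) / r)) ≤ AA p h h1 θ r + (h θ + h2 θ + r) * Ar - Bt

/-- **RAD** (100 lines), USES LGO. Integrals along the rays.
PROOF. `w P = ∂_r arctan |p(ZZ)|` (`|p|` has the derivative `|p| Re (f e^(iθ))`), the values of arctan are in `[0, π/2)`, `w P ≥ 0` is continuous on `(0, ∞)`. -/
def SpecRAD : Prop := ∀ (p : ℂ[X]) (h h1 h2 : ℝ → ℝ), Sup h h1 h2 → Ins p h → ∀ θ ε Y : ℝ, 0 < ε → ε ≤ Y →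
  ∫ r in ε..Y, wt p (ZZ h h1 θ r) * PP p h h1 θ r ≤ Real.pi / 2

/-- **STK** (180 lines), USES SMT. Stokes for a weight `v(r)` which is `r` or constant.
PROOF. Let `v r = α r + β`. The integrand on the left is `∂_r (v σ A) - v ∂_θ B` times `χ` (`∂_r (v σ A) = α σ A + v A + v σ A_r`, `σ = h + h2 + r`). The first part: fundamental theorem of calculus in `r`.
The second one: Fubini, and `∫_0^2π χ ∂_θ B dθ = - ∫_0^2π χ' B dθ`, as `χ B` is `2π`-periodic in `θ`. Everything is continuous on `[0, 2π] × [a, b]`. The partial derivatives are `deriv`; they are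
continuous by SMT (`fderiv` applied to `(0, 1)` and `(1, 0)`). -/
def SpecSTK : Prop := ∀ (p : ℂ[X]) (h h1 h2 : ℝ → ℝ), Sup h h1 h2 → Ins p h → ∀ (M : ℝ) (χ χ' : ℝ → ℝ), Cut M h h1 h2 χ χ' →
  ∀ α β a b : ℝ, 0 < a → a ≤ b →
  ∫ θ in (0 : ℝ)..(2 * Real.pi), ∫ r in a..b, χ θ * (α * (h θ + h2 θ + r) * AA p h h1 θ r + (α * r + β) *
      (AA p h h1 θ r + (h θ + h2 θ + r) * deriv (fun t => AA p h h1 θ t) r - deriv (fun t => BB p h h1 t r) θ)) =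
    (∫ θ in (0 : ℝ)..(2 * Real.pi), χ θ * ((α * b + β) * (h θ + h2 θ + b) * AA p h h1 θ b -
      (α * a + β) * (h θ + h2 θ + a) * AA p h h1 θ a)) +
    ∫ θ in (0 : ℝ)..(2 * Real.pi), ∫ r in a..b, χ' θ * (α * r + β) * BB p h h1 θ r

/-- **BOX** (200 lines), USES LGO, SMT, PWI, RAD, STK. The bound on the box `[ε, 2]`.
PROOF. `σ = h + h2 + r`. STK on `[ε, 2]` with `v = r` (`α = 1`, `β = 0`) and on `[2, Y]` with `v = 2` (`α = 0`, `β = 2`). On `[ε, 2]` the integrand is, by PWI,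
`≥ χ (σ w Q²/R - w (P²/R) (h + h2)) ≥ χ σ w (Q² - P²)/R ≥ χ σ (w R - 2 w P)` (`R² = P² + Q²`, `P ≤ R`, `h + h2 ≤ σ`), and `w R = sph`. On `[2, Y]` it is `≥ - χ 2 w P (h + h2)/r ≥ - χ w P (h + h2)`
(`r ≥ 2`, `P ≤ R`). Add: the boundary terms at `r = 2` cancel, the one at `ε` is `≤ 0` (`A ≥ 0`), `|B| ≤ w P`, `v ≤ 2`. With RAD (`σ ≤ h + h2 + 2` on `[ε, 2]`):
`∫ χ ∫_ε^2 σ sph ≤ ∫ χ (2 (h + h2 + 2) π/2 + (h + h2) π/2) + ∫ |χ'| 2 π/2 + ∫ χ 2 (h + h2 + Y) A(θ, Y)`. -/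
def SpecBOX : Prop := ∀ (p : ℂ[X]) (h h1 h2 : ℝ → ℝ), Sup h h1 h2 → Ins p h → ∀ (M : ℝ) (χ χ' : ℝ → ℝ), Cut M h h1 h2 χ χ' →
  ∀ ε Y : ℝ, 0 < ε → ε < 2 → 2 < Y →
  ∫ θ in (0 : ℝ)..(2 * Real.pi), ∫ r in ε..2, χ θ * (h θ + h2 θ + r) * sph p (ZZ h h1 θ r) ≤
    (∫ θ in (0 : ℝ)..(2 * Real.pi), χ θ * (Real.pi * (h θ + h2 θ + 2) + Real.pi / 2 * (h θ + h2 θ)) + Real.pi * |χ' θ|) +
    ∫ θ in (0 : ℝ)..(2 * Real.pi), χ θ * (2 * (h θ + h2 θ + Y) * AA p h h1 θ Y)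

/-- **TOT** (150 lines), USES LGO, BOX. The limit `Y → ∞`, `ε → 0`.
PROOF. `A ≤ w R`, `R ≤ n/Y`, `w ≤ 1/|p| ≤ 1/(|a| Y^n) ≤ 1/(|a| Y)` for `Y ≥ 1` (LGO), so the last integral is `≤ 2π · 2 (B + Y) n/(|a| Y²) → 0`, `B` a bound for `h + h2` (continuous, periodic or on
`[0, 2π]`). `ε → 0`: the integrand is continuous on `[0, 2π] × [0, 2]` (`sph p` is continuous on `ℂ`), so it is bounded. -/
def SpecTOT : Prop := ∀ (p : ℂ[X]) (h h1 h2 : ℝ → ℝ), Sup h h1 h2 → Ins p h → ∀ (M : ℝ) (χ χ' : ℝ → ℝ), Cut M h h1 h2 χ χ' →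
  ∫ θ in (0 : ℝ)..(2 * Real.pi), ∫ r in (0 : ℝ)..2, χ θ * (h θ + h2 θ + r) * sph p (ZZ h h1 θ r) ≤
    ∫ θ in (0 : ℝ)..(2 * Real.pi), χ θ * (Real.pi * (h θ + h2 θ + 2) + Real.pi / 2 * (h θ + h2 θ)) + Real.pi * |χ' θ|

/-- **EXT** (120 lines), USES CHV, LEN, CUT, TOT. Smooth convex sets which meet the disc.
PROOF. `M`, `χ`, `χ'` from CUT; CHV for `f = sph p`; TOT; LEN for `g = χ (h + h2)` and for `g = |χ'|/M`: the bound is `C = (3/2) π 72 + 4 π² + π 72 M`. -/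
def SpecEXT : Prop := ∃ C : ℝ, 0 < C ∧ ∀ (p : ℂ[X]) (h h1 h2 : ℝ → ℝ), Sup h h1 h2 → Ins p h → (∃ k ∈ KK h, ‖k‖ ≤ 1) →
  ∫ z in {z : ℂ | ‖z‖ ≤ 1 ∧ z ∉ KK h}, sph p z ≤ C

/-! ## Approximation of the convex hull -/

/-- **APX** (200 lines). Smooth support functions.
PROOF. `H = HH s hs` is continuous, `2π`-periodic, Lipschitz with the constant `L = 1 + ∑ ‖ζ‖`, and `H (θ + t) + H (θ - t) ≥ 2 cos t H θ` (take the `ζ` with `H θ = Re (ζ e^(-iθ))`;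
`Re (ζ e^(-i(θ+t))) + Re (ζ e^(-i(θ-t))) = 2 cos t Re (ζ e^(-iθ))`). For `δ > 0` let `h θ = (2δ)⁻² ∫_(-δ)^δ ∫_(-δ)^δ H (θ + s + t) ds dt + 2 L δ`: `C²`, `h1`, `h2` are difference quotients
(`h2 θ = (H (θ + 2δ) - 2 H θ + H (θ - 2δ))/(4 δ²)`, `d/dθ ∫_(θ-δ)^(θ+δ) F = F (θ + δ) - F (θ - δ)`), `H ≤ h ≤ H + 4 L δ`, and `h` has the same inequality up to a positive constant:
`h (θ + t) + h (θ - t) ≥ 2 cos t h θ` (the constant `2 L δ ≥ 2 L δ cos t`); `t → 0` gives `h2 + h ≥ 0` (`(h (θ + t) + h (θ - t) - 2 h θ)/t² → h2 θ`). `δ = ε/(4 L)`. -/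
def SpecAPX : Prop := ∀ (s : Finset ℂ) (hs : s.Nonempty) (ε : ℝ), 0 < ε → ∃ h h1 h2 : ℝ → ℝ, Sup h h1 h2 ∧
  ∀ θ, HH s hs θ ≤ h θ ∧ h θ ≤ HH s hs θ + ε

/-- **SEP** (80 lines). Separation from the convex hull.
PROOF. `convexHull ℝ s` is convex and compact (`Set.Finite.isCompact_convexHull`); `geometric_hahn_banach_point_closed` gives a real linear form `l` and `u` with `l z < u < l b` on the hull; `l w = Re (w conj v)`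
(`v = l 1 + i l I`, `v ≠ 0`), `-v = |v| e^(iθ)`. -/
def SpecSEP : Prop := ∀ (s : Finset ℂ) (hs : s.Nonempty) (z : ℂ), z ∉ convexHull ℝ (s : Set ℂ) →
  ∃ θ : ℝ, HH s hs θ < (z * (starRingEnd ℂ) (ee θ)).re

/-- **FAR** (100 lines), USES `HP.SpecFIN`. The hull does not meet the disc.
PROOF. Two disjoint compact convex sets: `geometric_hahn_banach_compact_closed` gives `u`, `|u| = 1`, and `c` with `Re (z conj u) > c` on the disc and `< c` on the zeros; the first part of `HP.SpecFIN`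
for this half-plane, the set of which contains the disc. -/
def SpecFAR : Prop := ∀ p : ℂ[X], Disjoint (convexHull ℝ {z : ℂ | p.eval z = 0}) (Metric.closedBall (0 : ℂ) 1) → 0 < p.natDegree →
  ∫ z in Metric.closedBall (0 : ℂ) 1, sph p z ≤ 6 * Real.pi

/-- **FIN** (180 lines), USES EXT, APX, SEP, FAR. THE THEOREM.
PROOF. `C ≥ 6 π` and `≥` the constant of EXT. Constant `p` (also `0`): `sph = 0`. `K ∩ D = ∅`: FAR. Otherwise let `s` be the finite set of the zeros, `h_m` from APX for `ε = 1/(m+1)`; `K ⊆ KK h_m` (a point of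
the hull satisfies `Re (z e^(-iθ)) ≤ H θ`), so `Ins p h_m`, and EXT for `k` in `K ∩ D`. `S_m = {|z| ≤ 1, z ∉ KK h_m} ⊆ D \ K`, and every `z` in `D \ K` is in `S_m` for all large `m`
(SEP: `H θ < Re (z e^(-iθ))` for some `θ`, `h_m θ ≤ H θ + 1/(m+1)`). Dominated convergence: `∫_(S_m) sph → ∫_(D \ K) sph`. -/
def SpecFIN : Prop := ∃ C : ℝ, 0 < C ∧ ∀ p : ℂ[X],
  ∫ z in Metric.closedBall (0 : ℂ) 1 \ convexHull ℝ {z : ℂ | p.eval z = 0}, sph p z ≤ C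

end

end Pool.Agent.Lib.MP684ec1.CH
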